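import Pool.Agent.H5.CG.KerT

/-!
JOB CG-KerS (MP_0d9ad5_pr, note CG), owner helper5. Sums of the kernels over sets.
PROOF. `box_tau`, `box_t2`, `box_t4`: for `y ∈ S`: `1 ≤ C gro (y - w) dmp (z - w)` (`gro_move`), then the moment
(`K.mom`, `t2_mom`, `t4_mom`), the sum over `S` is at most the sum over all `y` (shift by `w`).
`pack2`, `pack4`: the points with `nm (x - w) ≤ r`: at most the sum over the whole ball (`K.ball2`, injectivity of
`w ↦ x - w`, see `Pack_near` in Pool/Agent/H70/CF/Pack.lean); the others by `t2_damp`, `t4_damp`.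
`Tr_y`, `Tr_x`: Fubini (`ENNReal.tsum_comm`), `tau_sum`, `t2_conv`.
-/

namespace CG

open H5DF H95LBD MeasureTheory
open scoped ENNReal

variable {d : ℕ}

/-- The tree sum with root `x` and leaves `y`, `u`. -/
noncomputable def Tr (p : ℝ) (x y u : V d) : ℝ≥0∞ :=
  ∑' t : V d, tau d p (t - x) * (tau d p (y - t) * tau d p (u - t))

lemma KerS_fin (f : V d → ℝ≥0∞) (S : Finset (V d)) (w : V d) :
    ∑ y ∈ S, f (y - w) ≤ ∑' y : V d, f y := by
  calc ∑ y ∈ S, f (y - w) ≤ ∑' y : V d, f (y - w) := ENNReal.sum_le_tsum S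
    _ = _ := (Equiv.subRight w).tsum_eq f

lemma KerS_fin' (f : V d → ℝ≥0∞) (S : Finset (V d)) (w : V d) :
    ∑ y ∈ S, f (w - y) ≤ ∑' y : V d, f y := by
  calc ∑ y ∈ S, f (w - y) ≤ ∑' y : V d, f (w - y) := ENNReal.sum_le_tsum S
    _ = _ := (Equiv.subLeft w).tsum_eq f

lemma KerS_box {L : ℕ} (hL : 1 ≤ L) (f : V d → ℝ≥0∞) (S : Finset (V d)) (z w : V d) (r : ℕ)
    (hS : ∀ y ∈ S, nm (y - z) ≤ r * L) {M : ℝ} (hM : ∑' y : V d, gro L y * f y ≤ ENNReal.ofReal M) :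
    ∑ y ∈ S, f (y - w) ≤ ENNReal.ofReal ((1 + (r : ℝ)) ^ 16 * M) * dmp L (z - w) := by
  calc ∑ y ∈ S, f (y - w) ≤ ∑ y ∈ S, ENNReal.ofReal ((1 + (r : ℝ)) ^ 16) * dmp L (z - w) *
        (gro L (y - w) * f (y - w)) := by
        refine Finset.sum_le_sum fun y hy => ?_
        calc f (y - w) = 1 * f (y - w) := (one_mul _).symm
          _ ≤ ENNReal.ofReal ((1 + (r : ℝ)) ^ 16) * (gro L (y - w) * dmp L (z - w)) *
              f (y - w) := mul_le_mul' (gro_move hL (hS y hy)) le_rfl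
          _ = _ := by ring
    _ = ENNReal.ofReal ((1 + (r : ℝ)) ^ 16) * dmp L (z - w) *
        ∑ y ∈ S, gro L (y - w) * f (y - w) := by rw [Finset.mul_sum]
    _ ≤ ENNReal.ofReal ((1 + (r : ℝ)) ^ 16) * dmp L (z - w) * ENNReal.ofReal M :=
        mul_le_mul' le_rfl ((KerS_fin (fun y => gro L y * f y) S w).trans hM)
    _ = _ := by
        rw [ENNReal.ofReal_mul (by positivity)]
        ring

open Classical in
lemma KerS_pack (f : V d → ℝ≥0∞) (B : Finset (V d)) (x : V d) (r L : ℕ) (c M : ℝ≥0∞)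
    (hM : ∑' z : V d, (if nm z ≤ r then f z else 0) ≤ M)
    (hf : ∀ z : V d, r < nm z → f z ≤ c * dmp L z) :
    ∑ w ∈ B, f (x - w) ≤ M + c * ∑ w ∈ B, dmp L (x - w) := by
  calc ∑ w ∈ B, f (x - w) ≤ ∑ w ∈ B, ((if nm (x - w) ≤ r then f (x - w) else 0) +
        c * dmp L (x - w)) := by
        refine Finset.sum_le_sum fun w _ => ?_
        by_cases h : nm (x - w) ≤ r
        · rw [if_pos h]
          exact le_self_add
        · rw [if_neg h, zero_add]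
          exact hf _ (not_le.1 h)
    _ = (∑ w ∈ B, (if nm (x - w) ≤ r then f (x - w) else 0)) +
        c * ∑ w ∈ B, dmp L (x - w) := by rw [Finset.sum_add_distrib, Finset.mul_sum]
    _ ≤ _ := add_le_add ((KerS_fin' (fun z => if nm z ≤ r then f z else 0) B x).trans hM) le_rfl

section K

variable {p pm pM a A : ℝ} {L : ℕ}

lemma box_tau (K : KIn d p L pm pM a A) (S : Finset (V d)) (z w : V d) (r : ℕ)
    (hS : ∀ y ∈ S, nm (y - z) ≤ r * L) :
    ∑ y ∈ S, tau d p (y - w) ≤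
      ENNReal.ofReal ((1 + (r : ℝ)) ^ 16 * A * (L : ℝ) ^ 2) * dmp L (z - w) := by
  have h := KerS_box K.L1 (tau d p) S z w r hS K.mom
  rwa [← mul_assoc] at h

lemma box_t2 (K : KIn d p L pm pM a A) (S : Finset (V d)) (z w : V d) (r : ℕ)
    (hS : ∀ y ∈ S, nm (y - z) ≤ r * L) :
    ∑ y ∈ S, t2 d p (y - w) ≤
      ENNReal.ofReal ((1 + (r : ℝ)) ^ 16 * A ^ 2 * (L : ℝ) ^ 4) * dmp L (z - w) := by
  have h := KerS_box K.L1 (t2 d p) S z w r hS (t2_mom K)
  rwa [← mul_assoc] at h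

lemma box_t4 (K : KIn d p L pm pM a A) (S : Finset (V d)) (z w : V d) (r : ℕ)
    (hS : ∀ y ∈ S, nm (y - z) ≤ r * L) :
    ∑ y ∈ S, t4 d p (y - w) ≤
      ENNReal.ofReal ((1 + (r : ℝ)) ^ 16 * A ^ 4 * (L : ℝ) ^ 8) * dmp L (z - w) := by
  have h := KerS_box K.L1 (t4 d p) S z w r hS (t4_mom K)
  rwa [← mul_assoc] at h

/-- total sums -/
lemma sum_tau (K : KIn d p L pm pM a A) (S : Finset (V d)) (w : V d) :
    ∑ y ∈ S, tau d p (y - w) ≤ ENNReal.ofReal (A * (L : ℝ) ^ 2) := by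
  exact (KerS_fin (tau d p) S w).trans K.tot

lemma sum_tau' (K : KIn d p L pm pM a A) (S : Finset (V d)) (w : V d) :
    ∑ y ∈ S, tau d p (w - y) ≤ ENNReal.ofReal (A * (L : ℝ) ^ 2) := by
  exact (KerS_fin' (tau d p) S w).trans K.tot

/-- packing -/
lemma pack2 (K : KIn d p L pm pM a A) (B : Finset (V d)) (x : V d) {r : ℕ} (hr : 1 ≤ r)
    (hrL : r ≤ L) : ∑ w ∈ B, t2 d p (x - w) ≤ ENNReal.ofReal (A * (r : ℝ) ^ 4) +
      ENNReal.ofReal (2 ^ 16 * A / (r : ℝ) ^ 16) * ∑ w ∈ B, dmp L (x - w) := by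
  exact KerS_pack (t2 d p) B x r L _ _ (K.ball2 r hr) fun z hz => t2_damp K hr hrL hz

lemma pack4 (K : KIn d p L pm pM a A) (B : Finset (V d)) (x : V d) {r : ℕ} (hr : 1 ≤ r)
    (hrL : r ≤ L) : ∑ w ∈ B, t4 d p (x - w) ≤ ENNReal.ofReal (A * (r : ℝ) ^ 8) +
      ENNReal.ofReal (2 ^ 16 * A / (r : ℝ) ^ 16) * ∑ w ∈ B, dmp L (x - w) := by
  exact KerS_pack (t4 d p) B x r L _ _ (K.ball4 r hr) fun z hz => t4_damp K hr hrL hz

/-- only far points -/
lemma pack2_far (K : KIn d p L pm pM a A) (B : Finset (V d)) (x : V d) {r : ℕ} (hr : 1 ≤ r)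
    (hrL : r ≤ L) (h : ∀ w ∈ B, r < nm (x - w)) : ∑ w ∈ B, t2 d p (x - w) ≤
      ENNReal.ofReal (2 ^ 16 * A / (r : ℝ) ^ 16) * ∑ w ∈ B, dmp L (x - w) := by
  rw [Finset.mul_sum]
  exact Finset.sum_le_sum fun w hw => t2_damp K hr hrL (h w hw)

lemma pack4_far (K : KIn d p L pm pM a A) (B : Finset (V d)) (x : V d) {r : ℕ} (hr : 1 ≤ r)
    (hrL : r ≤ L) (h : ∀ w ∈ B, r < nm (x - w)) : ∑ w ∈ B, t4 d p (x - w) ≤
      ENNReal.ofReal (2 ^ 16 * A / (r : ℝ) ^ 16) * ∑ w ∈ B, dmp L (x - w) := by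
  rw [Finset.mul_sum]
  exact Finset.sum_le_sum fun w hw => t4_damp K hr hrL (h w hw)

/-- tree sums: sum over a leaf, over the root -/
lemma Tr_y (K : KIn d p L pm pM a A) (S : Finset (V d)) (x b u : V d) :
    ∑ y ∈ S, Tr p x (y - b) u ≤ ENNReal.ofReal (A * (L : ℝ) ^ 2) * t2 d p (u - x) := by
  unfold Tr
  rw [← Summable.tsum_finsetSum fun _ _ => ENNReal.summable]
  calc ∑' t : V d, ∑ y ∈ S, tau d p (t - x) * (tau d p (y - b - t) * tau d p (u - t))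
      = ∑' t : V d, (∑ y ∈ S, tau d p (y - (b + t))) * (tau d p (t - x) * tau d p (u - t)) := by
        refine tsum_congr fun t => ?_
        rw [Finset.sum_mul]
        refine Finset.sum_congr rfl fun y _ => ?_
        rw [sub_sub]
        ring
    _ ≤ ∑' t : V d, ENNReal.ofReal (A * (L : ℝ) ^ 2) * (tau d p (t - x) * tau d p (u - t)) :=
        ENNReal.tsum_le_tsum fun t => mul_le_mul' (sum_tau K S (b + t)) le_rfl
    _ = _ := by rw [ENNReal.tsum_mul_left, t2_conv]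

lemma Tr_x (K : KIn d p L pm pM a A) (y u : V d) :
    ∑' x : V d, Tr p x y u ≤ ENNReal.ofReal (A * (L : ℝ) ^ 2) * t2 d p (u - y) := by
  unfold Tr
  rw [ENNReal.tsum_comm]
  calc ∑' t : V d, ∑' x : V d, tau d p (t - x) * (tau d p (y - t) * tau d p (u - t))
      = ∑' t : V d, (∑' x : V d, tau d p x) * (tau d p (t - y) * tau d p (u - t)) := by
        refine tsum_congr fun t => ?_
        have h : ∑' i : V d, tau d p (t - i) = ∑' x : V d, tau d p x :=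
          (Equiv.subLeft t).tsum_eq (tau d p)
        rw [ENNReal.tsum_mul_right, h, ← neg_sub t y, tau_neg p K.h0 K.h1]
    _ = (∑' x : V d, tau d p x) * t2 d p (u - y) := by rw [ENNReal.tsum_mul_left, t2_conv]
    _ ≤ _ := mul_le_mul' K.tot le_rfl

end K

end CG
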