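import Pool.Agent.H5.CG.Inp

/-!
JOB CG-KerA (MP_0d9ad5_pr, note CG), owner helper5. The growth function `gro L z = (1 + |z|/L)^16` and the damping
`dmp L z = (1 + |z|/L)^(-16)`. PROOF. Elementary: `1 + |x+y|/L ≤ (1 + |x|/L)(1 + |y|/L)`, `nm_tri`. `dmp_coord`:
`nm` is at least every coordinate.
-/

namespace CG

open H5DF H95LBD MeasureTheory
open scoped ENNReal

variable {d : ℕ}

lemma KerA_one_le (L : ℕ) (z : V d) : (1 : ℝ) ≤ 1 + (nm z : ℝ) / L := by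
  have : (0 : ℝ) ≤ (nm z : ℝ) / L := by positivity
  linarith

lemma KerA_pos (L : ℕ) (z : V d) : (0 : ℝ) < 1 + (nm z : ℝ) / L :=
  lt_of_lt_of_le one_pos (KerA_one_le L z)

lemma KerA_add (L : ℕ) (x y : V d) :
    1 + (nm (x + y) : ℝ) / L ≤ (1 + (nm x : ℝ) / L) * (1 + (nm y : ℝ) / L) := by
  have h1 : (nm (x + y) : ℝ) ≤ (nm x : ℝ) + (nm y : ℝ) := by exact_mod_cast nm_add x y
  have h2 : (nm (x + y) : ℝ) / L ≤ (nm x : ℝ) / L + (nm y : ℝ) / L := by
    rw [← add_div]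
    gcongr
  have h3 : (0 : ℝ) ≤ (nm x : ℝ) / L * ((nm y : ℝ) / L) := by positivity
  nlinarith

lemma KerA_le {L : ℕ} (hL : 1 ≤ L) {z : V d} {r : ℕ} (h : nm z ≤ r * L) :
    1 + (nm z : ℝ) / L ≤ 1 + (r : ℝ) := by
  have hL0 : (0 : ℝ) < L := by exact_mod_cast hL
  have h1 : (nm z : ℝ) ≤ r * L := by exact_mod_cast h
  have h2 : (nm z : ℝ) / L ≤ r := (div_le_iff₀ hL0).2 h1
  linarith

lemma one_le_gro (L : ℕ) (z : V d) : 1 ≤ gro L z := by
  unfold gro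
  rw [← ENNReal.ofReal_one]
  exact ENNReal.ofReal_le_ofReal (one_le_pow₀ (KerA_one_le L z))

lemma gro_ne_top (L : ℕ) (z : V d) : gro L z ≠ ⊤ := ENNReal.ofReal_ne_top

lemma dmp_le_one (L : ℕ) (z : V d) : dmp L z ≤ 1 := by
  unfold dmp
  rw [← ENNReal.ofReal_one]
  refine ENNReal.ofReal_le_ofReal ?_
  rw [div_le_one (pow_pos (KerA_pos L z) 16)]
  exact one_le_pow₀ (KerA_one_le L z)

lemma dmp_neg (L : ℕ) (z : V d) : dmp L (-z) = dmp L z := by
  unfold dmp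
  rw [nm_neg]

lemma gro_neg (L : ℕ) (z : V d) : gro L (-z) = gro L z := by
  unfold gro
  rw [nm_neg]

lemma dmp_comm (L : ℕ) (x y : V d) : dmp L (x - y) = dmp L (y - x) := by
  rw [← neg_sub, dmp_neg]

lemma dmp_mul_gro (L : ℕ) (z : V d) : dmp L z * gro L z = 1 := by
  have h := pow_pos (KerA_pos L z) 16
  unfold dmp gro
  rw [← ENNReal.ofReal_mul (by positivity), one_div_mul_cancel h.ne', ENNReal.ofReal_one]

lemma gro_add (L : ℕ) (x y : V d) : gro L (x + y) ≤ gro L x * gro L y := by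
  have hx := KerA_pos L x
  have hxy := KerA_pos L (x + y)
  unfold gro
  rw [← ENNReal.ofReal_mul (by positivity), ← mul_pow]
  exact ENNReal.ofReal_le_ofReal (pow_le_pow_left₀ hxy.le (KerA_add L x y) 16)

/-- submultiplicativity along a path -/
lemma gro_tri (L : ℕ) (x u w : V d) : gro L (w - x) ≤ gro L (u - x) * gro L (w - u) := by
  have h : w - x = (u - x) + (w - u) := by abel
  rw [h]
  exact gro_add L _ _

lemma dmp_tri (L : ℕ) (x y z : V d) : dmp L (x - y) * dmp L (y - z) ≤ dmp L (x - z) := by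
  have h1 := KerA_pos L (x - y)
  have h2 := KerA_pos L (y - z)
  have h3 := KerA_pos L (x - z)
  have h : x - z = (x - y) + (y - z) := by abel
  have h4 := KerA_add L (x - y) (y - z)
  rw [← h] at h4
  unfold dmp
  rw [← ENNReal.ofReal_mul (by positivity), one_div_mul_one_div, ← mul_pow]
  exact ENNReal.ofReal_le_ofReal
    (one_div_le_one_div_of_le (pow_pos h3 16) (pow_le_pow_left₀ h3.le h4 16))

/-- `dmp (y-w) ≤ dmp (y-x) gro (w-x)` -/
lemma dmp_gro (L : ℕ) (x y w : V d) : dmp L (y - w) ≤ dmp L (y - x) * gro L (w - x) := by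
  calc dmp L (y - w) = dmp L (y - w) * (dmp L (w - x) * gro L (w - x)) := by
        rw [dmp_mul_gro, mul_one]
    _ = dmp L (y - w) * dmp L (w - x) * gro L (w - x) := (mul_assoc _ _ _).symm
    _ ≤ dmp L (y - x) * gro L (w - x) := mul_le_mul' (dmp_tri L y w x) le_rfl

lemma KerA_gro_le {L : ℕ} (hL : 1 ≤ L) {z : V d} {r : ℕ} (h : nm z ≤ r * L) :
    gro L z ≤ ENNReal.ofReal ((1 + (r : ℝ)) ^ 16) := by
  unfold gro
  exact ENNReal.ofReal_le_ofReal (pow_le_pow_left₀ (KerA_pos L z).le (KerA_le hL h) 16)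

/-- moving the argument by at most `r L` -/
lemma dmp_move {L : ℕ} (hL : 1 ≤ L) {z z' : V d} {r : ℕ} (h : nm (z - z') ≤ r * L) :
    dmp L z ≤ ENNReal.ofReal ((1 + (r : ℝ)) ^ 16) * dmp L z' := by
  have h1 := dmp_gro L (z - z') z 0
  rw [sub_zero, sub_sub_cancel, zero_sub, gro_neg, mul_comm] at h1
  exact h1.trans (mul_le_mul' (KerA_gro_le hL h) le_rfl)

/-- near points -/
lemma one_le_dmp {L : ℕ} (hL : 1 ≤ L) {z : V d} {r : ℕ} (h : nm z ≤ r * L) :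
    1 ≤ ENNReal.ofReal ((1 + (r : ℝ)) ^ 16) * dmp L z := by
  rw [← dmp_mul_gro L z, mul_comm (dmp L z)]
  exact mul_le_mul' (KerA_gro_le hL h) le_rfl

/-- gain from a box: `x` within `r L` of `z` -/
lemma gro_move {L : ℕ} (hL : 1 ≤ L) {x z w : V d} {r : ℕ} (h : nm (x - z) ≤ r * L) :
    1 ≤ ENNReal.ofReal ((1 + (r : ℝ)) ^ 16) * (gro L (x - w) * dmp L (z - w)) := by
  have h1 : dmp L (x - w) ≤ ENNReal.ofReal ((1 + (r : ℝ)) ^ 16) * dmp L (z - w) := by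
    refine dmp_move hL ?_
    rw [sub_sub_sub_cancel_right]
    exact h
  calc (1 : ℝ≥0∞) = gro L (x - w) * dmp L (x - w) := by rw [mul_comm, dmp_mul_gro]
    _ ≤ gro L (x - w) * (ENNReal.ofReal ((1 + (r : ℝ)) ^ 16) * dmp L (z - w)) :=
        mul_le_mul' le_rfl h1
    _ = ENNReal.ofReal ((1 + (r : ℝ)) ^ 16) * (gro L (x - w) * dmp L (z - w)) :=
        mul_left_comm _ _ _

/-- rough decay with damping -/
lemma far_dmp {L : ℕ} {r : ℕ} (hr : 1 ≤ r) (hrL : r ≤ L) {z : V d} (hz : r < nm z) :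
    1 / (1 + (nm z : ℝ)) ^ 16 ≤ 2 ^ 16 / (r : ℝ) ^ 16 * (1 / (1 + (nm z : ℝ) / L) ^ 16) := by
  have hr0 : (0 : ℝ) < r := by exact_mod_cast hr
  have hL0 : (0 : ℝ) < L := by exact_mod_cast hr.trans hrL
  have hrL' : (r : ℝ) ≤ L := by exact_mod_cast hrL
  have hz' : (r : ℝ) ≤ nm z := by exact_mod_cast hz.le
  have hN : (0 : ℝ) ≤ nm z := Nat.cast_nonneg _
  have ha := KerA_pos L z
  have h1 : (nm z : ℝ) / L * r ≤ nm z := by
    rw [div_mul_eq_mul_div, div_le_iff₀ hL0]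
    exact mul_le_mul_of_nonneg_left hrL' hN
  have h2 : r * (1 + (nm z : ℝ) / L) ≤ 2 * (1 + (nm z : ℝ)) := by nlinarith
  have h3 : ((r : ℝ) * (1 + (nm z : ℝ) / L)) ^ 16 ≤ (2 * (1 + (nm z : ℝ))) ^ 16 :=
    pow_le_pow_left₀ (by positivity) h2 16
  rw [mul_pow, mul_pow] at h3
  rw [div_mul_div_comm, mul_one, div_le_div_iff₀ (by positivity) (by positivity), one_mul]
  exact h3

end CG
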