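import Pool.Agent.H5.CG.KerA
import Pool.Agent.H5.CF.ClB
import Pool.Agent.H95.LBD.TauK
import Pool.Agent.H70.CF.Law

/-!
JOB CG-KerT (MP_0d9ad5_pr, note CG), owner helper5. Pointwise facts on `tau`, `t2 = tau * tau`, `t4 = t2 * t2`.
PROOF. `tau d p 0 = 1` (`H95LBD`/`H5DF`: the cluster of 0 contains 0), so `tau ≤ t2 ≤ t4` (one term of the sum).
`tau_neg` is in the library. Convolutions: `Equiv` shifts of `∑'`, `ENNReal.tsum_comm`. `tau_nb`: finite energy: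
open the edge (`0, step s`) : `p * tau x ≤ tau (x + step s)`; for instance `H5CF.off_empty` and the one-edge lemma
`CF.off_step` of Pool/Agent/H70/CF/Law.lean (import it). `t2_nb` follows termwise (reindex).
`tri_tail`: Markov.
-/

namespace CG

open H5DF H95LBD MeasureTheory
open scoped ENNReal

variable {d : ℕ}

lemma KerT_conv (f g : V d → ℝ≥0∞) (x w : V d) :
    ∑' u : V d, f (u - x) * g (w - u) = ∑' u : V d, f u * g (w - x - u) := by
  rw [← (Equiv.addRight x).tsum_eq]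
  refine tsum_congr fun u => ?_
  rw [Equiv.coe_addRight, add_sub_cancel_right, sub_sub, add_comm x u]

lemma KerT_shift (f : V d → ℝ≥0∞) (x : V d) : ∑' u : V d, f (u - x) = ∑' u : V d, f u := by
  rw [← (Equiv.addRight x).tsum_eq]
  refine tsum_congr fun u => ?_
  rw [Equiv.coe_addRight, add_sub_cancel_right]

lemma KerT_sum (f g : V d → ℝ≥0∞) :
    ∑' z : V d, ∑' u : V d, f u * g (z - u) = (∑' u : V d, f u) * ∑' u : V d, g u := by
  rw [ENNReal.tsum_comm, ← ENNReal.tsum_mul_right]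
  refine tsum_congr fun u => ?_
  rw [ENNReal.tsum_mul_left, KerT_shift]

lemma KerT_mom (L : ℕ) (f g : V d → ℝ≥0∞) :
    ∑' z : V d, gro L z * ∑' u : V d, f u * g (z - u) ≤
      (∑' u : V d, gro L u * f u) * ∑' u : V d, gro L u * g u := by
  rw [← KerT_sum (fun u => gro L u * f u) fun u => gro L u * g u]
  refine ENNReal.tsum_le_tsum fun z => ?_
  rw [← ENNReal.tsum_mul_left]
  refine ENNReal.tsum_le_tsum fun u => ?_
  have h : gro L z ≤ gro L u * gro L (z - u) := by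
    have h1 := gro_add L u (z - u)
    rwa [add_sub_cancel] at h1
  calc gro L z * (f u * g (z - u)) ≤ (gro L u * gro L (z - u)) * (f u * g (z - u)) := by gcongr
    _ = gro L u * f u * (gro L (z - u) * g (z - u)) := by ring

lemma KerT_neg (f : V d → ℝ≥0∞) (hf : ∀ z, f (-z) = f z) (z : V d) :
    ∑' u : V d, f u * f (-z - u) = ∑' u : V d, f u * f (z - u) := by
  rw [← (Equiv.neg (V d)).tsum_eq]
  refine tsum_congr fun u => ?_
  rw [Equiv.neg_apply, hf u, ← hf (-z - -u)]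
  congr 2
  abel

lemma t2_neg {p : ℝ} (h0 : 0 ≤ p) (h1 : p ≤ 1) (z : V d) : t2 d p (-z) = t2 d p z :=
  KerT_neg (tau d p) (fun z => tau_neg p h0 h1 z) z

lemma t2_comm {p : ℝ} (h0 : 0 ≤ p) (h1 : p ≤ 1) (x y : V d) : t2 d p (x - y) = t2 d p (y - x) := by
  rw [← neg_sub, t2_neg h0 h1]

lemma t4_neg {p : ℝ} (h0 : 0 ≤ p) (h1 : p ≤ 1) (z : V d) : t4 d p (-z) = t4 d p z :=
  KerT_neg (t2 d p) (fun z => t2_neg h0 h1 z) z

lemma tau_le_t2 {p : ℝ} (h0 : 0 ≤ p) (h1 : p ≤ 1) (z : V d) : tau d p z ≤ t2 d p z := by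
  have h : tau d p 0 * tau d p (z - 0) ≤ t2 d p z :=
    ENNReal.le_tsum (f := fun u : V d => tau d p u * tau d p (z - u)) 0
  rwa [tau_zero p h0 h1, one_mul, sub_zero] at h

lemma t2_le_t4 {p : ℝ} (h0 : 0 ≤ p) (h1 : p ≤ 1) (z : V d) : t2 d p z ≤ t4 d p z := by
  have h : t2 d p 0 * t2 d p (z - 0) ≤ t4 d p z :=
    ENNReal.le_tsum (f := fun u : V d => t2 d p u * t2 d p (z - u)) 0
  rw [sub_zero] at h
  have h2 : 1 ≤ t2 d p 0 := by
    have h3 := tau_le_t2 h0 h1 (0 : V d)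
    rwa [tau_zero p h0 h1] at h3
  calc t2 d p z = 1 * t2 d p z := (one_mul _).symm
    _ ≤ t2 d p 0 * t2 d p z := by gcongr
    _ ≤ t4 d p z := h

/-- `∑ u, tau (u-x) tau (w-u) = t2 (w-x)` -/
lemma t2_conv (p : ℝ) (x w : V d) :
    ∑' u : V d, tau d p (u - x) * tau d p (w - u) = t2 d p (w - x) :=
  KerT_conv _ _ x w

/-- `∑ u, t2 (u-x) t2 (w-u) = t4 (w-x)` -/
lemma t4_conv (p : ℝ) (x w : V d) :
    ∑' u : V d, t2 d p (u - x) * t2 d p (w - u) = t4 d p (w - x) :=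
  KerT_conv _ _ x w

/-- `∑ u, v, tau (u-x) tau (v-u) t2 (w-v) = t4 (w-x)` -/
lemma t4_conv' (p : ℝ) (x w : V d) :
    ∑' u : V d, ∑' v : V d, tau d p (u - x) * (tau d p (v - u) * t2 d p (w - v)) =
      t4 d p (w - x) := by
  rw [ENNReal.tsum_comm, ← t4_conv]
  refine tsum_congr fun v => ?_
  rw [← t2_conv p x v, ← ENNReal.tsum_mul_right]
  refine tsum_congr fun u => ?_
  rw [mul_assoc]

lemma tau_sum (p : ℝ) (x : V d) : ∑' u : V d, tau d p (u - x) = ∑' u : V d, tau d p u :=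
  KerT_shift _ x

lemma t2_sum (p : ℝ) : ∑' u : V d, t2 d p u = (∑' u : V d, tau d p u) ^ 2 := by
  rw [pow_two]
  exact KerT_sum (tau d p) (tau d p)

lemma t4_sum (p : ℝ) : ∑' u : V d, t4 d p u = (∑' u : V d, tau d p u) ^ 4 := by
  have h : ∑' u : V d, t4 d p u = (∑' u : V d, t2 d p u) * ∑' u : V d, t2 d p u :=
    KerT_sum (t2 d p) (t2 d p)
  rw [h, t2_sum]
  ring

/-- neighbours -/
lemma tau_nb {p : ℝ} (h0 : 0 ≤ p) (h1 : p ≤ 1) (z : V d) (s : Dir d) :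
    ENNReal.ofReal p * tau d p (z + step s) ≤ tau d p z := by
  have h := CF.off_step h0 h1 (∅ : Finset (V d)) 0 z (opp s) (Finset.notMem_empty _)
    (Finset.notMem_empty _)
  rwa [H5CF.off_empty h0 h1, H5CF.off_empty h0 h1, sub_zero, zero_add, step_opp,
    sub_neg_eq_add] at h

lemma t2_nb {p : ℝ} (h0 : 0 ≤ p) (h1 : p ≤ 1) (z : V d) (s : Dir d) :
    ENNReal.ofReal p * t2 d p (z + step s) ≤ t2 d p z := by
  unfold t2
  rw [← ENNReal.tsum_mul_left]
  refine ENNReal.tsum_le_tsum fun u => ?_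
  have h := tau_nb h0 h1 (z - u) s
  calc ENNReal.ofReal p * (tau d p u * tau d p (z + step s - u)) =
      tau d p u * (ENNReal.ofReal p * tau d p (z - u + step s)) := by
        rw [add_sub_right_comm]; ring
    _ ≤ tau d p u * tau d p (z - u) := by gcongr

section K

variable {p pm pM a A : ℝ} {L : ℕ}

lemma KIn.h0 (K : KIn d p L pm pM a A) : 0 ≤ p := K.pm0.le.trans K.ppm

lemma KIn.h1 (K : KIn d p L pm pM a A) : p ≤ 1 := K.ppM.trans K.pM1.le

lemma KerT_nb (K : KIn d p L pm pM a A) {x y : ℝ≥0∞} (h : ENNReal.ofReal p * x ≤ y) :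
    x ≤ ENNReal.ofReal (1 / pm) * y := by
  have h2 : ENNReal.ofReal (1 / pm) * ENNReal.ofReal pm = 1 := by
    rw [← ENNReal.ofReal_mul (by have := K.pm0; positivity), one_div,
      inv_mul_cancel₀ K.pm0.ne', ENNReal.ofReal_one]
  calc x = ENNReal.ofReal (1 / pm) * (ENNReal.ofReal pm * x) := by
        rw [← mul_assoc, h2, one_mul]
    _ ≤ ENNReal.ofReal (1 / pm) * (ENNReal.ofReal p * x) := by
        gcongr
        exact K.ppm
    _ ≤ ENNReal.ofReal (1 / pm) * y := by gcongr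

lemma tau_nb' (K : KIn d p L pm pM a A) (z : V d) (s : Dir d) :
    tau d p (z + step s) ≤ ENNReal.ofReal (1 / pm) * tau d p z :=
  KerT_nb K (tau_nb K.h0 K.h1 z s)

lemma t2_nb' (K : KIn d p L pm pM a A) (z : V d) (s : Dir d) :
    t2 d p (z + step s) ≤ ENNReal.ofReal (1 / pm) * t2 d p z :=
  KerT_nb K (t2_nb K.h0 K.h1 z s)

/-- all kernels are bounded by the rough decay -/
lemma tau_far (K : KIn d p L pm pM a A) {z : V d} (h : L ≤ nm z) :
    tau d p z ≤ ENNReal.ofReal (A / (L : ℝ) ^ 16) := by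
  refine ((tau_le_t2 K.h0 K.h1 z).trans (t2_le_t4 K.h0 K.h1 z)).trans ((K.far z).trans ?_)
  have hL : (1 : ℝ) ≤ L := by exact_mod_cast K.L1
  have hz : (L : ℝ) ≤ nm z := by exact_mod_cast h
  have hA := K.hA
  apply ENNReal.ofReal_le_ofReal
  gcongr
  linarith

lemma t4_le_A (K : KIn d p L pm pM a A) (z : V d) : t4 d p z ≤ ENNReal.ofReal A := by
  refine (K.far z).trans (ENNReal.ofReal_le_ofReal ?_)
  have hA := K.hA
  refine div_le_self (by linarith) (one_le_pow₀ ?_)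
  have : (0 : ℝ) ≤ nm z := Nat.cast_nonneg _
  linarith

lemma t2_le_A (K : KIn d p L pm pM a A) (z : V d) : t2 d p z ≤ ENNReal.ofReal A :=
  (t2_le_t4 K.h0 K.h1 z).trans (t4_le_A K z)

lemma t4_damp (K : KIn d p L pm pM a A) {r : ℕ} (hr : 1 ≤ r) (hrL : r ≤ L) {z : V d}
    (hz : r < nm z) : t4 d p z ≤ ENNReal.ofReal (2 ^ 16 * A / (r : ℝ) ^ 16) * dmp L z := by
  refine (K.far z).trans ?_
  have hA := K.hA
  have hr' : (0 : ℝ) < r := by exact_mod_cast hr
  unfold dmp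
  rw [← ENNReal.ofReal_mul (by positivity)]
  apply ENNReal.ofReal_le_ofReal
  have h := far_dmp (d := d) hr hrL hz
  calc A / (1 + (nm z : ℝ)) ^ 16 = A * (1 / (1 + (nm z : ℝ)) ^ 16) := by ring
    _ ≤ A * (2 ^ 16 / (r : ℝ) ^ 16 * (1 / (1 + (nm z : ℝ) / L) ^ 16)) := by gcongr
    _ = 2 ^ 16 * A / (r : ℝ) ^ 16 * (1 / (1 + (nm z : ℝ) / L) ^ 16) := by ring

lemma t2_damp (K : KIn d p L pm pM a A) {r : ℕ} (hr : 1 ≤ r) (hrL : r ≤ L) {z : V d}
    (hz : r < nm z) : t2 d p z ≤ ENNReal.ofReal (2 ^ 16 * A / (r : ℝ) ^ 16) * dmp L z :=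
  (t2_le_t4 K.h0 K.h1 z).trans (t4_damp K hr hrL hz)

lemma tri_tail (K : KIn d p L pm pM a A) {R : ℕ} (hR : 1 ≤ R) :
    ∑' z : V d, (if R ≤ nm z then tau d p z * t2 d p z else 0) ≤ ENNReal.ofReal (A / R) := by
  have hR' : (0 : ℝ) < R := by exact_mod_cast hR
  rw [ENNReal.ofReal_div_of_pos hR', ENNReal.ofReal_natCast,
    ENNReal.le_div_iff_mul_le (Or.inl (by simp; omega)) (Or.inl (ENNReal.natCast_ne_top R)),
    ← ENNReal.tsum_mul_right]
  refine le_trans (ENNReal.tsum_le_tsum fun z => ?_) K.tri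
  split_ifs with h
  · rw [mul_comm]
    gcongr
  · simp

/-- moments of the convolutions -/
lemma t2_mom (K : KIn d p L pm pM a A) :
    ∑' z : V d, gro L z * t2 d p z ≤ ENNReal.ofReal (A ^ 2 * (L : ℝ) ^ 4) := by
  refine (KerT_mom L (tau d p) (tau d p)).trans ?_
  have hA := K.hA
  calc (∑' u : V d, gro L u * tau d p u) * ∑' u : V d, gro L u * tau d p u
      ≤ ENNReal.ofReal (A * (L : ℝ) ^ 2) * ENNReal.ofReal (A * (L : ℝ) ^ 2) :=
        mul_le_mul' K.mom K.mom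
    _ = ENNReal.ofReal (A ^ 2 * (L : ℝ) ^ 4) := by
        rw [← ENNReal.ofReal_mul (by positivity)]
        congr 1
        ring

lemma t4_mom (K : KIn d p L pm pM a A) :
    ∑' z : V d, gro L z * t4 d p z ≤ ENNReal.ofReal (A ^ 4 * (L : ℝ) ^ 8) := by
  refine (KerT_mom L (t2 d p) (t2 d p)).trans ?_
  have hA := K.hA
  calc (∑' u : V d, gro L u * t2 d p u) * ∑' u : V d, gro L u * t2 d p u
      ≤ ENNReal.ofReal (A ^ 2 * (L : ℝ) ^ 4) * ENNReal.ofReal (A ^ 2 * (L : ℝ) ^ 4) :=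
        mul_le_mul' (t2_mom K) (t2_mom K)
    _ = ENNReal.ofReal (A ^ 4 * (L : ℝ) ^ 8) := by
        rw [← ENNReal.ofReal_mul (by positivity)]
        congr 1
        ring

end K

end CG
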