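import Pool.Agent.H5.CG.MasD
import Pool.Agent.H70.CG.PtStep
import Pool.Agent.H70.CG.Hist
import Pool.Agent.H70.CG.Rw
import Pool.Agent.H5.CG.KerT

/-!
JOB CG-B2c (MP_0d9ad5_pr, note 2748, (B2), statements (2), (3)). The recursion of the dirty density.
Adapt `H70/CF/B2.lean` (most of it is a port of `B2_core`, `B2_uniq`, `nn_succ`, `ne_succ`); `MasD` is in
`H5/CG/MasD.lean` (use its statements as black boxes).
pt_offx: as `pt_off` (H70/CG/PtStep.lean, copy its proof) but keep `tau d P.p (y - step s - st.x)` instead of the bound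
`τs` (no distance needed). core: `ND (i+1) y ≤ MasD i (Op [x = y]) + MasF i ([x ∉ AA] ∑_v Opa v [x = y])` (`MasD_succ`).
MasD part: states off `AA`: `pt_offx`, `tau ≤ τs` (`cell_dist`, `good_cell`: the distance is at least `L`), the corner
`z` is in a cell (`B2_cell` of CF), mass of these `BD ≤ Mb`: `m0⁻¹ * B2_K * (τs * Mb)`; states on `AA`: `pt_on`, `NDE ≤ cN`.
MasF part: `Opa ≤ Opv`, `pt_offx`, drop the cell indicator, `MasF_x`, `∑' x, tau (y - step s - x) = ∑' x, tau x`
(`Equiv.subLeft`): `m0⁻¹ * B2_K * χ`. So `X = τs * Mb + χ`.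
-/

namespace CG

open H5DF H95LBD MeasureTheory
open scoped ENNReal

variable {d : ℕ}

/-- The corners `z` with `y` in the cell of `z + L v` form a cell. -/
lemma B2c_cell {L : ℕ} (y v z : V d) :
    y ∈ cell L (z + (L : ℤ) • v) ↔ z ∈ cell L (y - (L : ℤ) • v - fun _ => (L : ℤ) - 1) := by
  rw [mem_cell, mem_cell]
  refine forall_congr' fun i => ?_
  simp only [Pi.add_apply, Pi.sub_apply, Pi.smul_apply, smul_eq_mul]
  constructor
  · rintro ⟨h1, h2⟩
    constructor <;> linarith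
  · rintro ⟨h1, h2⟩
    constructor <;> linarith

/-- the weight of the step from `y - step s` to `y` along Γ -/
noncomputable def B2c_w (P : Par d) (Γ : St d) (y : V d) (s : Dir d) : ℝ≥0∞ := by
  classical
  exact ENNReal.ofReal P.s + (if junc Γ.x Γ.H (y - step s) y then 1 else 0)

/-- the weight of the exit in direction `s` to `y` off Γ -/
noncomputable def B2c_c (P : Par d) (Γ : St d) (y : V d) (s : Dir d) : ℝ≥0∞ := by
  classical
  exact ENNReal.ofReal P.s + (if (∃ e ∈ Γ.H.head?, y = e.y) ∧ y - step s = Γ.x then 1 else 0)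

/-- the constant of the steps off Γ -/
noncomputable def B2c_K (P : Par d) (Γ : St d) (y : V d) : ℝ≥0∞ := by
  classical
  exact ENNReal.ofReal P.s * (2 * d) + (if ∃ e ∈ Γ.H.head?, y = e.y then 1 else 0)

open Classical in
theorem pt_offx (P : Par d) (h0 : 0 ≤ P.p) (h1 : P.p ≤ 1) (m0 : ℝ≥0∞)
    (hm : ∀ st, good P st → ∀ v ∈ steps P.i0, m0 ≤ mm P st v) (Γ st : St d) (hΓ : good P Γ)
    (hst : good P st) (hx : st.x ∉ occ Γ.H) (v : V d) (hv : v ∈ steps P.i0) (y : V d) :
    Opv P (kernG P Γ) (epG P Γ) v (fun st' => if st'.x = y then 1 else 0) st ≤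
      ((steps P.i0).card : ℝ≥0∞)⁻¹ * (m0⁻¹ *
        (if y ∈ cell P.L (st.z + (P.L : ℤ) • v) then
          ∑ s : Dir d, (ENNReal.ofReal P.s +
            (if (∃ e ∈ Γ.H.head?, y = e.y) ∧ y - step s = Γ.x then 1 else 0)) *
              tau d P.p (y - step s - st.x) else 0)) := by
  rw [PtStep_red]
  by_cases hy : y ∈ cell P.L (st.z + (P.L : ℤ) • v)
  · rw [if_pos hy]
    set n0 : ℝ≥0∞ := ((steps P.i0).card : ℝ≥0∞)⁻¹ with hn0
    set T : Finset (V d) := occ st.H ∪ occ Γ.H with hT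
    have hxT : st.x ∉ T := by
      rw [hT, Finset.mem_union, not_or]
      exact ⟨good_notMem hst, hx⟩
    let c : Dir d → ℝ≥0∞ := fun s => ENNReal.ofReal P.s +
      (if (∃ e ∈ Γ.H.head?, y = e.y) ∧ y - step s = Γ.x then 1 else 0)
    have key : ∀ s : Dir d, ∑' B : Finset (V d), kk P (kernG P Γ) (epG P Γ) st
        (v, B, y - step s, s) ≤ (n0 * m0⁻¹) * (c s * tau d P.p (y - step s - st.x)) := by
      intro s
      have hterm : ∀ B : Finset (V d), kk P (kernG P Γ) (epG P Γ) st (v, B, y - step s, s) ≤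
          (n0 * m0⁻¹) * (c s * (cl P.p T st.x B * (if y - step s ∈ B then 1 else 0))) := by
        intro B
        unfold kk
        by_cases hg : gx P st v B (y - step s) s
        · rw [if_pos hg]
          have hg' := PtStep_gx hg
          rw [if_pos hg'.1, mul_one]
          have hk : kernG P Γ st B = cl P.p T st.x B := by
            unfold kernG
            rw [if_neg hx]
          show kernG P Γ st B * epG P Γ (y - step s) s * nrm P st v ≤ _
          rw [hk]
          by_cases hcl : cl P.p T st.x B = 0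
          · rw [hcl]
            simp
          · have hd := (cl_disj hxT hcl).1
            have hb : y - step s ∉ occ Γ.H := by
              intro h2
              refine Finset.disjoint_left.1 hd hg'.1 ?_
              rw [hT, Finset.mem_union]
              exact Or.inr h2
            have hep : epG P Γ (y - step s) s ≤ c s := by
              unfold epG
              rw [sub_add_cancel]
              by_cases hj : junc Γ.x Γ.H (y - step s) y
              · rw [if_pos hj]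
                have h2 := junc_last hΓ (junc_symm hj) hb
                have h3 : (∃ e ∈ Γ.H.head?, y = e.y) ∧ y - step s = Γ.x := ⟨h2.2, h2.1⟩
                show (1 : ℝ≥0∞) ≤ ENNReal.ofReal P.s + _
                rw [if_pos h3]
                exact le_add_self
              · rw [if_neg hj]
                exact le_self_add
            calc cl P.p T st.x B * epG P Γ (y - step s) s * nrm P st v
                ≤ cl P.p T st.x B * c s * (n0 * m0⁻¹) :=
                  mul_le_mul' (mul_le_mul' le_rfl hep) (PtStep_nrm (hm st hst v hv))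
              _ = (n0 * m0⁻¹) * (c s * cl P.p T st.x B) := by ring
        · rw [if_neg hg]
          exact zero_le
      calc ∑' B : Finset (V d), kk P (kernG P Γ) (epG P Γ) st (v, B, y - step s, s)
          ≤ ∑' B : Finset (V d), (n0 * m0⁻¹) *
            (c s * (cl P.p T st.x B * (if y - step s ∈ B then 1 else 0))) :=
            ENNReal.tsum_le_tsum hterm
        _ = (n0 * m0⁻¹) * (c s * ∑' B : Finset (V d),
            cl P.p T st.x B * (if y - step s ∈ B then 1 else 0)) := by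
            rw [ENNReal.tsum_mul_left, ENNReal.tsum_mul_left]
        _ ≤ (n0 * m0⁻¹) * (c s * tau d P.p (y - step s - st.x)) := by
            refine mul_le_mul' le_rfl (mul_le_mul' le_rfl ?_)
            exact (cl_sum_one h0 h1 T st.x (y - step s)).trans
              (off_le_tau h0 h1 T st.x (y - step s))
    calc ∑ s : Dir d, ∑' B : Finset (V d), kk P (kernG P Γ) (epG P Γ) st (v, B, y - step s, s)
        ≤ ∑ s : Dir d, (n0 * m0⁻¹) * (c s * tau d P.p (y - step s - st.x)) :=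
          Finset.sum_le_sum fun s _ => key s
      _ = n0 * (m0⁻¹ * ∑ s : Dir d, c s * tau d P.p (y - step s - st.x)) := by
          rw [← Finset.mul_sum, mul_assoc]
  · rw [Finset.sum_eq_zero]
    · exact zero_le
    · intro s _
      refine ENNReal.tsum_eq_zero.2 fun B => ?_
      unfold kk
      rw [if_neg]
      intro hg
      exact hy (PtStep_gx hg).2.2

/-- the sum of the weights over the directions -/
lemma B2c_c_sum (P : Par d) (Γ : St d) (y : V d) : ∑ s : Dir d, B2c_c P Γ y s ≤ B2c_K P Γ y := by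
  classical
  have e1 : ∑ s : Dir d, B2c_c P Γ y s = ∑ _s : Dir d, ENNReal.ofReal P.s +
      ∑ s : Dir d, (if (∃ e ∈ Γ.H.head?, y = e.y) ∧ y - step s = Γ.x then (1 : ℝ≥0∞) else 0) := by
    rw [← Finset.sum_add_distrib]
    refine Finset.sum_congr rfl fun s _ => ?_
    unfold B2c_c
    rfl
  have e2 : ∑ _s : Dir d, ENNReal.ofReal P.s = ENNReal.ofReal P.s * (2 * d) := by
    rw [Finset.sum_const, Finset.card_univ, Fintype.card_prod, Fintype.card_fin,
      Fintype.card_bool, nsmul_eq_mul]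
    push_cast
    ring
  have e3 : B2c_K P Γ y = ENNReal.ofReal P.s * (2 * d) +
      (if ∃ e ∈ Γ.H.head?, y = e.y then 1 else 0) := by
    unfold B2c_K
    rfl
  rw [e1, e2, e3]
  refine add_le_add le_rfl ?_
  by_cases he : ∃ e ∈ Γ.H.head?, y = e.y
  · rw [if_pos he]
    by_cases hs : ∃ s : Dir d, y - step s = Γ.x
    · obtain ⟨s0, hs0⟩ := hs
      rw [Finset.sum_eq_single s0]
      · split_ifs
        · exact le_rfl
        · exact zero_le
      · intro s _ hne
        rw [if_neg]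
        rintro ⟨-, h2⟩
        apply hne
        rw [← hs0] at h2
        exact geo_step_inj (sub_right_injective h2)
      · intro h2
        exact absurd (Finset.mem_univ _) h2
    · rw [Finset.sum_eq_zero]
      · exact zero_le
      · intro s _
        rw [if_neg]
        rintro ⟨-, h2⟩
        exact hs ⟨s, h2⟩
  · rw [if_neg he, Finset.sum_eq_zero]
    intro s _
    rw [if_neg]
    rintro ⟨h2, -⟩
    exact he h2

/-- the adjacent part of the operator is at most the operator -/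
lemma B2c_Opa_le (P : Par d) (Γ : St d) (v : V d) (F : St d → ℝ≥0∞) (st : St d) :
    Opa P Γ v F st ≤ Opv P (kernG P Γ) (epG P Γ) v F st := by
  classical
  unfold Opa Opv
  refine ENNReal.tsum_le_tsum fun q => ?_
  by_cases h : adj Γ st q.1
  · rw [if_pos h]
  · rw [if_neg h]
    exact zero_le

open Classical in
lemma B2c_core (P : Par d) (hL : 1 ≤ P.L) (h0 : 0 ≤ P.p) (h1 : P.p ≤ 1) (hs0 : 0 ≤ P.s)
    (hs1 : P.s ≤ 1) (m0 τs : ℝ≥0∞)
    (hm : ∀ st, good P st → ∀ v ∈ steps P.i0, m0 ≤ mm P st v)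
    (hτ : ∀ z : V d, P.L ≤ nm z → tau d P.p z ≤ τs) (Γ : St d) (hΓ : good P Γ) (i : ℕ)
    (Mb cN : ℝ≥0∞) (hB : ∀ z0, BD P Γ i z0 ≤ Mb) (hN : ∀ e ∈ Γ.H, NDE P Γ i e.A ≤ cN) (y : V d) :
    ND P Γ (i + 1) y ≤ m0⁻¹ * (B2c_K P Γ y * (τs * Mb + ∑' x : V d, tau d P.p x) +
      cN * ∑ e ∈ Γ.H.toFinset, ∑ s : Dir d,
        (if y - step s ∈ e.A ∧ y ∉ e.A then B2c_w P Γ y s else 0)) := by
  set n0 : ℝ≥0∞ := ((steps P.i0).card : ℝ≥0∞) with hn0
  have hn1 : n0 ≠ 0 := by
    rw [hn0]
    exact_mod_cast (steps_card_pos P.i0).ne'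
  have hn2 : n0 ≠ ⊤ := ENNReal.natCast_ne_top _
  have hsum : ∀ c : ℝ≥0∞, ∑ _v ∈ steps P.i0, n0⁻¹ * c = c := by
    intro c
    rw [Finset.sum_const, nsmul_eq_mul, ← hn0, ← mul_assoc, mul_comm n0, ENNReal.inv_mul_cancel hn1 hn2,
      one_mul]
  set K : ℝ≥0∞ := B2c_K P Γ y with hK
  set W : Ent d → ℝ≥0∞ := fun e => ∑ s : Dir d,
    (if y - step s ∈ e.A ∧ y ∉ e.A then B2c_w P Γ y s else 0) with hW
  set cc : V d → V d := fun v => y - (P.L : ℤ) • v - fun _ => (P.L : ℤ) - 1 with hcc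
  have hpt : ∀ st : St d, good P st →
      Op P (kernG P Γ) (epG P Γ) (fun st' => if st'.x = y then 1 else 0) st ≤
      (∑ v ∈ steps P.i0, n0⁻¹ * (m0⁻¹ * ((K * τs) * (if st.z ∈ cell P.L (cc v) then 1 else 0)))) +
        ∑ e ∈ Γ.H.toFinset, (m0⁻¹ * W e) * (if st.x ∈ e.A then 1 else 0) := by
    intro st hst
    rw [Op_eq]
    by_cases hx : st.x ∈ occ Γ.H
    · obtain ⟨e, he, hxe⟩ := mem_occ.1 hx
      refine le_trans ?_ le_add_self
      calc ∑ v ∈ steps P.i0, Opv P (kernG P Γ) (epG P Γ) v (fun st' => if st'.x = y then 1 else 0) st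
          ≤ ∑ v ∈ steps P.i0, n0⁻¹ * (m0⁻¹ * W e) := by
            refine Finset.sum_le_sum fun v hv => ?_
            exact pt_on P hL m0 hm Γ st hΓ hst e he hxe v hv y
        _ = m0⁻¹ * W e := hsum _
        _ = (m0⁻¹ * W e) * (if st.x ∈ e.A then 1 else 0) := by rw [if_pos hxe, mul_one]
        _ ≤ ∑ e ∈ Γ.H.toFinset, (m0⁻¹ * W e) * (if st.x ∈ e.A then 1 else 0) :=
            Finset.single_le_sum (f := fun e : Ent d => (m0⁻¹ * W e) * (if st.x ∈ e.A then 1 else 0))
              (fun _ _ => zero_le) (List.mem_toFinset.2 he)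
    · refine le_trans ?_ le_self_add
      refine Finset.sum_le_sum fun v hv => ?_
      refine (pt_off P hL h0 h1 m0 τs hm hτ Γ st hΓ hst hx v hv y).trans ?_
      refine mul_le_mul' le_rfl (mul_le_mul' le_rfl (le_of_eq ?_))
      by_cases hy : y ∈ cell P.L (st.z + (P.L : ℤ) • v)
      · rw [if_pos hy, if_pos ((B2c_cell y v st.z).1 hy), mul_one]
        show _ = (ENNReal.ofReal P.s * (2 * d) + (if ∃ e ∈ Γ.H.head?, y = e.y then 1 else 0)) * τs
        rw [add_mul, ite_mul, one_mul, zero_mul]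
      · rw [if_neg hy, if_neg (fun h => hy ((B2c_cell y v st.z).2 h)), mul_zero]
  -- the new chains
  have hptF : ∀ st : St d, good P st →
      (if st.x ∈ occ Γ.H then 0 else ∑ v ∈ steps P.i0,
        Opa P Γ v (fun st' => if st'.x = y then 1 else 0) st) ≤
      (fun x : V d => m0⁻¹ * ∑ s : Dir d, B2c_c P Γ y s * tau d P.p (y - step s - x)) st.x := by
    intro st hst
    by_cases hx : st.x ∈ occ Γ.H
    · rw [if_pos hx]
      exact zero_le
    · rw [if_neg hx]
      calc ∑ v ∈ steps P.i0, Opa P Γ v (fun st' => if st'.x = y then 1 else 0) st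
          ≤ ∑ v ∈ steps P.i0, n0⁻¹ * (m0⁻¹ * ∑ s : Dir d, B2c_c P Γ y s *
              tau d P.p (y - step s - st.x)) := by
            refine Finset.sum_le_sum fun v hv => ?_
            refine (B2c_Opa_le P Γ v _ st).trans
              ((pt_offx P h0 h1 m0 hm Γ st hΓ hst hx v hv y).trans ?_)
            refine mul_le_mul' le_rfl (mul_le_mul' le_rfl ?_)
            split_ifs
            · exact le_of_eq rfl
            · exact zero_le
        _ = _ := hsum _
  have hF : MasF P i (fun st => if st.x ∈ occ Γ.H then 0 else ∑ v ∈ steps P.i0,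
      Opa P Γ v (fun st' => if st'.x = y then 1 else 0) st) ≤
      m0⁻¹ * (K * ∑' x : V d, tau d P.p x) := by
    refine (MasF_mono hptF).trans ((MasF_x h0 h1 hs0 hs1 i (fun x : V d => m0⁻¹ *
      ∑ s : Dir d, B2c_c P Γ y s * tau d P.p (y - step s - x))).trans ?_)
    rw [ENNReal.tsum_mul_left]
    refine mul_le_mul' le_rfl ?_
    rw [Summable.tsum_finsetSum fun _ _ => ENNReal.summable]
    calc ∑ s : Dir d, ∑' x : V d, B2c_c P Γ y s * tau d P.p (y - step s - x)
        = ∑ s : Dir d, B2c_c P Γ y s * ∑' x : V d, tau d P.p x := by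
          refine Finset.sum_congr rfl fun s _ => ?_
          rw [ENNReal.tsum_mul_left]
          congr 1
          exact (Equiv.subLeft (y - step s)).tsum_eq (tau d P.p)
      _ = (∑ s : Dir d, B2c_c P Γ y s) * ∑' x : V d, tau d P.p x := by rw [Finset.sum_mul]
      _ ≤ K * ∑' x : V d, tau d P.p x := mul_le_mul' (B2c_c_sum P Γ y) le_rfl
  have e0 : ND P Γ (i + 1) y ≤ MasD P Γ i (Op P (kernG P Γ) (epG P Γ)
      (fun st' => if st'.x = y then 1 else 0)) +
      MasF P i (fun st => if st.x ∈ occ Γ.H then 0 else ∑ v ∈ steps P.i0,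
        Opa P Γ v (fun st' => if st'.x = y then 1 else 0) st) := by
    unfold ND
    exact MasD_succ Γ hΓ i _
  refine e0.trans ((add_le_add (MasD_mono hpt) hF).trans ?_)
  rw [MasD_add, MasD_sum, MasD_sum]
  have t1 : ∀ v ∈ steps P.i0, MasD P Γ i (fun st => n0⁻¹ * (m0⁻¹ * ((K * τs) *
      (if st.z ∈ cell P.L (cc v) then 1 else 0)))) ≤ n0⁻¹ * (m0⁻¹ * ((K * τs) * Mb)) := by
    intro v _
    rw [MasD_mul, MasD_mul, MasD_mul]
    exact mul_le_mul' le_rfl (mul_le_mul' le_rfl (mul_le_mul' le_rfl (hB (cc v))))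
  have t2 : ∀ e ∈ Γ.H.toFinset, MasD P Γ i (fun st => (m0⁻¹ * W e) *
      (if st.x ∈ e.A then 1 else 0)) ≤ m0⁻¹ * W e * cN := by
    intro e he
    rw [MasD_mul]
    exact mul_le_mul' le_rfl (hN e (List.mem_toFinset.1 he))
  refine (add_le_add (add_le_add (Finset.sum_le_sum t1) (Finset.sum_le_sum t2)) le_rfl).trans
    (le_of_eq ?_)
  rw [hsum, ← Finset.sum_mul, ← Finset.mul_sum]
  ring

/-- at most one entry contains a given point -/
lemma B2c_uniq {P : Par d} {Γ : St d} (hΓ : good P Γ) [DecidableEq (Ent d)] (c : ℝ≥0∞) (w : V d)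
    (S : Finset (V d)) (Q : Ent d → Prop) [DecidablePred Q]
    (hQ : ∀ e ∈ Γ.H, Q e → w ∈ e.A ∧ w ∈ S) :
    ∑ e ∈ Γ.H.toFinset, (if Q e then c else 0) ≤ if w ∈ S then c else 0 := by
  classical
  by_cases h : ∃ e ∈ Γ.H, Q e
  · obtain ⟨e, he, hq⟩ := h
    rw [if_pos (hQ e he hq).2, Finset.sum_eq_single e]
    · rw [if_pos hq]
    · intro e' he' hne
      rw [if_neg]
      intro hq'
      exact hne (good_eq_of_mem hΓ (List.mem_toFinset.1 he') he (hQ e' (List.mem_toFinset.1 he') hq').1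
        (hQ e he hq).1)
    · intro h
      exact absurd (List.mem_toFinset.2 he) h
  · push Not at h
    rw [Finset.sum_eq_zero]
    · exact zero_le
    · intro e he
      rw [if_neg (h e (List.mem_toFinset.1 he))]

open Classical in
theorem nd_succ (P : Par d) (hL : 1 ≤ P.L) (h0 : 0 ≤ P.p) (h1 : P.p ≤ 1) (hs0 : 0 ≤ P.s)
    (hs1 : P.s ≤ 1) (m0 τs : ℝ≥0∞)
    (hm : ∀ st, good P st → ∀ v ∈ steps P.i0, m0 ≤ mm P st v)
    (hτ : ∀ z : V d, P.L ≤ nm z → tau d P.p z ≤ τs) (Γ : St d) (hΓ : good P Γ) (i : ℕ)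
    (Mb cN : ℝ≥0∞) (hB : ∀ z0, BD P Γ i z0 ≤ Mb) (hN : ∀ e ∈ Γ.H, NDE P Γ i e.A ≤ cN) (y : V d) :
    ND P Γ (i + 1) y ≤ m0⁻¹ *
      ((ENNReal.ofReal P.s * (2 * d) + (if ∃ e ∈ Γ.H.head?, y = e.y then 1 else 0)) *
          (τs * Mb + ∑' x : V d, tau d P.p x) +
        cN * ∑ s : Dir d, (if y - step s ∈ occ Γ.H then
          ENNReal.ofReal P.s + (if junc Γ.x Γ.H (y - step s) y then 1 else 0) else 0)) := by
  refine (B2c_core P hL h0 h1 hs0 hs1 m0 τs hm hτ Γ hΓ i Mb cN hB hN y).trans ?_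
  refine mul_le_mul' le_rfl (add_le_add le_rfl (mul_le_mul' le_rfl ?_))
  rw [Finset.sum_comm]
  refine Finset.sum_le_sum fun s _ => ?_
  refine (B2c_uniq hΓ (B2c_w P Γ y s) (y - step s) (occ Γ.H)
    (fun e => y - step s ∈ e.A ∧ y ∉ e.A) ?_).trans (le_of_eq rfl)
  intro e he hq
  exact ⟨hq.1, mem_occ.2 ⟨e, he, hq.1⟩⟩

open Classical in
theorem nde_succ (P : Par d) (hL : 1 ≤ P.L) (h0 : 0 ≤ P.p) (h1 : P.p ≤ 1) (hs0 : 0 ≤ P.s)
    (hs1 : P.s ≤ 1) (m0 τs : ℝ≥0∞)
    (hm : ∀ st, good P st → ∀ v ∈ steps P.i0, m0 ≤ mm P st v)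
    (hτ : ∀ z : V d, P.L ≤ nm z → tau d P.p z ≤ τs) (Γ : St d) (hΓ : good P Γ) (i : ℕ)
    (Mb cN ad : ℝ≥0∞) (hB : ∀ z0, BD P Γ i z0 ≤ Mb) (hN : ∀ e ∈ Γ.H, NDE P Γ i e.A ≤ cN)
    (hadj : ∀ e ∈ Γ.H, ∑ w ∈ e.A, ∑ s : Dir d,
      (if w + step s ∈ occ Γ.H \ e.A then (1 : ℝ≥0∞) else 0) ≤ ad) (e : Ent d) (he : e ∈ Γ.H) :
    NDE P Γ (i + 1) e.A ≤ m0⁻¹ *
      ((ENNReal.ofReal P.s * (2 * d) * e.A.card + 1) * (τs * Mb + ∑' x : V d, tau d P.p x) +
        cN * (ENNReal.ofReal P.s * ad + 2)) := by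
  rw [NDE_eq]
  refine (Finset.sum_le_sum fun y _ =>
    B2c_core P hL h0 h1 hs0 hs1 m0 τs hm hτ Γ hΓ i Mb cN hB hN y).trans ?_
  rw [← Finset.mul_sum, Finset.sum_add_distrib, ← Finset.sum_mul, ← Finset.mul_sum]
  refine mul_le_mul' le_rfl (add_le_add (mul_le_mul' ?_ le_rfl) (mul_le_mul' le_rfl ?_))
  · -- the steps off Γ
    unfold B2c_K
    rw [Finset.sum_add_distrib, Finset.sum_const, nsmul_eq_mul, mul_comm (e.A.card : ℝ≥0∞)]
    refine add_le_add le_rfl ?_
    by_cases h : ∃ e0, e0 ∈ Γ.H.head?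
    · obtain ⟨e0, he0⟩ := h
      have h2 : ∀ y ∈ e.A, (if ∃ e ∈ Γ.H.head?, y = e.y then (1 : ℝ≥0∞) else 0) =
          if y = e0.y then 1 else 0 := by
        intro y _
        by_cases hy : y = e0.y
        · rw [if_pos hy, if_pos ⟨e0, he0, hy⟩]
        · rw [if_neg hy, if_neg]
          rintro ⟨e1, he1, hy1⟩
          have : e1 = e0 := Option.mem_unique he1 he0
          rw [this] at hy1
          exact hy hy1
      rw [Finset.sum_congr rfl h2, Finset.sum_ite_eq' e.A e0.y (fun _ => (1 : ℝ≥0∞))]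
      split_ifs
      · exact le_rfl
      · exact zero_le
    · rw [Finset.sum_eq_zero]
      · exact zero_le
      · intro y _
        rw [if_neg]
        rintro ⟨e1, he1, -⟩
        exact h ⟨e1, he1⟩
  · -- the steps on Γ
    have k1 : ∀ y ∈ e.A, (∑ e' ∈ Γ.H.toFinset, ∑ s : Dir d,
        (if y - step s ∈ e'.A ∧ y ∉ e'.A then B2c_w P Γ y s else 0)) ≤
        ∑ s : Dir d, (if y - step s ∈ occ Γ.H \ e.A then B2c_w P Γ y s else 0) := by
      intro y hy
      rw [Finset.sum_comm]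
      refine Finset.sum_le_sum fun s _ => ?_
      refine B2c_uniq hΓ (B2c_w P Γ y s) (y - step s) (occ Γ.H \ e.A)
        (fun e' => y - step s ∈ e'.A ∧ y ∉ e'.A) ?_
      intro e' he' hq
      refine ⟨hq.1, Finset.mem_sdiff.2 ⟨mem_occ.2 ⟨e', he', hq.1⟩, fun h => ?_⟩⟩
      have : e = e' := good_eq_of_mem hΓ he he' h hq.1
      rw [this] at hy
      exact hq.2 hy
    refine (Finset.sum_le_sum k1).trans ?_
    -- reverse the directions
    have hopp : Function.Involutive (opp : Dir d → Dir d) := by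
      rintro ⟨i, b⟩
      simp [opp]
    let σ : Equiv.Perm (Dir d) := hopp.toPerm
    have k2 : ∀ y ∈ e.A, (∑ s : Dir d, (if y - step s ∈ occ Γ.H \ e.A then B2c_w P Γ y s else 0)) =
        ∑ s : Dir d, (ENNReal.ofReal P.s * (if y + step s ∈ occ Γ.H \ e.A then 1 else 0) +
          (if y + step s ∈ occ Γ.H \ e.A ∧ junc Γ.x Γ.H y (y + step s) then 1 else 0)) := by
      intro y _
      rw [← Equiv.sum_comp σ]
      refine Finset.sum_congr rfl fun s _ => ?_
      have e1 : y - step (σ s) = y + step s := by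
        change y - step (opp s) = _
        rw [step_opp, sub_neg_eq_add]
      have e2 : B2c_w P Γ y (σ s) = ENNReal.ofReal P.s +
          (if junc Γ.x Γ.H y (y + step s) then 1 else 0) := by
        unfold B2c_w
        rw [e1]
        by_cases hj : junc Γ.x Γ.H y (y + step s)
        · rw [if_pos hj, if_pos (junc_symm hj)]
        · rw [if_neg hj, if_neg (fun h => hj (junc_symm h))]
      rw [e1, e2]
      by_cases h3 : y + step s ∈ occ Γ.H \ e.A
      · by_cases h4 : junc Γ.x Γ.H y (y + step s)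
        · simp only [h3, h4, if_true, and_self, mul_one]
        · simp only [h3, h4, if_true, if_false, and_false, mul_one]
      · simp only [h3, if_false, false_and, mul_zero, add_zero]
    rw [Finset.sum_congr rfl k2]
    simp only [Finset.sum_add_distrib, ← Finset.mul_sum]
    refine add_le_add (mul_le_mul' le_rfl (hadj e he)) ?_
    have k3 : (∑ y ∈ e.A, ∑ s : Dir d,
        (if y + step s ∈ occ Γ.H \ e.A ∧ junc Γ.x Γ.H y (y + step s) then (1 : ℝ≥0∞) else 0)) =
        ((((e.A ×ˢ (Finset.univ : Finset (Dir d))).filter fun ys =>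
          ys.1 + step ys.2 ∈ occ Γ.H \ e.A ∧ junc Γ.x Γ.H ys.1 (ys.1 + step ys.2)).card : ℕ) :
          ℝ≥0∞) := by
      rw [← Finset.sum_product', Finset.card_filter]
      push_cast
      rfl
    rw [k3]
    have k4 : ((e.A ×ˢ (Finset.univ : Finset (Dir d))).filter fun ys =>
          ys.1 + step ys.2 ∈ occ Γ.H \ e.A ∧ junc Γ.x Γ.H ys.1 (ys.1 + step ys.2)).card ≤ 2 := by
      refine le_trans (Finset.card_le_card ?_) (junc_count hΓ he)
      intro ys hys
      rw [Finset.mem_filter] at hys ⊢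
      exact ⟨hys.1, hys.2.2, (Finset.mem_sdiff.1 hys.2.1).2⟩
    exact_mod_cast k4

end CG
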