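import Pool.Agent.H95.LBD.BkA
import Pool.Agent.H5.CG.Defs

/-!
PROJECT CG (MP_0d9ad5_pr, note 2718), measure part. The law of a cluster off a finite set.
-/

namespace H5CG

open CG H5DF H95LBD MeasureTheory
open scoped ENNReal

variable {d : ℕ}

lemma cluster_eq_of_mem {ζ : Cfg d} {x y : V d} (h : y ∈ cluster ζ x) :
    cluster ζ y = cluster ζ x := by
  ext z
  exact ⟨fun hz => SimpleGraph.Reachable.trans h hz,
    fun hz => SimpleGraph.Reachable.trans (SimpleGraph.Reachable.symm h) hz⟩

lemma cluster_step {ζ : Cfg d} {x u : V d} {s : Dir d} (hu : u ∈ cluster ζ x)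
    (hs : ζ (edge u s) = true) : u + step s ∈ cluster ζ x :=
  SimpleGraph.Reachable.trans hu (adj_of_open hs).reachable

lemma cluster_cut_sub (T : Set (V d)) (ζ : Cfg d) (x : V d) :
    cluster (cut T ζ) x ⊆ cluster ζ x := fun _ h => Cn.cluster h

/-- A cluster inside `T` is not changed by cutting to `T`. -/
lemma cluster_off {ζ : Cfg d} {T : Set (V d)} {x : V d} (h : cluster ζ x ⊆ T) :
    cluster (cut T ζ) x = cluster ζ x := by
  refine cluster_congr rfl fun u hu s => ?_
  apply Bool.eq_iff_iff.2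
  rw [cut_edge]
  constructor
  · intro hs
    exact ⟨hs, h hu, h (cluster_step hu hs)⟩
  · exact fun hs => hs.1

/-- If `S` is a union of clusters then the cluster of a point off `S` is its cluster off `S`. -/
lemma cluster_off' {ζ : Cfg d} {S : Set (V d)} {x : V d} (hS : ∀ u ∈ S, cluster ζ u ⊆ S)
    (hx : x ∉ S) : cluster (cut Sᶜ ζ) x = cluster ζ x := by
  refine cluster_off fun y hy hyS => hx ?_
  exact hS y hyS (SimpleGraph.Reachable.symm hy)

lemma cut_off_mem {S : Set (V d)} {ζ : Cfg d} {x y : V d} (hx : x ∉ S)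
    (h : y ∈ cluster (cut Sᶜ ζ) x) : y ∉ S := by
  have h2 : Cn Sᶜ ζ x y := h
  exact h2.mem hx

/-- The cluster of `x` off `S` equals `B`: this depends only on the edges touching `B` with both
ends off `S`. -/
lemma cl_dep {S : Set (V d)} {B : Set (V d)} {x : V d} {ζ ζ' : Cfg d}
    (h : ∀ u ∈ B, ∀ s : Dir d, u ∉ S → u + step s ∉ S → ζ (edge u s) = ζ' (edge u s))
    (hc : cluster (cut Sᶜ ζ) x = B) : cluster (cut Sᶜ ζ') x = B := by
  refine cluster_congr hc fun u hu s => ?_
  apply Bool.eq_iff_iff.2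
  rw [cut_edge, cut_edge]
  constructor
  · rintro ⟨h1, h2, h3⟩
    exact ⟨by rw [← h u hu s h2 h3]; exact h1, h2, h3⟩
  · rintro ⟨h1, h2, h3⟩
    exact ⟨by rw [h u hu s h2 h3]; exact h1, h2, h3⟩

lemma meas_cl (T : Set (V d)) (x : V d) (B : Set (V d)) :
    MeasurableSet {ζ : Cfg d | cluster (cut T ζ) x = B} :=
  (measurable_cut T) (meas_cluster_eq x B)

lemma meas_off (T : Set (V d)) (x u : V d) :
    MeasurableSet {ζ : Cfg d | u ∈ cluster (cut T ζ) x} := meas_Cn T x u

lemma cl_le_one {p : ℝ} (h0 : 0 ≤ p) (h1 : p ≤ 1) (S : Finset (V d)) (x : V d)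
    (B : Finset (V d)) : cl p S x B ≤ 1 := by
  have := isProb_perc (d := d) p h0 h1
  exact prob_le_one

lemma off_le_one {p : ℝ} (h0 : 0 ≤ p) (h1 : p ≤ 1) (S : Finset (V d)) (x u : V d) :
    CG.off p S x u ≤ 1 := by
  have := isProb_perc (d := d) p h0 h1
  exact prob_le_one

lemma cl_notMem {p : ℝ} {S : Finset (V d)} {x : V d} {B : Finset (V d)} (h : x ∉ B) :
    cl p S x B = 0 := by
  unfold cl
  have : {ζ : Cfg d | cluster (cut ((S : Set (V d))ᶜ) ζ) x = (B : Set (V d))} = ∅ := by
    ext ζ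
    simp only [Set.mem_ofPred_eq, Set.mem_empty_iff_false, iff_false]
    intro h2
    apply h
    have h3 := mem_cluster_self (cut ((S : Set (V d))ᶜ) ζ) x
    rw [h2] at h3
    exact_mod_cast h3
  rw [this, measure_empty]

lemma cl_not_disj {p : ℝ} {S : Finset (V d)} {x : V d} {B : Finset (V d)} (hx : x ∉ S)
    (h : ¬ Disjoint B S) : cl p S x B = 0 := by
  unfold cl
  have : {ζ : Cfg d | cluster (cut ((S : Set (V d))ᶜ) ζ) x = (B : Set (V d))} = ∅ := by
    ext ζ
    simp only [Set.mem_ofPred_eq, Set.mem_empty_iff_false, iff_false]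
    intro h2
    apply h
    rw [Finset.disjoint_left]
    intro u hu huS
    have h3 : u ∈ cluster (cut ((S : Set (V d))ᶜ) ζ) x := by
      rw [h2]
      exact_mod_cast hu
    exact cut_off_mem (S := (S : Set (V d))) (by exact_mod_cast hx) h3 (by exact_mod_cast huS)
  rw [this, measure_empty]

/-- Enlarging `S` by points which are not adjacent to `B` does not change the law. -/
theorem cl_congr {p : ℝ} {S S' : Finset (V d)} {x : V d} {B : Finset (V d)} (hS : S ⊆ S')
    (hB : Disjoint B S') (hadj : ∀ b ∈ B, ∀ s : Dir d, b + step s ∈ S' → b + step s ∈ S) :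
    cl p S' x B = cl p S x B := by
  unfold cl
  congr 1
  ext ζ
  have key : ∀ u ∈ (B : Set (V d)), ∀ s : Dir d,
      cut ((S' : Set (V d))ᶜ) ζ (edge u s) = cut ((S : Set (V d))ᶜ) ζ (edge u s) := by
    intro u hu s
    have hu' : u ∈ B := by exact_mod_cast hu
    have h1 : u ∉ S' := Finset.disjoint_left.1 hB hu'
    have h2 : u ∉ S := fun h => h1 (hS h)
    apply Bool.eq_iff_iff.2
    rw [cut_edge, cut_edge]
    simp only [Set.mem_compl_iff, Finset.mem_coe]
    constructor
    · rintro ⟨h3, -, h4⟩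
      exact ⟨h3, h2, fun h => h4 (hS h)⟩
    · rintro ⟨h3, -, h4⟩
      exact ⟨h3, h1, fun h => h4 (hadj u hu' s h)⟩
  simp only [Set.mem_ofPred_eq]
  exact ⟨fun h => cluster_congr h key, fun h => cluster_congr h fun u hu s => (key u hu s).symm⟩

open Classical in
/-- extension by zero of a function of finite sets -/
noncomputable def Fc (f : Finset (V d) → ℝ≥0∞) (C : Set (V d)) : ℝ≥0∞ :=
  if h : C.Finite then f h.toFinset else 0

lemma Fc_coe (f : Finset (V d) → ℝ≥0∞) (B : Finset (V d)) : Fc f (B : Set (V d)) = f B := by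
  unfold Fc
  rw [dif_pos B.finite_toSet]
  congr 1
  ext u
  simp

open Classical in
lemma Fc_sum (f : Finset (V d) → ℝ≥0∞) (C : Set (V d)) :
    Fc f C = ∑' B : Finset (V d), (if C = (B : Set (V d)) then f B else 0) := by
  by_cases h : C.Finite
  · lift C to Finset (V d) using h
    rw [Fc_coe, tsum_eq_single C]
    · rw [if_pos rfl]
    · intro B hB
      rw [if_neg]
      intro h2
      exact hB (by exact_mod_cast h2.symm)
  · unfold Fc
    rw [dif_neg h]
    symm
    rw [ENNReal.tsum_eq_zero]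
    intro B
    rw [if_neg]
    rintro rfl
    exact h B.finite_toSet

/-- The law `cl` integrates functions of the cluster. -/
theorem lint_cl (p : ℝ) (S : Finset (V d)) (x : V d) (f : Finset (V d) → ℝ≥0∞) :
    ∫⁻ ζ, Fc f (cluster (cut ((S : Set (V d))ᶜ) ζ) x) ∂(perc d p) =
      ∑' B : Finset (V d), cl p S x B * f B := by
  classical
  simp_rw [Fc_sum]
  rw [lintegral_tsum]
  · refine tsum_congr fun B => ?_
    have h1 : ∀ ζ : Cfg d, (if cluster (cut ((S : Set (V d))ᶜ) ζ) x = (B : Set (V d)) then f B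
        else 0) = ({ζ : Cfg d | cluster (cut ((S : Set (V d))ᶜ) ζ) x = (B : Set (V d))}).indicator
          (fun _ => f B) ζ := by
      intro ζ
      rfl
    simp_rw [h1]
    rw [lintegral_indicator (meas_cl _ x _), lintegral_const, Measure.restrict_apply_univ,
      mul_comm]
    rfl
  · intro B
    refine Measurable.aemeasurable ?_
    exact Measurable.ite (meas_cl _ x _) measurable_const measurable_const

theorem sum_cl_le {p : ℝ} (h0 : 0 ≤ p) (h1 : p ≤ 1) (S : Finset (V d)) (x : V d) :
    ∑' B : Finset (V d), cl p S x B ≤ 1 := by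
  have := isProb_perc (d := d) p h0 h1
  have h := lint_cl p S x fun _ => 1
  simp only [mul_one] at h
  rw [← h]
  calc ∫⁻ ζ, Fc (fun _ => 1) (cluster (cut ((S : Set (V d))ᶜ) ζ) x) ∂(perc d p)
      ≤ ∫⁻ _, 1 ∂(perc d p) := by
        refine lintegral_mono fun ζ => ?_
        unfold Fc
        split_ifs
        · exact le_rfl
        · exact zero_le_one
    _ = 1 := by simp

open Classical in
/-- The events of the cluster are bounded by the events of the configuration. -/
theorem sum_cl_le_perc (p : ℝ) (S : Finset (V d)) (x : V d) (Q : Set (V d) → Prop)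
    (hQ : MeasurableSet {ζ : Cfg d | Q (cluster (cut ((S : Set (V d))ᶜ) ζ) x)}) :
    ∑' B : Finset (V d), cl p S x B * (if Q (B : Set (V d)) then 1 else 0) ≤
      perc d p {ζ | Q (cluster (cut ((S : Set (V d))ᶜ) ζ) x)} := by
  rw [← lint_cl p S x fun B => if Q (B : Set (V d)) then 1 else 0, ← lintegral_indicator_one hQ]
  refine lintegral_mono fun ζ => ?_
  unfold Fc
  split_ifs with h
  · simp only [Set.Finite.coe_toFinset]
    by_cases h2 : Q (cluster (cut ((S : Set (V d))ᶜ) ζ) x)
    · rw [if_pos h2, Set.indicator_of_mem (by exact h2)]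
      exact le_rfl
    · rw [if_neg h2]
      exact zero_le
  · exact zero_le

open Classical in
theorem sum_cl_mem_le (p : ℝ) (S : Finset (V d)) (x y : V d) :
    ∑' B : Finset (V d), cl p S x B * (if y ∈ B then 1 else 0) ≤ CG.off p S x y := by
  have h := sum_cl_le_perc p S x (fun C => y ∈ C) (meas_off _ x y)
  simp only [Finset.mem_coe] at h
  exact h

open Classical in
theorem sum_cl_mem2_le (p : ℝ) (S : Finset (V d)) (x y z : V d) :
    ∑' B : Finset (V d), cl p S x B * (if y ∈ B ∧ z ∈ B then 1 else 0) ≤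
      perc d p {ζ | y ∈ cluster (cut ((S : Set (V d))ᶜ) ζ) x ∧
        z ∈ cluster (cut ((S : Set (V d))ᶜ) ζ) x} := by
  have h := sum_cl_le_perc p S x (fun C => y ∈ C ∧ z ∈ C) ((meas_off _ x y).inter (meas_off _ x z))
  simp only [Finset.mem_coe] at h
  exact h

/-- If the clusters are finite almost surely then there is equality. -/
theorem sum_cl_eq (p : ℝ) (S : Finset (V d)) (x : V d) (Q : Set (V d) → Prop)
    (hfin : ∀ᵐ ζ ∂(perc d p), (cluster ζ x).Finite)
    (hQ : MeasurableSet {ζ : Cfg d | Q (cluster (cut ((S : Set (V d))ᶜ) ζ) x)})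
    [DecidablePred fun B : Finset (V d) => Q (B : Set (V d))] :
    ∑' B : Finset (V d), cl p S x B * (if Q (B : Set (V d)) then 1 else 0) =
      perc d p {ζ | Q (cluster (cut ((S : Set (V d))ᶜ) ζ) x)} := by
  classical
  rw [← lint_cl p S x fun B => if Q (B : Set (V d)) then 1 else 0, ← lintegral_indicator_one hQ]
  refine lintegral_congr_ae ?_
  filter_upwards [hfin] with ζ hζ
  have h : (cluster (cut ((S : Set (V d))ᶜ) ζ) x).Finite := hζ.subset (cluster_cut_sub _ _ _)
  simp only [Fc]
  rw [dif_pos h]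
  by_cases h2 : Q (cluster (cut ((S : Set (V d))ᶜ) ζ) x)
  · rw [if_pos (by rw [Set.Finite.coe_toFinset]; exact h2), Set.indicator_of_mem (by exact h2)]
    rfl
  · rw [if_neg (by rw [Set.Finite.coe_toFinset]; exact h2),
      Set.indicator_of_notMem (by exact h2)]

/-- If the two-point function is summable then all clusters are finite. -/
theorem fin_ae {p : ℝ} (h0 : 0 ≤ p) (h1 : p ≤ 1) (h : ∑' y : V d, tau d p y ≠ ⊤) (x : V d) :
    ∀ᵐ ζ ∂(perc d p), (cluster ζ x).Finite := by
  classical
  have hm : ∀ y : V d, Measurable (({ζ : Cfg d | y ∈ cluster ζ x}).indicator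
      (fun _ => (1 : ℝ≥0∞))) := fun y => measurable_const.indicator (meas_reach x y)
  have h2 : ∫⁻ ζ, ∑' y : V d, ({ζ : Cfg d | y ∈ cluster ζ x}).indicator (fun _ => 1) ζ
      ∂(perc d p) = ∑' y : V d, tau d p (y - x) := by
    rw [lintegral_tsum fun y => (hm y).aemeasurable]
    refine tsum_congr fun y => ?_
    have hmy : MeasurableSet {ζ : Cfg d | y ∈ cluster ζ x} := meas_reach x y
    rw [lintegral_indicator hmy]
    simp only [lintegral_const, one_mul, Measure.restrict_apply_univ]
    exact prob_cluster_mem p h0 h1 x y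
  have h3 : ∑' y : V d, tau d p (y - x) = ∑' y : V d, tau d p y :=
    (Equiv.subRight x).tsum_eq fun y => tau d p y
  have h4 := ae_lt_top (Measurable.ennreal_tsum hm) (by rw [h2, h3]; exact h)
  filter_upwards [h4] with ζ hζ
  by_contra hinf
  have h5 : ∑' y : V d, ({ζ : Cfg d | y ∈ cluster ζ x}).indicator (fun _ => (1 : ℝ≥0∞)) ζ =
      ∑' y : V d, (cluster ζ x).indicator (fun _ => (1 : ℝ≥0∞)) y := tsum_congr fun y => rfl
  have : Infinite (cluster ζ x) := Set.infinite_coe_iff.2 hinf
  rw [h5, ← tsum_subtype, ENNReal.tsum_const_eq_top_of_ne_zero one_ne_zero] at hζ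
  exact lt_irrefl _ hζ

end H5CG
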