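import Pool.Agent.H5.CG.FDef
import Pool.Agent.H95.LBD.PathB

/-!
JOB CG-Pth1 (MP_0d9ad5_pr, note 2718, flow part, owner helper5). Canonical paths.
PROOF. `pth` is `Function.argminOn` of `Encodable.encode` (injective), so it only depends on the set
`{l | isP ζ x y l}` (`pth_congr`). Existence: `(G ω).Reachable` gives a path `P` (`exists_isPath`), the list of
`pathB_walk` has `pvs = P.support`. A list with `popen ζ x l` stays in `cluster ζ x` (`adj_of_open`, induction on
`l`), so `isP` only uses the edges at the points of the cluster (`pth_loc`; use `cluster_congr` for the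
other implication). `pth_shift`: `popen (shift a ζ) x l ↔ popen ζ (x + a) l`, `pend`, `pvs` are equivariant.
`pth_meas`: `{ζ | isP ζ x y l}` is measurable (`popen_meas`), `pth ζ x y = l` iff `isP ζ x y l` and no `l'` with
smaller code is one, or `l = []` and there is none (countable intersections).
-/

namespace H5CG

open CG H5DF H95LBD MeasureTheory
open scoped ENNReal

variable {d : ℕ}

open Classical in
lemma pth_congr {ζ ζ' : Cfg d} {x y x' y' : V d} (h : ∀ l, isP ζ x y l ↔ isP ζ' x' y' l) :
    pth ζ x y = pth ζ' x' y' := by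
  have e : {l : List (Dir d) | isP ζ x y l} = {l | isP ζ' x' y' l} := by
    ext l
    exact h l
  have key : ∀ S S' : Set (List (Dir d)), S = S' →
      (if h : S.Nonempty then
        Function.argminOn (fun l : List (Dir d) => Encodable.encode l) S h else []) =
      (if h : S'.Nonempty then
        Function.argminOn (fun l : List (Dir d) => Encodable.encode l) S' h else []) := by
    rintro S _ rfl
    rfl
  exact key _ _ e

lemma pth_cases (ζ : Cfg d) (x y : V d) : isP ζ x y (pth ζ x y) ∨ pth ζ x y = [] := by
  by_cases h : {l : List (Dir d) | isP ζ x y l}.Nonempty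
  · left
    unfold pth
    rw [dif_pos h]
    exact Function.argminOn_mem (fun l : List (Dir d) => Encodable.encode l) _ h
  · right
    unfold pth
    rw [dif_neg h]

lemma pth_of_ne {ζ : Cfg d} {x y : V d} (h : {l : List (Dir d) | isP ζ x y l}.Nonempty) :
    isP ζ x y (pth ζ x y) := by
  unfold pth
  rw [dif_pos h]
  exact Function.argminOn_mem (fun l : List (Dir d) => Encodable.encode l) _ h

lemma pth_spec {ζ : Cfg d} {x y : V d} (h : y ∈ cluster ζ x) : isP ζ x y (pth ζ x y) := by
  apply pth_of_ne
  have hr : (G ζ).Reachable x y := h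
  obtain ⟨P, hP⟩ := hr.exists_isPath
  obtain ⟨l, h1, h2, h3⟩ := pathB_walk ζ P
  exact ⟨l, h1, h2, by rw [h3]; exact hP.support_nodup⟩

lemma pth_nodup (ζ : Cfg d) (x y : V d) : (pvs x (pth ζ x y)).Nodup := by
  rcases pth_cases ζ x y with h | h
  · exact h.2.2
  · rw [h]
    simp [pvs]

lemma pvs_cluster {ζ : Cfg d} {x : V d} {l : List (Dir d)} (h : popen ζ x l) {u : V d}
    (hu : u ∈ pvs x l) : u ∈ cluster ζ x := by
  induction l generalizing x with
  | nil =>
    rw [pvs, List.mem_singleton] at hu
    rw [hu]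
    exact SimpleGraph.Reachable.refl _
  | cons t l ih =>
    rw [pvs, List.mem_cons] at hu
    rcases hu with hu | hu
    · rw [hu]
      exact SimpleGraph.Reachable.refl _
    · exact SimpleGraph.Reachable.trans (adj_of_open h.1).reachable (ih h.2 hu)

lemma pth_vs {ζ : Cfg d} {x y u : V d} (hu : u ∈ pvs x (pth ζ x y)) : u ∈ cluster ζ x := by
  rcases pth_cases ζ x y with h | h
  · exact pvs_cluster h.1 hu
  · rw [h, pvs, List.mem_singleton] at hu
    rw [hu]
    exact SimpleGraph.Reachable.refl _

lemma pth1_popen {ζ ζ' : Cfg d} {x : V d} {l : List (Dir d)} (h : popen ζ x l)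
    (hc : ∀ u ∈ pvs x l, ∀ s : Dir d, ζ (edge u s) = ζ' (edge u s)) : popen ζ' x l := by
  induction l generalizing x with
  | nil => trivial
  | cons t l ih =>
    refine ⟨?_, ih h.2 fun u hu s => hc u (by rw [pvs]; exact List.mem_cons_of_mem _ hu) s⟩
    rw [← hc x (by rw [pvs]; exact List.mem_cons_self) t]
    exact h.1

lemma pth_loc {ζ ζ' : Cfg d} {x : V d}
    (h : ∀ u ∈ cluster ζ x, ∀ s : Dir d, ζ (edge u s) = ζ' (edge u s)) (y : V d) :
    pth ζ x y = pth ζ' x y := by
  have hcl : cluster ζ' x = cluster ζ x := cluster_congr rfl h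
  apply pth_congr
  intro l
  constructor
  · rintro ⟨h1, h2, h3⟩
    exact ⟨pth1_popen h1 fun u hu s => h u (pvs_cluster h1 hu) s, h2, h3⟩
  · rintro ⟨h1, h2, h3⟩
    refine ⟨pth1_popen h1 fun u hu s => (h u ?_ s).symm, h2, h3⟩
    rw [← hcl]
    exact pvs_cluster h1 hu

lemma pth1_pend (a x : V d) (l : List (Dir d)) : pend (x + a) l = pend x l + a := by
  induction l generalizing x with
  | nil => rfl
  | cons t l ih =>
    rw [pend, pend, ← ih, add_right_comm]

lemma pth1_pvs (a x : V d) (l : List (Dir d)) :
    pvs (x + a) l = (pvs x l).map (fun u => u + a) := by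
  induction l generalizing x with
  | nil => rfl
  | cons t l ih =>
    rw [pvs, pvs, List.map_cons, ← ih, add_right_comm]

lemma pth1_shift_popen (a : V d) (ζ : Cfg d) (x : V d) (l : List (Dir d)) :
    popen (shift a ζ) x l ↔ popen ζ (x + a) l := by
  induction l generalizing x with
  | nil => exact Iff.rfl
  | cons t l ih =>
    rw [popen, popen, ih, edge_shift, add_right_comm]

lemma pth_shift (a : V d) (ζ : Cfg d) (x y : V d) :
    pth (shift a ζ) x y = pth ζ (x + a) (y + a) := by
  apply pth_congr
  intro l
  unfold isP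
  rw [pth1_shift_popen, pth1_pend, pth1_pvs, add_left_inj,
    List.nodup_map_iff (add_left_injective a)]

lemma pth1_isP_meas (x y : V d) (l : List (Dir d)) : MeasurableSet {ζ : Cfg d | isP ζ x y l} := by
  by_cases h : pend x l = y ∧ (pvs x l).Nodup
  · have e : {ζ : Cfg d | isP ζ x y l} = {ζ | popen ζ x l} := by
      ext ζ
      exact ⟨fun h2 => h2.1, fun h2 => ⟨h2, h⟩⟩
    rw [e]
    exact popen_meas x l
  · have e : {ζ : Cfg d | isP ζ x y l} = ∅ := by
      ext ζ
      simp only [Set.mem_ofPred_eq, Set.mem_empty_iff_false, iff_false]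
      exact fun h2 => h h2.2
    rw [e]
    exact MeasurableSet.empty

lemma pth1_iff (ζ : Cfg d) (x y : V d) (l : List (Dir d)) :
    pth ζ x y = l ↔ ((isP ζ x y l ∧ ∀ l', Encodable.encode l' < Encodable.encode l →
      ¬ isP ζ x y l') ∨ (l = [] ∧ ∀ l', ¬ isP ζ x y l')) := by
  constructor
  · rintro rfl
    by_cases h : {l : List (Dir d) | isP ζ x y l}.Nonempty
    · left
      refine ⟨pth_of_ne h, fun l' hl' h2 => ?_⟩
      have h3 : pth ζ x y = Function.argminOn (fun l : List (Dir d) => Encodable.encode l)
          {l | isP ζ x y l} h := by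
        unfold pth
        rw [dif_pos h]
      rw [h3] at hl'
      exact Function.not_lt_argminOn (fun l : List (Dir d) => Encodable.encode l)
        {l | isP ζ x y l} h2 hl'
    · right
      refine ⟨?_, fun l' h2 => h ⟨l', h2⟩⟩
      unfold pth
      rw [dif_neg h]
  · rintro (⟨h1, h2⟩ | ⟨rfl, h2⟩)
    · have h : {l : List (Dir d) | isP ζ x y l}.Nonempty := ⟨l, h1⟩
      have h3 : pth ζ x y = Function.argminOn (fun l : List (Dir d) => Encodable.encode l)
          {l | isP ζ x y l} h := by
        unfold pth
        rw [dif_pos h]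
      have h4 : ¬ Encodable.encode l < Encodable.encode (pth ζ x y) := by
        rw [h3]
        exact Function.not_lt_argminOn (fun l : List (Dir d) => Encodable.encode l)
          {l | isP ζ x y l} h1
      have h5 : ¬ Encodable.encode (pth ζ x y) < Encodable.encode l := fun h6 =>
        h2 _ h6 (pth_of_ne h)
      exact Encodable.encode_injective (by omega)
    · rcases pth_cases ζ x y with h | h
      · exact absurd h (h2 _)
      · exact h

lemma pth_meas (x y : V d) (l : List (Dir d)) : MeasurableSet {ζ : Cfg d | pth ζ x y = l} := by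
  have e : {ζ : Cfg d | pth ζ x y = l} =
      ({ζ | isP ζ x y l} ∩ ⋂ l' : List (Dir d), ⋂ _ : Encodable.encode l' < Encodable.encode l,
        {ζ | isP ζ x y l'}ᶜ) ∪ ({_ζ : Cfg d | l = []} ∩ ⋂ l' : List (Dir d), {ζ | isP ζ x y l'}ᶜ) := by
    ext ζ
    simp only [Set.mem_union, Set.mem_inter_iff, Set.mem_iInter, Set.mem_compl_iff,
      Set.mem_ofPred_eq]
    exact pth1_iff ζ x y l
  rw [e]
  refine ((pth1_isP_meas x y l).inter (MeasurableSet.iInter fun l' =>
    MeasurableSet.iInter fun _ => (pth1_isP_meas x y l').compl)).union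
    ((MeasurableSet.const _).inter (MeasurableSet.iInter fun l' => (pth1_isP_meas x y l').compl))

/-- any function of the path is measurable -/
lemma pth_meas_fun {β : Type*} [MeasurableSpace β] (x y : V d) (f : List (Dir d) → β) :
    Measurable fun ζ : Cfg d => f (pth ζ x y) := by
  intro S _
  have e : (fun ζ : Cfg d => f (pth ζ x y)) ⁻¹' S =
      ⋃ l : List (Dir d), ⋃ _ : f l ∈ S, {ζ | pth ζ x y = l} := by
    ext ζ
    simp only [Set.mem_preimage, Set.mem_iUnion, Set.mem_ofPred_eq]
    constructor
    · intro h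
      exact ⟨_, h, rfl⟩
    · rintro ⟨l, h, rfl⟩
      exact h
  rw [e]
  exact MeasurableSet.iUnion fun l => MeasurableSet.iUnion fun _ => pth_meas x y l

end H5CG
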