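import Pool.Agent.H5.CG.OccA
import Pool.Agent.H5.CG.Pth1
import Pool.Agent.H5.CG.Flw
import Pool.Agent.H70.CG.Reg

/-!
JOB CG-Com (MP_0d9ad5_pr, note 2718, section 4 (B3), flow part, owner helper5). Common edges of two chains.
PROOF. Let `X ∈ Occ c ∩ Occ c'`. (1) For `A` a cluster of `lo X` (`A = cluster (lo X) a0`) and an edge
`(y, y + step s)` with `y ∈ A` or `y + step s ∈ A`: `|flw P n c' X y s| ≤ 4 * hit P A n c'` (induction on `n`, with the
stronger statement `|flw ..| + 2 * [x'_n ∈ A] ≤ 4 * hit`). The `j`-th part of `c'` (path in its cluster `A'_j`, then the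
linking edge): `|crs| ≤ 2` (`crs_le`, `pth_nodup`, one more edge), and if it is not `0` then the edge is an edge of the
path (both ends in `A'_j`, `crs_supp`, so `A ∩ A'_j` is not empty, so `A = A'_j`, so `x'_j ∈ A`) or the linking edge
`{y'_(j+1), x'_(j+1)}`: then `y'_(j+1) ∈ A` (so again `x'_j ∈ A`) or `x'_(j+1) ∈ A`.
(2) `∑ s, ∑' y, ofReal |crs y s x l| ≤ 2 * l.length` (induction on `l`).
(3) The crossings of the `k`-th part of `c` are at edges which touch `A_k` (all steps of the path and the linking edge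
start in `A_k`), so by (1), (2) `∑ s, ∑' y, |k-th part| * |flw P n c' X y s| ≤ 4 hit (A_k) * 2 (len_k + 1)`.
Sum over `k` (induction on the length of `c`, the length `n` of `c'` fixed: state the lemma for `c : Ch d m`,
`c' : Ch d n`).
-/

namespace H5CG

open CG H5DF H95LBD MeasureTheory
open scoped ENNReal

variable {d : ℕ}

lemma Com_ofReal_add (a b : ℝ) :
    ENNReal.ofReal |a + b| ≤ ENNReal.ofReal |a| + ENNReal.ofReal |b| := by
  rw [← ENNReal.ofReal_add (abs_nonneg a) (abs_nonneg b)]
  exact ENNReal.ofReal_le_ofReal (abs_add_le a b)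

lemma Com_one {a : ℝ} (h : |a| ≤ 1) : ENNReal.ofReal |a| ≤ 1 := by
  rw [← ENNReal.ofReal_one]
  exact ENNReal.ofReal_le_ofReal h

/-- Two clusters with a common point. -/
lemma Com_cluster {ζ : Cfg d} {A : Finset (V d)} {a0 x u : V d}
    (hA : (A : Set (V d)) = cluster ζ a0) (hu : u ∈ A) (hx : u ∈ cluster ζ x) : x ∈ A := by
  have h1 : u ∈ cluster ζ a0 := by
    rw [← hA]
    exact_mod_cast hu
  have h2 : x ∈ cluster ζ a0 := by
    rw [← cluster_eq_of_mem h1, cluster_eq_of_mem hx]
    exact SimpleGraph.Reachable.refl _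
  rw [← hA] at h2
  exact_mod_cast h2

open Classical in
/-- One part of a chain at an edge which touches the cluster `A`. -/
lemma Com_part {ζ : Cfg d} {A : Finset (V d)} {a0 : V d} (hA : (A : Set (V d)) = cluster ζ a0)
    {y : V d} {s : Dir d} (hy : y ∈ A ∨ y + step s ∈ A) {x y' : V d} {l : List (Dir d)}
    (hl : isP ζ x y' l) (t : Dir d) :
    ENNReal.ofReal |crs y s x (l ++ [t])| ≤
      2 * (if x ∈ A then 1 else 0) + 2 * (if y' + step t ∈ A then 1 else 0) := by
  obtain ⟨hl1, hl2, hl3⟩ := hl
  have hy' : y' ∈ cluster ζ x := by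
    rw [← hl2]
    exact pvs_cluster hl1 (pend_mem_pvs x l)
  rw [flw_crs_append, hl2]
  refine (Com_ofReal_add _ _).trans ?_
  have h1 : ENNReal.ofReal |crs y s x l| ≤ (if x ∈ A then 1 else 0) := by
    by_cases hc : crs y s x l = 0
    · rw [hc, abs_zero, ENNReal.ofReal_zero]
      exact zero_le
    · obtain ⟨h2, h3, -, -⟩ := crs_supp ζ y s x l hl1 hc
      have hx : x ∈ A := by
        rcases hy with hy | hy
        · exact Com_cluster hA hy (pvs_cluster hl1 h2)
        · exact Com_cluster hA hy (pvs_cluster hl1 h3)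
      rw [if_pos hx]
      exact Com_one (crs_le y s x l hl3)
  have h2 : ENNReal.ofReal |crs y s y' [t]| ≤
      (if x ∈ A then 1 else 0) + (if y' + step t ∈ A then 1 else 0) := by
    by_cases hc : crs y s y' [t] = 0
    · rw [hc, abs_zero, ENNReal.ofReal_zero]
      exact zero_le
    · have h4 := Com_one (flw_crs_one_le y s y' t)
      have h5 : y' ∈ A ∨ y' + step t ∈ A := by
        rcases flw_crs_one_ne hc with ⟨e1, e2⟩ | ⟨e1, e2⟩
        · rw [e1, e2]
          exact hy
        · have e3 : y' + step t = y := by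
            rw [e1, e2, step_opp]
            abel
          rw [e3, e1]
          exact hy.symm
      rcases h5 with h5 | h5
      · have hx : x ∈ A := Com_cluster hA h5 hy'
        rw [if_pos hx]
        exact h4.trans le_self_add
      · rw [if_pos h5]
        exact h4.trans le_add_self
  calc ENNReal.ofReal |crs y s x l| + ENNReal.ofReal |crs y s y' [t]| ≤
      (if x ∈ A then 1 else 0) + ((if x ∈ A then 1 else 0) +
        (if y' + step t ∈ A then 1 else 0)) := add_le_add h1 h2
    _ ≤ (if x ∈ A then 1 else 0) + ((if x ∈ A then 1 else 0) +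
        2 * (if y' + step t ∈ A then 1 else 0)) := by
        gcongr
        rw [two_mul]
        exact le_self_add
    _ = _ := by ring

open Classical in
lemma Com_hit {P : Par d} {n : ℕ} {c : Ch d n} (hw : wgt P n c ≠ 0) {X : Env d}
    (hX : X ∈ Occ P n c) {A : Finset (V d)} {a0 : V d}
    (hA : (A : Set (V d)) = cluster (lo X) a0) {y : V d} {s : Dir d}
    (hy : y ∈ A ∨ y + step s ∈ A) :
    ENNReal.ofReal |flw P n c X y s| + 2 * (if (stt P n c).x ∈ A then 1 else 0) ≤
      4 * hit P A n c := by
  induction n with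
  | zero =>
    have h1 : flw P 0 c X y s = 0 := rfl
    have h2 : hit P A 0 c = if (stt P 0 c).x ∈ A then 1 else 0 := by
      unfold hit
      rfl
    rw [h1, h2, abs_zero, ENNReal.ofReal_zero, zero_add]
    gcongr
    norm_num
  | succ n ih =>
    obtain ⟨h1, h2, h3, -, -, -, -⟩ := flw_last hX hw
    have e1 : flw P (n + 1) c X y s = flw P n c.1 X y s +
      crs y s (stt P n c.1).x (pth (lo X) (stt P n c.1).x c.2.2.2.1 ++ [c.2.2.2.2]) := rfl
    have e2 : hit P A (n + 1) c = hit P A n c.1 +
      if (stt P (n + 1) c).x ∈ A then 1 else 0 := by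
      rw [hit]
    have e3 : (stt P (n + 1) c).x = c.2.2.2.1 + step c.2.2.2.2 := rfl
    have h4 := Com_part hA hy h3 c.2.2.2.2
    have h5 := ih h2 h1
    rw [e1, e2, e3]
    calc ENNReal.ofReal |flw P n c.1 X y s +
        crs y s (stt P n c.1).x (pth (lo X) (stt P n c.1).x c.2.2.2.1 ++ [c.2.2.2.2])| +
          2 * (if c.2.2.2.1 + step c.2.2.2.2 ∈ A then 1 else 0) ≤
        (ENNReal.ofReal |flw P n c.1 X y s| + (2 * (if (stt P n c.1).x ∈ A then 1 else 0) +
          2 * (if c.2.2.2.1 + step c.2.2.2.2 ∈ A then 1 else 0))) +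
          2 * (if c.2.2.2.1 + step c.2.2.2.2 ∈ A then 1 else 0) := by
          gcongr
          exact (Com_ofReal_add _ _).trans (add_le_add le_rfl h4)
      _ = (ENNReal.ofReal |flw P n c.1 X y s| + 2 * (if (stt P n c.1).x ∈ A then 1 else 0)) +
          4 * (if c.2.2.2.1 + step c.2.2.2.2 ∈ A then 1 else 0) := by ring
      _ ≤ 4 * hit P A n c.1 + 4 * (if c.2.2.2.1 + step c.2.2.2.2 ∈ A then 1 else 0) := by
          gcongr
      _ = _ := by ring

/-- the total number of crossings -/
lemma Com_sum (x : V d) (l : List (Dir d)) :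
    ∑ s : Dir d, ∑' y : V d, ENNReal.ofReal |crs y s x l| ≤ 2 * (l.length : ℝ≥0∞) := by
  classical
  induction l generalizing x with
  | nil =>
    have h : ∀ (s : Dir d) (y : V d), ENNReal.ofReal |crs y s x []| = 0 := by
      intro s y
      rw [crs, abs_zero, ENNReal.ofReal_zero]
    simp only [h, tsum_zero, Finset.sum_const_zero]
    exact zero_le
  | cons t l ih =>
    have h1 : ∀ (s : Dir d) (y : V d), ENNReal.ofReal |crs y s x (t :: l)| ≤
        ((if x = y ∧ t = s then 1 else 0) + (if x = y + step s ∧ t = opp s then 1 else 0)) +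
          ENNReal.ofReal |crs y s (x + step t) l| := by
      intro s y
      rw [crs]
      refine (Com_ofReal_add _ _).trans (add_le_add ?_ le_rfl)
      split_ifs <;> simp
    have h2 : ∑ s : Dir d, ∑' y : V d, (if x = y ∧ t = s then (1 : ℝ≥0∞) else 0) ≤ 1 := by
      rw [Finset.sum_eq_single t]
      · rw [tsum_eq_single x]
        · simp
        · intro y hy
          rw [if_neg]
          exact fun h => hy h.1.symm
      · intro s _ hs
        rw [ENNReal.tsum_eq_zero]
        intro y
        rw [if_neg]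
        exact fun h => hs h.2.symm
      · intro h
        exact absurd (Finset.mem_univ _) h
    have h3 : ∑ s : Dir d, ∑' y : V d,
        (if x = y + step s ∧ t = opp s then (1 : ℝ≥0∞) else 0) ≤ 1 := by
      rw [Finset.sum_eq_single (opp t)]
      · rw [tsum_eq_single (x + step t)]
        · split_ifs <;> simp
        · intro y hy
          rw [if_neg]
          rintro ⟨h, -⟩
          apply hy
          rw [h, step_opp]
          abel
      · intro s _ hs
        rw [ENNReal.tsum_eq_zero]
        intro y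
        rw [if_neg]
        rintro ⟨-, h⟩
        apply hs
        rw [h, OccA_opp_opp]
      · intro h
        exact absurd (Finset.mem_univ _) h
    calc ∑ s : Dir d, ∑' y : V d, ENNReal.ofReal |crs y s x (t :: l)| ≤
        ∑ s : Dir d, ∑' y : V d,
          (((if x = y ∧ t = s then 1 else 0) + (if x = y + step s ∧ t = opp s then 1 else 0)) +
          ENNReal.ofReal |crs y s (x + step t) l|) :=
          Finset.sum_le_sum fun s _ => ENNReal.tsum_le_tsum fun y => h1 s y
      _ = (∑ s : Dir d, ∑' y : V d, (if x = y ∧ t = s then (1 : ℝ≥0∞) else 0) +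
          ∑ s : Dir d, ∑' y : V d,
            (if x = y + step s ∧ t = opp s then (1 : ℝ≥0∞) else 0)) +
          ∑ s : Dir d, ∑' y : V d, ENNReal.ofReal |crs y s (x + step t) l| := by
          rw [← Finset.sum_add_distrib, ← Finset.sum_add_distrib]
          refine Finset.sum_congr rfl fun s _ => ?_
          rw [ENNReal.tsum_add, ENNReal.tsum_add]
      _ ≤ (1 + 1) + 2 * (l.length : ℝ≥0∞) := add_le_add (add_le_add h2 h3) (ih _)
      _ = 2 * ((t :: l).length : ℝ≥0∞) := by
          rw [List.length_cons]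
          push_cast
          ring

lemma Com_mul {x : V d} {l : List (Dir d)} {g : V d → Dir d → ℝ≥0∞} {K : ℝ≥0∞}
    (h : ∀ y s, crs y s x l ≠ 0 → g y s ≤ K) :
    ∑ s : Dir d, ∑' y : V d, ENNReal.ofReal |crs y s x l| * g y s ≤
      2 * (l.length : ℝ≥0∞) * K := by
  calc ∑ s : Dir d, ∑' y : V d, ENNReal.ofReal |crs y s x l| * g y s ≤
      ∑ s : Dir d, ∑' y : V d, ENNReal.ofReal |crs y s x l| * K := by
        refine Finset.sum_le_sum fun s _ => ENNReal.tsum_le_tsum fun y => ?_
        by_cases hc : crs y s x l = 0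
        · rw [hc, abs_zero, ENNReal.ofReal_zero, zero_mul, zero_mul]
        · exact mul_le_mul' le_rfl (h y s hc)
    _ = (∑ s : Dir d, ∑' y : V d, ENNReal.ofReal |crs y s x l|) * K := by
        rw [Finset.sum_mul]
        exact Finset.sum_congr rfl fun s _ => ENNReal.tsum_mul_right
    _ ≤ _ := mul_le_mul' (Com_sum x l) le_rfl

theorem com_edges {P : Par d} {m n : ℕ} {c : Ch d m} {c' : Ch d n} (hw : wgt P m c ≠ 0)
    (hw' : wgt P n c' ≠ 0) {X : Env d} (hX : X ∈ Occ P m c) (hX' : X ∈ Occ P n c') :
    ∑ s : Dir d, ∑' y : V d,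
        ENNReal.ofReal |flw P m c X y s| * ENNReal.ofReal |flw P n c' X y s| ≤
      8 * LS P (fun A => hit P A n c') m c X := by
  induction m with
  | zero =>
    have h : ∀ (s : Dir d) (y : V d), ENNReal.ofReal |flw P 0 c X y s| = 0 := by
      intro s y
      have h1 : flw P 0 c X y s = 0 := rfl
      rw [h1, abs_zero, ENNReal.ofReal_zero]
    simp only [h, zero_mul, tsum_zero, Finset.sum_const_zero]
    exact zero_le
  | succ m ih =>
    obtain ⟨h1, h2, h3, -, -, -, h4⟩ := flw_last hX hw
    have h5 : cluster (lo X) (stt P m c.1).x = (c.2.2.1 : Set (V d)) := hX.2.1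
    have hg : ∀ y s, crs y s (stt P m c.1).x
        (pth (lo X) (stt P m c.1).x c.2.2.2.1 ++ [c.2.2.2.2]) ≠ 0 →
        ENNReal.ofReal |flw P n c' X y s| ≤ 4 * hit P c.2.2.1 n c' := by
      intro y s hc
      have hy : y ∈ c.2.2.1 ∨ y + step s ∈ c.2.2.1 := by
        rw [flw_crs_append, h3.2.1] at hc
        by_cases c2 : crs y s (stt P m c.1).x (pth (lo X) (stt P m c.1).x c.2.2.2.1) = 0
        · rw [c2, zero_add] at hc
          rcases flw_crs_one_ne hc with ⟨h6, -⟩ | ⟨h6, -⟩
          · left
            rw [← h6]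
            exact h4.2.2.1
          · right
            rw [← h6]
            exact h4.2.2.1
        · left
          have h6 : y ∈ cluster (lo X) (stt P m c.1).x := pvs_cluster h3.1 (flw_crs_mem c2)
          rw [h5] at h6
          exact_mod_cast h6
      exact le_trans le_self_add (Com_hit hw' hX' h5.symm hy)
    have e1 : ∀ y s, flw P (m + 1) c X y s = flw P m c.1 X y s +
      crs y s (stt P m c.1).x (pth (lo X) (stt P m c.1).x c.2.2.2.1 ++ [c.2.2.2.2]) :=
      fun _ _ => rfl
    have e2 : LS P (fun A => hit P A n c') (m + 1) c X = LS P (fun A => hit P A n c') m c.1 X +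
      (((pth (lo X) (stt P m c.1).x c.2.2.2.1).length : ℝ≥0∞) + 1) * hit P c.2.2.1 n c' := rfl
    have h6 := Com_mul hg
    calc ∑ s : Dir d, ∑' y : V d,
        ENNReal.ofReal |flw P (m + 1) c X y s| * ENNReal.ofReal |flw P n c' X y s| ≤
        ∑ s : Dir d, ∑' y : V d,
          (ENNReal.ofReal |flw P m c.1 X y s| * ENNReal.ofReal |flw P n c' X y s| +
          ENNReal.ofReal |crs y s (stt P m c.1).x
            (pth (lo X) (stt P m c.1).x c.2.2.2.1 ++ [c.2.2.2.2])| *
            ENNReal.ofReal |flw P n c' X y s|) := by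
          refine Finset.sum_le_sum fun s _ => ENNReal.tsum_le_tsum fun y => ?_
          rw [← add_mul, e1]
          exact mul_le_mul' (Com_ofReal_add _ _) le_rfl
      _ = (∑ s : Dir d, ∑' y : V d,
          ENNReal.ofReal |flw P m c.1 X y s| * ENNReal.ofReal |flw P n c' X y s|) +
          ∑ s : Dir d, ∑' y : V d, ENNReal.ofReal |crs y s (stt P m c.1).x
            (pth (lo X) (stt P m c.1).x c.2.2.2.1 ++ [c.2.2.2.2])| *
            ENNReal.ofReal |flw P n c' X y s| := by
          rw [← Finset.sum_add_distrib]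
          exact Finset.sum_congr rfl fun s _ => ENNReal.tsum_add
      _ ≤ 8 * LS P (fun A => hit P A n c') m c.1 X +
          2 * ((pth (lo X) (stt P m c.1).x c.2.2.2.1 ++ [c.2.2.2.2]).length : ℝ≥0∞) *
            (4 * hit P c.2.2.1 n c') := add_le_add (ih h2 h1) h6
      _ = 8 * LS P (fun A => hit P A n c') (m + 1) c X := by
          rw [e2, List.length_append, List.length_singleton]
          push_cast
          ring

end H5CG
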