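import Pool.Agent.H5.CG.FDef
import Pool.Agent.H5.CG.Ind

/-!
JOB CG-StepL (MP_0d9ad5_pr, note 2718, flow part, owner helper5). One step of the exploration.
PROOF. `{X | cut Sᶜ (lo X) ∈ A}` is `lo ⁻¹' (cut Sᶜ ⁻¹' A)`; it only depends on the lower marks of the edges which do
not touch `S` (`cut Sᶜ ζ e = false` if `e ∈ touch S`), i.e. `Dep (touch S)ᶜ ∅`. Use `indE` (Ind.lean) twice:
`E ∩ {(X b).2 = true}` with `E` (`Dep ∅ {b}` for the second event), then with `{cut Sᶜ (lo X) ∈ A}`; `env_lo`,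
`env_up`, `meas_up`, `measurable_cut`.
-/

namespace H5CG

open CG H5DF H95LBD MeasureTheory
open scoped ENNReal

variable {d : ℕ}

lemma dep_cut (S : Set (V d)) (A : Set (Cfg d)) :
    Dep (touch S)ᶜ ∅ {X : Env d | cut Sᶜ (lo X) ∈ A} := by
  classical
  intro X X' h1 _ hX
  have h2 : cut Sᶜ (lo X') = cut Sᶜ (lo X) := by
    funext e
    by_cases he : e ∈ touch S
    · have h3 : ¬ (e.1 ∈ Sᶜ ∧ e.1 + Pi.single e.2 1 ∈ Sᶜ) := by
        rintro ⟨h4, h5⟩
        rcases he with he | he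
        · exact h4 he
        · exact h5 he
      have h4 : ∀ ω : Cfg d, cut Sᶜ ω e = false := by
        intro ω
        rw [Bool.eq_false_iff]
        intro h
        exact h3 (cut_true.1 h).2
      rw [h4, h4]
    · have h3 : lo X e = lo X' e := h1 e he
      unfold cut
      rw [h3]
  have h3 : cut Sᶜ (lo X) ∈ A := hX
  rw [← h2] at h3
  exact h3

lemma StepL_meas (S : Set (V d)) {A : Set (Cfg d)} (hA : MeasurableSet A) :
    MeasurableSet {X : Env d | cut Sᶜ (lo X) ∈ A} :=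
  ((measurable_cut Sᶜ).comp measurable_lo) hA

lemma StepL_up (b : Ed d) : Dep ∅ {b} {X : Env d | (X b).2 = true} := by
  intro X X' _ h2 hX
  have h3 : (X b).2 = (X' b).2 := h2 b rfl
  have h4 : (X b).2 = true := hX
  exact h3.symm.trans h4

theorem one_step {p s : ℝ} (h0 : 0 ≤ p) (h1 : p ≤ 1) (hs0 : 0 ≤ s) (hs1 : s ≤ 1)
    {E : Set (Env d)} (hEm : MeasurableSet E) {S : Set (V d)} {K : Set (Ed d)}
    (hE : Dep (touch S) K E) {A : Set (Cfg d)} (hA : MeasurableSet A) :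
    envM d p s (E ∩ {X | cut Sᶜ (lo X) ∈ A}) = envM d p s E * perc d p {ζ | cut Sᶜ ζ ∈ A} := by
  have h2 : envM d p s {X | cut Sᶜ (lo X) ∈ A} = perc d p {ζ | cut Sᶜ ζ ∈ A} :=
    env_lo h0 h1 hs0 hs1 ((measurable_cut Sᶜ) hA)
  rw [← h2]
  exact indE h0 h1 hs0 hs1 hEm (StepL_meas S hA) hE (dep_cut S A) disjoint_compl_right
    (Set.disjoint_empty K)

theorem one_step' {p s : ℝ} (h0 : 0 ≤ p) (h1 : p ≤ 1) (hs0 : 0 ≤ s) (hs1 : s ≤ 1)
    {E : Set (Env d)} (hEm : MeasurableSet E) {S : Set (V d)} {K : Set (Ed d)}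
    (hE : Dep (touch S) K E) {A : Set (Cfg d)} (hA : MeasurableSet A) {b : Ed d} (hb : b ∉ K) :
    envM d p s (E ∩ {X | cut Sᶜ (lo X) ∈ A} ∩ {X | (X b).2 = true}) =
      envM d p s E * perc d p {ζ | cut Sᶜ ζ ∈ A} * ENNReal.ofReal s := by
  have hd : Dep Set.univ K (E ∩ {X | cut Sᶜ (lo X) ∈ A}) :=
    (hE.mono (Set.subset_univ _) (le_refl K)).inter
      ((dep_cut S A).mono (Set.subset_univ _) (Set.empty_subset K))
  rw [indE h0 h1 hs0 hs1 (hEm.inter (StepL_meas S hA)) (meas_up b) hd (StepL_up b)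
    (Set.disjoint_empty _) (Set.disjoint_singleton_right.2 hb), one_step h0 h1 hs0 hs1 hEm hE hA,
    env_up h0 h1 hs0 hs1]

/-- only the linking edge -/
theorem one_up {p s : ℝ} (h0 : 0 ≤ p) (h1 : p ≤ 1) (hs0 : 0 ≤ s) (hs1 : s ≤ 1)
    {E : Set (Env d)} (hEm : MeasurableSet E) {F K : Set (Ed d)}
    (hE : Dep F K E) {b : Ed d} (hb : b ∉ K) :
    envM d p s (E ∩ {X | (X b).2 = true}) = envM d p s E * ENNReal.ofReal s := by
  rw [indE h0 h1 hs0 hs1 hEm (meas_up b) hE (StepL_up b) (Set.disjoint_empty _)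
    (Set.disjoint_singleton_right.2 hb), env_up h0 h1 hs0 hs1]

end H5CG
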