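import Pool.Agent.H5.CG.Sft1
import Pool.Agent.H5.CG.Pth1

/-!
JOB CG-Sft2 (MP_0d9ad5_pr, note 2718, flow part, owner helper5). Translations of chains, mass transport.
PROOF. `stt_sh`, `wgt_sh`, `Occ_sh`, `flw_sh`: induction on `n` with Sft1.lean (`nrm_sh`, `gx_sh`), `lo_shE`, the cluster
of a shifted configuration (`cluster (shift a ζ) x = {w | w + a ∈ cluster ζ (x + a)}`), `pth_shift`, and
`crs (y + a) s (x + a) l = crs y s x l`. `tsum_sh`: the chains are in bijection with the pairs (chain with start `0`,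
translation): `∑' c, F c = ∑' c, ∑' a, [a = sta c] F c`, `ENNReal.tsum_comm`, substitute `c = shC a c'`
(`shC a` is a bijection of `Ch d n`, inverse `shC (-a)`) and `sta (shC a c') = sta c' + a`.
`mass_tr`: `tsum_sh` for the first chain, then substitute `c' = shC a c''` for the second, `ENNReal.tsum_comm`,
`a = -y`.
-/

namespace H5CG

open CG H5DF H95LBD MeasureTheory
open scoped ENNReal

variable {d : ℕ}

lemma Sft2_shA_zero (A : Finset (V d)) : shA 0 A = A := by
  ext w
  rw [mem_shA, sub_zero]

lemma Sft2_shA_shA (a b : V d) (A : Finset (V d)) : shA a (shA b A) = shA (b + a) A := by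
  ext w
  rw [mem_shA, mem_shA, mem_shA]
  have h : w - a - b = w - (b + a) := by abel
  rw [h]

lemma Sft2_shQ_zero (q : Stp d) : shQ 0 q = q := by
  obtain ⟨v, B, y, s⟩ := q
  show (v, shA 0 B, y + 0, s) = (v, B, y, s)
  rw [Sft2_shA_zero, add_zero]

lemma Sft2_shQ_shQ (a b : V d) (q : Stp d) : shQ a (shQ b q) = shQ (b + a) q := by
  obtain ⟨v, B, y, s⟩ := q
  show (v, shA a (shA b B), y + b + a, s) = (v, shA (b + a) B, y + (b + a), s)
  rw [Sft2_shA_shA, add_assoc]

lemma shC_zero (n : ℕ) (c : Ch d n) : shC 0 n c = c := by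
  induction n with
  | zero => exact add_zero (M := V d) c
  | succ n ih =>
    obtain ⟨c, q⟩ := c
    show (shC 0 n c, shQ 0 q) = (c, q)
    rw [ih, Sft2_shQ_zero]

lemma shC_shC (a b : V d) (n : ℕ) (c : Ch d n) : shC a n (shC b n c) = shC (b + a) n c := by
  induction n with
  | zero => exact add_assoc (G := V d) c b a
  | succ n ih =>
    obtain ⟨c, q⟩ := c
    show (shC a n (shC b n c), shQ a (shQ b q)) = (shC (b + a) n c, shQ (b + a) q)
    rw [ih, Sft2_shQ_shQ]

lemma sta_sh (a : V d) (n : ℕ) (c : Ch d n) : sta n (shC a n c) = sta n c + a := by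
  induction n with
  | zero => rfl
  | succ n ih =>
    obtain ⟨c, q⟩ := c
    exact ih c

lemma Sft2_nxt (P : Par d) (a : V d) (st : St d) (q : Stp d) :
    nxt P (shS a st) (shQ a q) = shS a (nxt P st q) := by
  obtain ⟨v, B, y, s⟩ := q
  obtain ⟨z, x, H⟩ := st
  show (⟨z + a + (P.L : ℤ) • v, y + a + step s, ⟨z + a, x + a, shA a B, y + a⟩ ::
    H.map (shEn a)⟩ : St d) = ⟨z + (P.L : ℤ) • v + a, y + step s + a,
    ⟨z + a, x + a, shA a B, y + a⟩ :: H.map (shEn a)⟩
  rw [add_right_comm z a, add_right_comm y a]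

lemma stt_sh (P : Par d) (a : V d) (n : ℕ) (c : Ch d n) :
    stt P n (shC a n c) = shS a (stt P n c) := by
  induction n with
  | zero => rfl
  | succ n ih =>
    obtain ⟨c, q⟩ := c
    show nxt P (stt P n (shC a n c)) (shQ a q) = shS a (nxt P (stt P n c) q)
    rw [ih, Sft2_nxt]

lemma wgt_sh {P : Par d} (h0 : 0 ≤ P.p) (h1 : P.p ≤ 1) (a : V d) (n : ℕ) (c : Ch d n) :
    wgt P n (shC a n c) = wgt P n c := by
  classical
  induction n with
  | zero => rfl
  | succ n ih =>
    obtain ⟨c, v, B, y, s⟩ := c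
    have e1 : gx P (stt P n (shC a n c)) v (shA a B) (y + a) s ↔ gx P (stt P n c) v B y s := by
      rw [stt_sh]
      exact gx_sh P (stt P n c) v B y s a
    have e2 : nrm P (stt P n (shC a n c)) v = nrm P (stt P n c) v := by
      rw [stt_sh]
      exact nrm_sh h0 h1 (stt P n c) v a
    have e3 : wgt P n (shC a n c) = wgt P n c := ih c
    have l1 : wgt P (n + 1) (shC a (n + 1) (c, v, B, y, s)) = wgt P n (shC a n c) *
      (if gx P (stt P n (shC a n c)) v (shA a B) (y + a) s then
        nrm P (stt P n (shC a n c)) v else 0) := rfl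
    have l2 : wgt P (n + 1) ((c, v, B, y, s) : Ch d (n + 1)) = wgt P n c *
      (if gx P (stt P n c) v B y s then nrm P (stt P n c) v else 0) := rfl
    rw [l1, l2, e3]
    by_cases hg : gx P (stt P n c) v B y s
    · rw [if_pos hg, if_pos (e1.2 hg), e2]
    · rw [if_neg hg, if_neg (fun h => hg (e1.1 h))]

lemma Sft2_edge (a y : V d) (s : Dir d) : edge (y + a) s = ((edge y s).1 + a, (edge y s).2) := by
  obtain ⟨i, b⟩ := s
  cases b
  · simp [edge, add_right_comm]
  · simp [edge]

lemma Occ_sh (P : Par d) (a : V d) (n : ℕ) (c : Ch d n) (X : Env d) :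
    X ∈ Occ P n (shC a n c) ↔ shE a X ∈ Occ P n c := by
  induction n with
  | zero => exact Iff.rfl
  | succ n ih =>
    obtain ⟨c, v, B, y, s⟩ := c
    have e1 : cluster (lo X) (stt P n (shC a n c)).x = (shA a B : Set (V d)) ↔
        cluster (lo (shE a X)) (stt P n c).x = (B : Set (V d)) := by
      rw [stt_sh, lo_shE, cluster_shift]
      show cluster (lo X) ((stt P n c).x + a) = (shA a B : Set (V d)) ↔ _
      constructor
      · intro h
        ext w
        rw [Set.mem_setOf_eq, h, Finset.mem_coe, mem_shA, add_sub_cancel_right, Finset.mem_coe]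
      · intro h
        ext w
        have h2 : w - a ∈ {w | w + a ∈ cluster (lo X) ((stt P n c).x + a)} ↔ w - a ∈ (B : Set (V d)) := by
          rw [h]
        rw [Set.mem_setOf_eq, sub_add_cancel] at h2
        rw [h2, Finset.mem_coe, Finset.mem_coe, mem_shA]
    have e2 : (X (edge (y + a) s)).2 = true ↔ (shE a X (edge y s)).2 = true := by
      rw [Sft2_edge]
      exact Iff.rfl
    show (X ∈ Occ P n (shC a n c) ∧ (cluster (lo X) (stt P n (shC a n c)).x =
      (shA a B : Set (V d)) ∧ (X (edge (y + a) s)).2 = true)) ↔ (shE a X ∈ Occ P n c ∧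
      (cluster (lo (shE a X)) (stt P n c).x = (B : Set (V d)) ∧ (shE a X (edge y s)).2 = true))
    rw [ih c, e1, e2]

lemma Sft2_crs (a y : V d) (s : Dir d) (x : V d) (l : List (Dir d)) :
    crs (y + a) s (x + a) l = crs y s x l := by
  induction l generalizing x with
  | nil => rfl
  | cons t l ih =>
    have h1 : (x + a = y + a ∧ t = s) ↔ (x = y ∧ t = s) := by
      rw [add_left_inj]
    have h2 : (x + a = y + a + step s ∧ t = opp s) ↔ (x = y + step s ∧ t = opp s) := by
      rw [add_right_comm y a, add_left_inj]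
    have h3 : x + a + step t = x + step t + a := add_right_comm _ _ _
    simp only [crs, h1, h2, h3, ih]

lemma flw_sh (P : Par d) (a : V d) (n : ℕ) (c : Ch d n) (X : Env d) (y : V d) (s : Dir d) :
    flw P n (shC a n c) X (y + a) s = flw P n c (shE a X) y s := by
  induction n with
  | zero => rfl
  | succ n ih =>
    obtain ⟨c, v, B, y', s'⟩ := c
    show flw P n (shC a n c) X (y + a) s + crs (y + a) s (stt P n (shC a n c)).x
      (pth (lo X) (stt P n (shC a n c)).x (y' + a) ++ [s']) =
      flw P n c (shE a X) y s + crs y s (stt P n c).x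
      (pth (lo (shE a X)) (stt P n c).x y' ++ [s'])
    rw [ih c, stt_sh, lo_shE, pth_shift]
    show _ + crs (y + a) s ((stt P n c).x + a)
      (pth (lo X) ((stt P n c).x + a) (y' + a) ++ [s']) = _
    rw [Sft2_crs]

/-- Translation as a bijection of the chains. -/
def Sft2_eq (a : V d) (n : ℕ) : Ch d n ≃ Ch d n where
  toFun := shC a n
  invFun := shC (-a) n
  left_inv := fun c => by
    rw [shC_shC, add_neg_cancel, shC_zero]
  right_inv := fun c => by
    rw [shC_shC, neg_add_cancel, shC_zero]

lemma Sft2_tsum (a : V d) (n : ℕ) (F : Ch d n → ℝ≥0∞) :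
    ∑' c : Ch d n, F (shC a n c) = ∑' c : Ch d n, F c :=
  (Sft2_eq a n).tsum_eq F

theorem tsum_sh (n : ℕ) (F : Ch d n → ℝ≥0∞) :
    ∑' c : Ch d n, F c = sumS n 0 fun c => ∑' a : V d, F (shC a n c) := by
  classical
  unfold sumS
  have h1 : ∀ c : Ch d n, F c = ∑' a : V d, if sta n c = a then F c else 0 := by
    intro c
    have h2 : ∑' a : V d, (if sta n c = a then F c else 0) =
        ∑' a : V d, (if a = sta n c then F c else 0) := by
      refine tsum_congr fun a => ?_
      by_cases h3 : a = sta n c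
      · rw [if_pos h3, if_pos h3.symm]
      · rw [if_neg h3, if_neg (fun h => h3 h.symm)]
    rw [h2, tsum_ite_eq]
  calc ∑' c : Ch d n, F c = ∑' c : Ch d n, ∑' a : V d, (if sta n c = a then F c else 0) :=
        tsum_congr h1
    _ = ∑' a : V d, ∑' c : Ch d n, (if sta n c = a then F c else 0) := ENNReal.tsum_comm
    _ = ∑' a : V d, ∑' c : Ch d n, (if sta n c = 0 then F (shC a n c) else 0) := by
        refine tsum_congr fun a => ?_
        rw [← Sft2_tsum a n (fun c => if sta n c = a then F c else 0)]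
        refine tsum_congr fun c => ?_
        have h2 : sta n (shC a n c) = a ↔ sta n c = 0 := by
          rw [sta_sh]
          exact add_eq_right
        by_cases h3 : sta n c = 0
        · rw [if_pos h3, if_pos (h2.2 h3)]
        · rw [if_neg h3, if_neg (fun h => h3 (h2.1 h))]
    _ = ∑' c : Ch d n, ∑' a : V d, (if sta n c = 0 then F (shC a n c) else 0) := ENNReal.tsum_comm
    _ = ∑' c : Ch d n, if sta n c = 0 then ∑' a : V d, F (shC a n c) else 0 := by
        refine tsum_congr fun c => ?_
        by_cases h3 : sta n c = 0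
        · simp only [if_pos h3]
        · simp only [if_neg h3, tsum_zero]

theorem mass_tr (n : ℕ) (F : Ch d n → Ch d n → V d → ℝ≥0∞)
    (hF : ∀ a c c' y, F (shC a n c) (shC a n c') (y + a) = F c c' y) :
    ∑' c : Ch d n, ∑' c' : Ch d n, F c c' 0 =
      sumS n 0 fun c => ∑' c' : Ch d n, ∑' y : V d, F c c' y := by
  rw [tsum_sh n (fun c => ∑' c' : Ch d n, F c c' 0)]
  have h1 : ∀ c : Ch d n, ∑' a : V d, ∑' c' : Ch d n, F (shC a n c) c' 0 =
      ∑' c' : Ch d n, ∑' y : V d, F c c' y := by
    intro c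
    calc ∑' a : V d, ∑' c' : Ch d n, F (shC a n c) c' 0
        = ∑' a : V d, ∑' c' : Ch d n, F c c' (-a) := by
          refine tsum_congr fun a => ?_
          rw [← Sft2_tsum a n (fun c' => F (shC a n c) c' 0)]
          refine tsum_congr fun c' => ?_
          have h2 := hF a c c' (-a)
          rwa [neg_add_cancel] at h2
      _ = ∑' c' : Ch d n, ∑' a : V d, F c c' (-a) := ENNReal.tsum_comm
      _ = ∑' c' : Ch d n, ∑' y : V d, F c c' y := by
          refine tsum_congr fun c' => ?_
          exact (Equiv.neg (V d)).tsum_eq (fun y => F c c' y)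
  simp only [h1]

end H5CG
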