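import Pool.Agent.H5.CG.Defs
import Pool.Agent.H70.CG.Geo
import Pool.Agent.H5.CG.ClB
import Pool.Agent.H95.LBD.PathA

/-!
PROJECT CG (MP_0d9ad5_pr, note 2718), flow part (owner helper5). Definitions: canonical paths, the flow of a
chain, translations of chains, sums over chains with a given start.
-/

namespace H5CG

open CG H5DF H95LBD MeasureTheory
open scoped ENNReal

variable {d : ℕ}

noncomputable section

/-- `l` is a simple open path from `x` to `y`. -/
def isP (ζ : Cfg d) (x y : V d) (l : List (Dir d)) : Prop :=
  popen ζ x l ∧ pend x l = y ∧ (pvs x l).Nodup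

open Classical in
/-- The simple open path from `x` to `y` with the least code (`[]` if there is none). -/
def pth (ζ : Cfg d) (x y : V d) : List (Dir d) :=
  if h : {l : List (Dir d) | isP ζ x y l}.Nonempty then
    Function.argminOn (fun l : List (Dir d) => Encodable.encode l) {l | isP ζ x y l} h
  else []

/-- The signed flow of a chain: along the canonical path from `x_k` to `y_(k+1)`, then along the linking
edge, for every `k < n`. -/
def flw (P : Par d) : (n : ℕ) → Ch d n → Env d → V d → Dir d → ℝ
  | 0, _, _, _, _ => 0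
  | n + 1, c, X, y, s => flw P n c.1 X y s +
      crs y s (stt P n c.1).x (pth (lo X) (stt P n c.1).x c.2.2.2.1 ++ [c.2.2.2.2])

/-- `∑ k, (1 + length of the canonical path in A_k) * φ A_k`. -/
def LS (P : Par d) (φ : Finset (V d) → ℝ≥0∞) : (n : ℕ) → Ch d n → Env d → ℝ≥0∞
  | 0, _, _ => 0
  | n + 1, c, X => LS P φ n c.1 X +
      (((pth (lo X) (stt P n c.1).x c.2.2.2.1).length : ℝ≥0∞) + 1) * φ c.2.2.1

/-- Translation of a finite set. -/
def shA (a : V d) (A : Finset (V d)) : Finset (V d) := A.map (Equiv.addRight a).toEmbedding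

/-- Translation of an entry. -/
def shEn (a : V d) (e : Ent d) : Ent d := ⟨e.z + a, e.x + a, shA a e.A, e.y + a⟩

/-- Translation of a state. -/
def shS (a : V d) (st : St d) : St d := ⟨st.z + a, st.x + a, st.H.map (shEn a)⟩

/-- Translation of a step. -/
def shQ (a : V d) (q : Stp d) : Stp d := (q.1, shA a q.2.1, q.2.2.1 + a, q.2.2.2)

/-- Translation of a chain. -/
def shC (a : V d) : (n : ℕ) → Ch d n → Ch d n
  | 0, x => HAdd.hAdd (α := V d) (β := V d) (γ := V d) x a
  | n + 1, c => (shC a n c.1, shQ a c.2)

open Classical in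
/-- Sum over the chains of length `n` which start at `x`. -/
def sumS (n : ℕ) (x : V d) (F : Ch d n → ℝ≥0∞) : ℝ≥0∞ :=
  ∑' c : Ch d n, if sta n c = x then F c else 0

/-- The linking edges of a state. -/
def jE (st : St d) : Set (Ed d) := {b | ∃ a t, b = edge a t ∧ junc st.x st.H a (a + step t)}

instance instCountCh : (n : ℕ) → Countable (Ch d n)
  | 0 => inferInstanceAs (Countable (V d))
  | n + 1 =>
    have := instCountCh n
    inferInstanceAs (Countable (Ch d n × Stp d))

end

end H5CG
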