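import Pool.Agent.H5.CG.Ener
import Pool.Agent.H5.CG.Nrm
import Pool.Agent.H95.LBD.LawA

/-!
PROJECT CG (MP_0d9ad5_pr, note 2718, section 5), flow part (helper5). The stationary flow made of the translates
of finitely many chains.
-/

namespace H5CG

open CG H5DF H95LBD MeasureTheory
open scoped ENNReal

variable {d : ℕ}

/-- The flow of the chain `c` translated by `-a`, through the edge `(0, step s)`. -/
noncomputable def gf (P : Par d) (n : ℕ) (c : Ch d n) (a : V d) (s : Dir d) (X : Env d) : ℝ :=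
  (Occ P n c).indicator (fun X => flw P n c X (-a) s) (shE a X)

lemma gf_meas (P : Par d) (n : ℕ) (c : Ch d n) (a : V d) (s : Dir d) :
    Measurable (gf P n c a s) := by
  unfold gf
  exact ((flw_meas P n c (-a) s).indicator (meas_Occ P n c)).comp (measurable_shE a)

lemma gf_abs (P : Par d) (n : ℕ) (c : Ch d n) (a : V d) (s : Dir d) (X : Env d) :
    |gf P n c a s X| ≤ 2 * n := by
  classical
  unfold gf
  rw [Set.indicator_apply]
  split_ifs
  · exact flw_abs P n c _ _ _
  · simp

lemma gf_anti (P : Par d) (n : ℕ) (c : Ch d n) (a : V d) (s : Dir d) (X : Env d) :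
    gf P n c a (opp s) (shE (step s) X) = - gf P n c (a + step s) s X := by
  classical
  unfold gf
  rw [Set.indicator_apply, Set.indicator_apply, shE_shE]
  have h : -a = -(a + step s) + step s := by abel
  by_cases hX : shE (a + step s) X ∈ Occ P n c
  · rw [if_pos hX, if_pos hX, ← flw_anti, ← h]
  · rw [if_neg hX, if_neg hX, neg_zero]

/-- A radius for the chain. -/
lemma exists_rad (P : Par d) (n : ℕ) (c : Ch d n) : ∃ N : ℕ,
    (∀ w ∈ occ (stt P n c).H, nm w ≤ N) ∧ nm (stt P n c).x ≤ N ∧ nm (sta n c) ≤ N := by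
  refine ⟨((occ (stt P n c).H).sup nm) + nm (stt P n c).x + nm (sta n c), ?_, ?_, ?_⟩
  · intro w hw
    have h := Finset.le_sup (f := nm) hw
    omega
  · omega
  · omega

lemma gf_zero {P : Par d} {n : ℕ} {c : Ch d n} (hw : wgt P n c ≠ 0) {N : ℕ}
    (hN : ∀ w ∈ occ (stt P n c).H, nm w ≤ N) (hx : nm (stt P n c).x ≤ N) {a : V d}
    (ha : a ∉ Box d N) (s : Dir d) (X : Env d) : gf P n c a s X = 0 := by
  classical
  unfold gf
  rw [Set.indicator_apply]
  by_cases hX : shE a X ∈ Occ P n c
  · rw [if_pos hX]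
    by_contra h
    have h2 := flw_box hX hw hN hx h
    rw [nm_neg] at h2
    exact ha (mem_Box'.2 h2)
  · rw [if_neg hX]

lemma gf_supp {P : Par d} {n : ℕ} {c : Ch d n} (hw : wgt P n c ≠ 0) {a : V d} {s : Dir d}
    {X : Env d} (h : gf P n c a s X ≠ 0) : hi X (edge 0 s) = true := by
  classical
  unfold gf at h
  rw [Set.indicator_apply] at h
  by_cases hX : shE a X ∈ Occ P n c
  · rw [if_pos hX] at h
    have h2 := flw_supp hX hw h
    rw [hi_shE, edge_shift, neg_add_cancel] at h2
    exact h2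
  · rw [if_neg hX] at h
    exact absurd rfl h

lemma gf_uf {P : Par d} (h0 : 0 ≤ P.p) (h1 : P.p ≤ 1) (n : ℕ) (c : Ch d n) (a : V d) (s : Dir d)
    (X : Env d) : wgt P n c * ENNReal.ofReal |gf P n c a s X| = uf P n (shC a n c) 0 s X := by
  classical
  have h := uf_sh h0 h1 a n c (-a) s X
  rw [neg_add_cancel] at h
  rw [h]
  unfold uf gf
  rw [Set.indicator_apply, Set.indicator_apply]
  split_ifs <;> simp

lemma gf_int {P : Par d} (h0 : 0 ≤ P.p) (h1 : P.p ≤ 1) (hs0 : 0 ≤ P.s) (hs1 : P.s ≤ 1)
    (n : ℕ) (c : Ch d n) (a : V d) (s : Dir d) :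
    ∫ X, gf P n c a s X ∂(envM d P.p P.s) =
      ∫ X in Occ P n c, flw P n c X (-a) s ∂(envM d P.p P.s) := by
  have hm : Measurable ((Occ P n c).indicator (fun X => flw P n c X (-a) s)) :=
    (flw_meas P n c (-a) s).indicator (meas_Occ P n c)
  rw [← integral_indicator (meas_Occ P n c)]
  conv_rhs => rw [← map_shE h0 h1 hs0 hs1 a]
  rw [integral_map (measurable_shE a).aemeasurable hm.aestronglyMeasurable]
  rfl

theorem flow_exists {P : Par d} (h0 : 0 ≤ P.p) (h1 : P.p ≤ 1) (hs0 : 0 ≤ P.s) (hs1 : P.s ≤ 1)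
    (hL : 1 ≤ P.L) (hm : ∀ st, good P st → ∀ v ∈ steps P.i0, mm P st v ≠ 0)
    (n : ℕ) (E : ℝ) (hE0 : 0 ≤ E) (K3 KL : ℝ≥0∞)
    (hK3 : ∀ Γ : St d, good P Γ → ∀ e ∈ Γ.H,
        ∑' c : Ch d n, wtc P (kernG P Γ) (epG P Γ) n c * hit P e.A n c ≤ K3)
    (hKL : sumS n 0 (fun c => wgt P n c *
      ∫⁻ X in Occ P n c, LS P (fun _ => 1) n c X ∂(envM d P.p P.s)) ≤ KL)
    (hE : 8 * (K3 * KL) ≤ ENNReal.ofReal E) :
    ∃ χ : Dir d → Env d → ℝ, (∀ s, Measurable (χ s)) ∧ (∃ b, ∀ s X, |χ s X| ≤ b) ∧
      (∀ s X, χ (opp s) (shE (step s) X) = - χ s X) ∧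
      (∀ s X, χ s X ≠ 0 → hi X (edge 0 s) = true) ∧
      (∑ s : Dir d, ∫ X, χ s X ^ 2 ∂(envM d P.p P.s) ≤ E) ∧
      (2 * P.L * n ≤ ∑ s : Dir d, ∫ X, (((step s : V d) P.i0 : ℤ) : ℝ) * χ s X
        ∂(envM d P.p P.s)) ∧
      (∫ X, |∑ s : Dir d, χ s X| ∂(envM d P.p P.s) ≤ 2) := by
  classical
  have hpp := isProb_env (d := d) h0 h1 hs0 hs1
  set μ := envM d P.p P.s with hμ
  -- finitely many chains with half of the mass
  set w : Ch d n → ℝ≥0∞ := fun c => if sta n c = 0 then μ (Occ P n c) * wgt P n c else 0 with hw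
  have hw1 : ∑' c, w c = 1 := by
    have h := wtc_sum h0 h1 hm n (0 : V d)
    unfold sumS at h
    rw [← h]
    refine tsum_congr fun c => ?_
    simp only [hw]
    rw [← occ_one h0 h1 hs0 hs1 n c]
  obtain ⟨G, hG⟩ : ∃ G : Finset (Ch d n), (2 : ℝ≥0∞)⁻¹ < ∑ c ∈ G, w c := by
    have h2 : (2 : ℝ≥0∞)⁻¹ < ∑' c, w c := by
      rw [hw1]
      exact ENNReal.inv_lt_one.2 ENNReal.one_lt_two
    rw [ENNReal.tsum_eq_iSup_sum] at h2
    exact lt_iSup_iff.1 h2
  set G' : Finset (Ch d n) := G.filter fun c => w c ≠ 0 with hG'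
  have hGs : ∑ c ∈ G', w c = ∑ c ∈ G, w c := by
    rw [hG', Finset.sum_filter_ne_zero]
  have hG1 : ∀ c ∈ G', sta n c = 0 ∧ wgt P n c ≠ 0 := by
    intro c hc
    have h2 := (Finset.mem_filter.1 hc).2
    simp only [hw] at h2
    by_cases h3 : sta n c = 0
    · rw [if_pos h3] at h2
      exact ⟨h3, fun h => h2 (by rw [h, mul_zero])⟩
    · rw [if_neg h3] at h2
      exact absurd rfl h2
  -- real weights
  set r : Ch d n → ℝ := fun c => (wgt P n c).toReal with hr
  have hr0 : ∀ c, 0 ≤ r c := fun c => ENNReal.toReal_nonneg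
  set m : Ch d n → ℝ := fun c => r c * μ.real (Occ P n c) with hmd
  have hm0 : ∀ c, 0 ≤ m c := fun c => mul_nonneg (hr0 c) measureReal_nonneg
  have hmw : ∀ c ∈ G', ENNReal.ofReal (m c) = w c := by
    intro c hc
    obtain ⟨h2, h3⟩ := hG1 c hc
    simp only [hw, hmd, hr]
    rw [if_pos h2, ENNReal.ofReal_mul ENNReal.toReal_nonneg,
      ENNReal.ofReal_toReal (wgt_ne_top hm n c), mul_comm]
    congr 1
    exact ENNReal.ofReal_toReal (measure_ne_top _ _)
  have hsum : ENNReal.ofReal (∑ c ∈ G', m c) = ∑ c ∈ G, w c := by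
    rw [ENNReal.ofReal_sum_of_nonneg fun c _ => hm0 c, ← hGs]
    exact Finset.sum_congr rfl hmw
  have hmass1 : 1 / 2 ≤ ∑ c ∈ G', m c := by
    have h2 : ENNReal.ofReal (1 / 2) ≤ ENNReal.ofReal (∑ c ∈ G', m c) := by
      rw [hsum]
      refine le_trans (le_of_eq ?_) hG.le
      rw [one_div, ENNReal.ofReal_inv_of_pos two_pos]
      simp
    exact (ENNReal.ofReal_le_ofReal_iff (Finset.sum_nonneg fun c _ => hm0 c)).1 h2
  have hmass2 : ∑ c ∈ G', m c ≤ 1 := by
    have h2 : ENNReal.ofReal (∑ c ∈ G', m c) ≤ ENNReal.ofReal 1 := by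
      rw [hsum, ENNReal.ofReal_one, ← hw1]
      exact ENNReal.sum_le_tsum G
    exact (ENNReal.ofReal_le_ofReal_iff zero_le_one).1 h2
  -- a common radius
  choose rad hrad using fun c : Ch d n => exists_rad P n c
  set N : ℕ := G'.sup rad with hNd
  have hN : ∀ c ∈ G', (∀ w ∈ occ (stt P n c).H, nm w ≤ N) ∧ nm (stt P n c).x ≤ N ∧
      nm (sta n c) ≤ N := by
    intro c hc
    have h2 : rad c ≤ N := Finset.le_sup hc
    obtain ⟨h3, h4, h5⟩ := hrad c
    exact ⟨fun w hw => (h3 w hw).trans h2, h4.trans h2, h5.trans h2⟩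
  set χ : Dir d → Env d → ℝ := fun s X => ∑ c ∈ G', r c * ∑ a ∈ Box d N, gf P n c a s X with hχ
  have hts : ∀ c ∈ G', ∀ s X, ∑ a ∈ Box d N, gf P n c a s X = ∑' a : V d, gf P n c a s X := by
    intro c hc s X
    rw [tsum_eq_sum]
    intro a ha
    exact gf_zero (hG1 c hc).2 (hN c hc).1 (hN c hc).2.1 ha s X
  have hgm : ∀ s X, ∀ a c, |gf P n c a s X| ≤ 2 * n := fun s X a c => gf_abs P n c a s X
  have hgi : ∀ c a s, Integrable (gf P n c a s) μ := fun c a s =>
    Integrable.of_bound (gf_meas P n c a s).aestronglyMeasurable (2 * n)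
      (Filter.Eventually.of_forall fun X => by
        rw [Real.norm_eq_abs]
        exact gf_abs P n c a s X)
  have hfi : ∀ c y s, Integrable (fun X => flw P n c X y s) μ := fun c y s =>
    Integrable.of_bound (flw_meas P n c y s).aestronglyMeasurable (2 * n)
      (Filter.Eventually.of_forall fun X => by
        rw [Real.norm_eq_abs]
        exact flw_abs P n c X y s)
  have hχm : ∀ s, Measurable (χ s) := fun s =>
    Finset.measurable_sum _ fun c _ =>
      (Finset.measurable_sum _ fun a _ => gf_meas P n c a s).const_mul _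
  have hχb : ∀ s X, |χ s X| ≤ ∑ c ∈ G', r c * ∑ _a ∈ Box d N, (2 * n : ℝ) := by
    intro s X
    refine (Finset.abs_sum_le_sum_abs _ _).trans (Finset.sum_le_sum fun c _ => ?_)
    rw [abs_mul, abs_of_nonneg (hr0 c)]
    refine mul_le_mul_of_nonneg_left ?_ (hr0 c)
    exact (Finset.abs_sum_le_sum_abs _ _).trans (Finset.sum_le_sum fun a _ => hgm s X a c)
  have hχi : ∀ s, Integrable (χ s) μ := fun s =>
    Integrable.of_bound (hχm s).aestronglyMeasurable _
      (Filter.Eventually.of_forall fun X => by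
        rw [Real.norm_eq_abs]
        exact hχb s X)
  refine ⟨χ, hχm, ⟨_, hχb⟩, ?_, ?_, ?_, ?_, ?_⟩
  · -- antisymmetry
    intro s X
    simp only [hχ]
    rw [← Finset.sum_neg_distrib]
    refine Finset.sum_congr rfl fun c hc => ?_
    rw [hts c hc, hts c hc, ← mul_neg, ← tsum_neg]
    congr 1
    rw [← (Equiv.addRight (step s)).tsum_eq fun a : V d => - gf P n c a s X]
    exact tsum_congr fun a => gf_anti P n c a s X
  · -- support
    intro s X h
    simp only [hχ] at h
    obtain ⟨c, hc, h2⟩ := Finset.exists_ne_zero_of_sum_ne_zero h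
    obtain ⟨a, -, h3⟩ := Finset.exists_ne_zero_of_sum_ne_zero (right_ne_zero_of_mul h2)
    exact gf_supp (hG1 c hc).2 h3
  · -- energy
    have hpt : ∀ s X, ENNReal.ofReal |χ s X| ≤ ∑' c : Ch d n, uf P n c 0 s X := by
      intro s X
      calc ENNReal.ofReal |χ s X|
          ≤ ENNReal.ofReal (∑ c ∈ G', ∑ a ∈ Box d N, r c * |gf P n c a s X|) := by
            refine ENNReal.ofReal_le_ofReal ?_
            refine (Finset.abs_sum_le_sum_abs _ _).trans (Finset.sum_le_sum fun c _ => ?_)
            rw [abs_mul, abs_of_nonneg (hr0 c), ← Finset.mul_sum]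
            exact mul_le_mul_of_nonneg_left (Finset.abs_sum_le_sum_abs _ _) (hr0 c)
        _ = ∑ c ∈ G', ∑ a ∈ Box d N, uf P n (shC a n c) 0 s X := by
            rw [ENNReal.ofReal_sum_of_nonneg fun c _ => Finset.sum_nonneg fun a _ =>
              mul_nonneg (hr0 c) (abs_nonneg _)]
            refine Finset.sum_congr rfl fun c _ => ?_
            rw [ENNReal.ofReal_sum_of_nonneg fun a _ => mul_nonneg (hr0 c) (abs_nonneg _)]
            refine Finset.sum_congr rfl fun a _ => ?_
            rw [ENNReal.ofReal_mul (hr0 c), ENNReal.ofReal_toReal (wgt_ne_top hm n c),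
              gf_uf h0 h1]
        _ ≤ ∑ c ∈ G', (if sta n c = 0 then ∑' a : V d, uf P n (shC a n c) 0 s X else 0) := by
            refine Finset.sum_le_sum fun c hc => ?_
            rw [if_pos (hG1 c hc).1]
            exact ENNReal.sum_le_tsum _
        _ ≤ ∑' c : Ch d n, (if sta n c = 0 then ∑' a : V d, uf P n (shC a n c) 0 s X else 0) :=
            ENNReal.sum_le_tsum _
        _ = ∑' c : Ch d n, uf P n c 0 s X := by
            rw [tsum_sh n fun c => uf P n c 0 s X]
            rfl
    have hen := energy h0 h1 hs0 hs1 n K3 KL hK3 hKL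
    have h2 : ENNReal.ofReal (∑ s : Dir d, ∫ X, χ s X ^ 2 ∂μ) ≤ ENNReal.ofReal E := by
      refine le_trans ?_ (hen.trans hE)
      rw [ENNReal.ofReal_sum_of_nonneg fun s _ => integral_nonneg fun X => sq_nonneg _]
      refine Finset.sum_le_sum fun s _ => ?_
      rw [ofReal_integral_eq_lintegral_ofReal]
      · refine lintegral_mono fun X => ?_
        have h3 := hpt s X
        calc ENNReal.ofReal (χ s X ^ 2) = ENNReal.ofReal |χ s X| ^ 2 := by
              rw [← ENNReal.ofReal_pow (abs_nonneg _), sq_abs]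
          _ ≤ _ := by gcongr
      · refine Integrable.of_bound ((hχm s).pow_const 2).aestronglyMeasurable
          ((∑ c ∈ G', r c * ∑ _a ∈ Box d N, (2 * n : ℝ)) ^ 2)
          (Filter.Eventually.of_forall fun X => ?_)
        rw [Real.norm_eq_abs, abs_pow]
        exact pow_le_pow_left₀ (abs_nonneg _) (hχb s X) 2
      · exact Filter.Eventually.of_forall fun X => sq_nonneg _
    exact (ENNReal.ofReal_le_ofReal_iff hE0).1 h2
  · -- displacement
    have e1 : ∑ s : Dir d, ∫ X, (((step s : V d) P.i0 : ℤ) : ℝ) * χ s X ∂μ =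
        ∑ c ∈ G', r c * ∫ X in Occ P n c, (∑ y ∈ Box d N, ∑ s : Dir d,
          (((step s : V d) P.i0 : ℤ) : ℝ) * flw P n c X y s) ∂μ := by
      have e2 : ∀ s : Dir d, ∫ X, (((step s : V d) P.i0 : ℤ) : ℝ) * χ s X ∂μ =
          ∑ c ∈ G', r c * ∑ a ∈ Box d N, (((step s : V d) P.i0 : ℤ) : ℝ) *
            ∫ X in Occ P n c, flw P n c X (-a) s ∂μ := by
        intro s
        rw [integral_const_mul]
        simp only [hχ]
        rw [integral_finsetSum _ fun c _ =>
          (integrable_finsetSum _ fun a _ => hgi c a s).const_mul _, Finset.mul_sum]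
        refine Finset.sum_congr rfl fun c _ => ?_
        rw [integral_const_mul, integral_finsetSum _ fun a _ => hgi c a s, mul_left_comm,
          Finset.mul_sum]
        congr 1
        refine Finset.sum_congr rfl fun a _ => ?_
        rw [gf_int h0 h1 hs0 hs1]
      simp_rw [e2]
      rw [Finset.sum_comm]
      refine Finset.sum_congr rfl fun c _ => ?_
      rw [← Finset.mul_sum]
      congr 1
      rw [integral_finsetSum _ fun y _ => integrable_finsetSum _ fun s _ =>
        ((hfi c y s).const_mul _).integrableOn]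
      rw [Finset.sum_comm]
      have e3 : ∀ y ∈ Box d N, ∫ X in Occ P n c, (∑ s : Dir d,
          (((step s : V d) P.i0 : ℤ) : ℝ) * flw P n c X y s) ∂μ =
          ∑ s : Dir d, (((step s : V d) P.i0 : ℤ) : ℝ) * ∫ X in Occ P n c, flw P n c X y s ∂μ := by
        intro y _
        rw [integral_finsetSum _ fun s _ => ((hfi c y s).const_mul _).integrableOn]
        refine Finset.sum_congr rfl fun s _ => ?_
        rw [integral_const_mul]
      rw [Finset.sum_congr rfl e3]
      refine Finset.sum_nbij' (fun a => -a) (fun a => -a) ?_ ?_ ?_ ?_ ?_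
      · intro a ha
        rw [mem_Box', nm_neg]
        exact mem_Box'.1 ha
      · intro a ha
        rw [mem_Box', nm_neg]
        exact mem_Box'.1 ha
      · intro a _
        exact neg_neg a
      · intro a _
        exact neg_neg a
      · intro a _
        rfl
    rw [e1]
    have e4 : ∀ c ∈ G', m c * (4 * P.L * n) ≤ r c * ∫ X in Occ P n c, (∑ y ∈ Box d N,
        ∑ s : Dir d, (((step s : V d) P.i0 : ℤ) : ℝ) * flw P n c X y s) ∂μ := by
      intro c hc
      obtain ⟨h2, h3⟩ := hG1 c hc
      obtain ⟨h4, h5, -⟩ := hN c hc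
      rw [setIntegral_congr_fun (g := fun _ => 2 * (((stt P n c).x P.i0 : ℝ) -
        (sta n c P.i0 : ℝ))) (meas_Occ P n c) fun X hX => flw_disp hX h3 h4 h5 P.i0]
      rw [setIntegral_const, smul_eq_mul]
      have h6 := flw_gain hL h3
      simp only [hmd]
      have h7 : 0 ≤ r c * μ.real (Occ P n c) := hm0 c
      calc r c * μ.real (Occ P n c) * (4 * P.L * n)
          ≤ r c * μ.real (Occ P n c) * (2 * (((stt P n c).x P.i0 : ℝ) - (sta n c P.i0 : ℝ))) := by
            refine mul_le_mul_of_nonneg_left ?_ h7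
            linarith
        _ = _ := by ring
    calc 2 * (P.L : ℝ) * n = 1 / 2 * (4 * P.L * n) := by ring
      _ ≤ (∑ c ∈ G', m c) * (4 * P.L * n) := by gcongr
      _ = ∑ c ∈ G', m c * (4 * P.L * n) := Finset.sum_mul _ _ _
      _ ≤ _ := Finset.sum_le_sum e4
  · -- divergence
    have hpt : ∀ X, |∑ s : Dir d, χ s X| ≤ ∑ c ∈ G', r c * ∑ a ∈ Box d N,
        (Occ P n c).indicator (fun _ => ((if sta n c = -a then 1 else 0) +
          (if (stt P n c).x = -a then 1 else 0) : ℝ)) (shE a X) := by
      intro X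
      simp only [hχ]
      rw [Finset.sum_comm]
      refine (Finset.abs_sum_le_sum_abs _ _).trans (Finset.sum_le_sum fun c hc => ?_)
      obtain ⟨h2, h3⟩ := hG1 c hc
      rw [← Finset.mul_sum, abs_mul, abs_of_nonneg (hr0 c), Finset.sum_comm]
      refine mul_le_mul_of_nonneg_left ?_ (hr0 c)
      refine (Finset.abs_sum_le_sum_abs _ _).trans (Finset.sum_le_sum fun a _ => ?_)
      unfold gf
      by_cases hX : shE a X ∈ Occ P n c
      · simp only [Set.indicator_of_mem hX]
        rw [flw_div hX h3]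
        refine (abs_sub _ _).trans (le_of_eq ?_)
        congr 1 <;> split_ifs <;> simp
      · simp only [Set.indicator_of_notMem hX]
        simp
    have hint : ∀ c a, Integrable (fun X => (Occ P n c).indicator (fun _ =>
        ((if sta n c = -a then 1 else 0) + (if (stt P n c).x = -a then 1 else 0) : ℝ))
          (shE a X)) μ := by
      intro c a
      refine Integrable.of_bound (((measurable_const.indicator (meas_Occ P n c)).comp
        (measurable_shE a)).aestronglyMeasurable) 2 (Filter.Eventually.of_forall fun X => ?_)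
      rw [Set.indicator_apply]
      split_ifs <;> norm_num
    calc ∫ X, |∑ s : Dir d, χ s X| ∂μ
        ≤ ∫ X, (∑ c ∈ G', r c * ∑ a ∈ Box d N,
          (Occ P n c).indicator (fun _ => ((if sta n c = -a then 1 else 0) +
            (if (stt P n c).x = -a then 1 else 0) : ℝ)) (shE a X)) ∂μ := by
          refine integral_mono ?_ ?_ hpt
          · exact (integrable_finsetSum _ fun s _ => hχi s).abs
          · exact integrable_finsetSum _ fun c _ =>
              (integrable_finsetSum _ fun a _ => hint c a).const_mul _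
      _ = ∑ c ∈ G', r c * ∑ a ∈ Box d N, μ.real (Occ P n c) *
            ((if sta n c = -a then 1 else 0) + (if (stt P n c).x = -a then 1 else 0)) := by
          rw [integral_finsetSum _ fun c _ =>
            (integrable_finsetSum _ fun a _ => hint c a).const_mul _]
          refine Finset.sum_congr rfl fun c _ => ?_
          rw [integral_const_mul, integral_finsetSum _ fun a _ => hint c a]
          congr 1
          refine Finset.sum_congr rfl fun a _ => ?_
          have h5 : ∫ X, (Occ P n c).indicator (fun _ => ((if sta n c = -a then 1 else 0) +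
              (if (stt P n c).x = -a then 1 else 0) : ℝ)) (shE a X) ∂μ =
              ∫ X, (Occ P n c).indicator (fun _ => ((if sta n c = -a then 1 else 0) +
              (if (stt P n c).x = -a then 1 else 0) : ℝ)) X ∂μ := by
            conv_rhs => rw [hμ, ← map_shE h0 h1 hs0 hs1 a]
            rw [integral_map (measurable_shE a).aemeasurable
              (measurable_const.indicator (meas_Occ P n c)).aestronglyMeasurable]
          rw [h5, integral_indicator_const _ (meas_Occ P n c), smul_eq_mul]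
      _ ≤ ∑ c ∈ G', m c * 2 := by
          refine Finset.sum_le_sum fun c _ => ?_
          rw [← Finset.mul_sum, ← mul_assoc]
          refine mul_le_mul_of_nonneg_left ?_ (hm0 c)
          rw [Finset.sum_add_distrib]
          have h6 : ∀ z : V d, ∑ a ∈ Box d N, (if z = -a then (1 : ℝ) else 0) ≤ 1 := by
            intro z
            have h7 : ∀ a : V d, (if z = -a then (1 : ℝ) else 0) = if -z = a then 1 else 0 := by
              intro a
              congr 1
              rw [eq_iff_iff]
              exact ⟨fun h => by rw [h, neg_neg], fun h => by rw [← h, neg_neg]⟩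
            simp_rw [h7]
            rw [Finset.sum_ite_eq]
            split_ifs <;> norm_num
          linarith [h6 (sta n c), h6 (stt P n c).x]
      _ ≤ 2 := by
          rw [← Finset.sum_mul]
          linarith

end H5CG
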