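import Pool.Agent.H5.CG.Defs

/-!
PROJECT CG (MP_0d9ad5_pr). Inputs of the chain flow proof. `Rough` is the interface with project LE (uniform
statements below the critical point `pc`), `KIn` the inputs at the scale `L` (`p = pc - 1 / L^2`).
-/

namespace CG

open H5DF H95LBD MeasureTheory
open scoped ENNReal

variable {d : ℕ}

/-- The interface with project LE (K1 - K6 of note CG). -/
structure Rough (d : ℕ) (pc A : ℝ) : Prop where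
  pc0 : 0 < pc
  pc1 : pc < 1
  hA : 1 ≤ A
  /-- (K1) the susceptibility -/
  chi : ∀ p : ℝ, pc / 2 ≤ p → p < pc → ∑' x : V d, tau d p x ≤ ENNReal.ofReal (A / (pc - p))
  /-- (K2) the moment of order 16 -/
  mom : ∀ p : ℝ, pc / 2 ≤ p → p < pc →
    ∑' x : V d, ENNReal.ofReal ((nm x : ℝ) ^ 16) * tau d p x ≤ ENNReal.ofReal (A / (pc - p) ^ 9)
  /-- (K3) rough decay -/
  far : ∀ p : ℝ, pc / 2 ≤ p → p < pc → ∀ z : V d,
    t4 d p z ≤ ENNReal.ofReal (A / (1 + (nm z : ℝ)) ^ 16)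
  /-- (K3') weighted open triangle -/
  tri : ∀ p : ℝ, pc / 2 ≤ p → p < pc →
    ∑' z : V d, (nm z : ℝ≥0∞) * (tau d p z * t2 d p z) ≤ ENNReal.ofReal A
  /-- (K4) sums over balls -/
  ball2 : ∀ p : ℝ, pc / 2 ≤ p → p < pc → ∀ n : ℕ, 1 ≤ n →
    ∑' z : V d, (if nm z ≤ n then t2 d p z else 0) ≤ ENNReal.ofReal (A * (n : ℝ) ^ 4)
  ball4 : ∀ p : ℝ, pc / 2 ≤ p → p < pc → ∀ n : ℕ, 1 ≤ n →
    ∑' z : V d, (if nm z ≤ n then t4 d p z else 0) ≤ ENNReal.ofReal (A * (n : ℝ) ^ 8)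
  /-- (K5) box averages from below, at `p = pc - 1 / L^2` -/
  low : ∃ (a : ℝ) (L0 : ℕ), 0 < a ∧ 1 ≤ L0 ∧ ∀ L : ℕ, L0 ≤ L → ∀ z : V d, nm z ≤ 4 * L →
    ENNReal.ofReal (a * (L : ℝ) ^ 2) ≤
      ∑' u : V d, (if 8 * nm (u - z) ≤ L then tau d (pc - 1 / (L : ℝ) ^ 2) u else 0)
  /-- (K6) the upper bound for the density of the infinite cluster -/
  theta_le : ∃ δ : ℝ, 0 < δ ∧ ∀ e : ℝ, 0 < e → e < δ → theta d (pc + e) ≤ A * e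

/-- The inputs at the scale `L`. -/
structure KIn (d : ℕ) (p : ℝ) (L : ℕ) (pm pM a A : ℝ) : Prop where
  L1 : 1 ≤ L
  pm0 : 0 < pm
  ppm : pm ≤ p
  ppM : p ≤ pM
  pM1 : pM < 1
  a0 : 0 < a
  hA : 1 ≤ A
  tot : ∑' x : V d, tau d p x ≤ ENNReal.ofReal (A * (L : ℝ) ^ 2)
  mom : ∑' x : V d, gro L x * tau d p x ≤ ENNReal.ofReal (A * (L : ℝ) ^ 2)
  far : ∀ z : V d, t4 d p z ≤ ENNReal.ofReal (A / (1 + (nm z : ℝ)) ^ 16)
  tri : ∑' z : V d, (nm z : ℝ≥0∞) * (tau d p z * t2 d p z) ≤ ENNReal.ofReal A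
  ball2 : ∀ n : ℕ, 1 ≤ n → ∑' z : V d, (if nm z ≤ n then t2 d p z else 0) ≤
    ENNReal.ofReal (A * (n : ℝ) ^ 4)
  ball4 : ∀ n : ℕ, 1 ≤ n → ∑' z : V d, (if nm z ≤ n then t4 d p z else 0) ≤
    ENNReal.ofReal (A * (n : ℝ) ^ 8)
  low : ∀ z : V d, nm z ≤ 4 * L → ENNReal.ofReal (a * (L : ℝ) ^ 2) ≤
    ∑' u : V d, (if 8 * nm (u - z) ≤ L then tau d p u else 0)

end CG
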