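import Pool.Agent.H70.CG.MasL
import Pool.Agent.H70.CG.Law
import Pool.Agent.H5.CG.Sft2
import Pool.Agent.H5.CG.Nrm

/-!
PROJECT CG (MP_0d9ad5_pr, note 2748, (B2)), owner helper5. Clean and dirty chains. `AA = occ Γ.H`.
A chain is clean if its start is off `AA` and no cluster is adjacent to `AA \ occ (previous history)`.
(R0) a clean chain of positive weight has its last position off `AA`, and its weight is the free weight.
(R1) `MasF_x`: the free mass has density at most one. (R2) `Mas_le`, `MasD_succ`: dirty mass.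
-/

namespace CG

open H5DF H95LBD MeasureTheory
open scoped ENNReal

variable {d : ℕ}

noncomputable section

/-- The step with cluster `B` from the state `st` is adjacent to the first chain. -/
def adj (Γ st : St d) (B : Finset (V d)) : Prop :=
  ∃ w ∈ occ Γ.H \ occ st.H, ∃ s : Dir d, w + step s ∈ B

/-- Clean chains. -/
def cln (P : Par d) (Γ : St d) : (n : ℕ) → Ch d n → Prop
  | 0, c => (stt P 0 c).x ∉ occ Γ.H
  | n + 1, c => cln P Γ n c.1 ∧ ¬ adj Γ (stt P n c.1) c.2.2.1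

/-- The free mass at time `i`, tested with `f`. -/
def MasF (P : Par d) (i : ℕ) (f : St d → ℝ≥0∞) : ℝ≥0∞ :=
  ∑' c : Ch d i, wtc P (kern0 P) (ep0 P) i c * f (stt P i c)

open Classical in
/-- The mass of the dirty chains at time `i`, tested with `f`. -/
def MasD (P : Par d) (Γ : St d) (i : ℕ) (f : St d → ℝ≥0∞) : ℝ≥0∞ :=
  ∑' c : Ch d i, if cln P Γ i c then 0 else wtc P (kernG P Γ) (epG P Γ) i c * f (stt P i c)

open Classical in
/-- The part of `Opv` with clusters adjacent to the first chain. -/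
def Opa (P : Par d) (Γ : St d) (v : V d) (F : St d → ℝ≥0∞) (st : St d) : ℝ≥0∞ :=
  ∑' q : Finset (V d) × V d × Dir d,
    if adj Γ st q.1 then kk P (kernG P Γ) (epG P Γ) st (v, q) * F (nxt P st (v, q)) else 0

open Classical in
/-- The dirty mass with corner in the box `cell L z0`. -/
def BD (P : Par d) (Γ : St d) (i : ℕ) (z0 : V d) : ℝ≥0∞ :=
  MasD P Γ i fun st => if st.z ∈ cell P.L z0 then 1 else 0

open Classical in
/-- The dirty mass at the position `y`. -/
def ND (P : Par d) (Γ : St d) (i : ℕ) (y : V d) : ℝ≥0∞ :=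
  MasD P Γ i fun st => if st.x = y then 1 else 0

open Classical in
/-- The dirty mass in the set `A`. -/
def NDE (P : Par d) (Γ : St d) (i : ℕ) (A : Finset (V d)) : ℝ≥0∞ :=
  MasD P Γ i fun st => if st.x ∈ A then 1 else 0

end

lemma MasD_Op_le (P : Par d) (st : St d) :
    ∑' q : Stp d, kk P (kern0 P) (ep0 P) st q ≤ 1 := by
  classical
  have h : ∑' q : Stp d, kk P (kern0 P) (ep0 P) st q =
      Op P (kern0 P) (ep0 P) (fun _ => 1) st := by
    unfold Op
    simp only [mul_one]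
  rw [h, Op_eq]
  have hc : ((steps P.i0).card : ℝ≥0∞) ≠ 0 := by
    exact_mod_cast (steps_card_pos P.i0).ne'
  have h2 : ∀ v ∈ steps P.i0, Opv P (kern0 P) (ep0 P) v (fun _ => 1) st ≤
      ((steps P.i0).card : ℝ≥0∞)⁻¹ := by
    intro v hv
    have h3 : Opv P (kern0 P) (ep0 P) v (fun _ => 1) st = mm P st v * nrm P st v := by
      rw [← Step_mm P st v (nrm P st v)]
      unfold Opv
      refine tsum_congr fun q => ?_
      unfold kk kern0 ep0
      dsimp only
      by_cases h : gx P st v q.1 q.2.1 q.2.2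
      · rw [if_pos h, if_pos h]
        ring
      · rw [if_neg h, if_neg h]
        ring
    rw [h3]
    exact Step_mm_nrm P st v
  refine (Finset.sum_le_sum h2).trans (le_of_eq ?_)
  rw [Finset.sum_const, nsmul_eq_mul]
  exact ENNReal.mul_inv_cancel hc (ENNReal.natCast_ne_top _)

lemma MasD_tot (P : Par d) (n : ℕ) (x : V d) :
    H5CG.sumS n x (wtc P (kern0 P) (ep0 P) n) ≤ 1 := by
  classical
  induction n with
  | zero =>
    unfold H5CG.sumS
    have h : ∑' c : V d, (if c = x then (1 : ℝ≥0∞) else 0) = 1 := tsum_ite_eq x _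
    exact le_of_eq h
  | succ n ih =>
    rw [H5CG.sum_succ]
    refine le_trans ?_ ih
    unfold H5CG.sumS
    refine ENNReal.tsum_le_tsum fun c => ?_
    by_cases h : sta n c = x
    · rw [if_pos h, if_pos h]
      have h2 : ∑' q : Stp d, wtc P (kern0 P) (ep0 P) (n + 1) (c, q) =
          wtc P (kern0 P) (ep0 P) n c * ∑' q : Stp d, kk P (kern0 P) (ep0 P) (stt P n c) q := by
        rw [← ENNReal.tsum_mul_left]
        rfl
      refine (le_of_eq h2).trans ?_
      calc wtc P (kern0 P) (ep0 P) n c * ∑' q : Stp d, kk P (kern0 P) (ep0 P) (stt P n c) q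
          ≤ wtc P (kern0 P) (ep0 P) n c * 1 := mul_le_mul' le_rfl (MasD_Op_le P _)
        _ = _ := mul_one _
    · rw [if_neg h, if_neg h]

lemma MasD_sh {P : Par d} (h0 : 0 ≤ P.p) (h1 : P.p ≤ 1) (a : V d) (n : ℕ) (c : Ch d n) :
    wtc P (kern0 P) (ep0 P) n (H5CG.shC a n c) = wtc P (kern0 P) (ep0 P) n c := by
  classical
  induction n with
  | zero => rfl
  | succ n ih =>
    obtain ⟨c, v, B, y, s⟩ := c
    have e3 : wtc P (kern0 P) (ep0 P) n (H5CG.shC a n c) = wtc P (kern0 P) (ep0 P) n c := ih c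
    have e1 : gx P (stt P n (H5CG.shC a n c)) v (H5CG.shA a B) (y + a) s ↔
        gx P (stt P n c) v B y s := by
      rw [H5CG.stt_sh]
      exact H5CG.gx_sh P (stt P n c) v B y s a
    have e2 : nrm P (stt P n (H5CG.shC a n c)) v = nrm P (stt P n c) v := by
      rw [H5CG.stt_sh]
      exact H5CG.nrm_sh h0 h1 (stt P n c) v a
    have e4 : kern0 P (stt P n (H5CG.shC a n c)) (H5CG.shA a B) = kern0 P (stt P n c) B := by
      rw [H5CG.stt_sh]
      unfold kern0
      show cl P.p (occ ((stt P n c).H.map (H5CG.shEn a))) ((stt P n c).x + a) (H5CG.shA a B) = _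
      rw [H5CG.occ_sh, H5CG.cl_sh h0 h1]
    have l1 : wtc P (kern0 P) (ep0 P) (n + 1) (H5CG.shC a (n + 1) (c, v, B, y, s)) =
      wtc P (kern0 P) (ep0 P) n (H5CG.shC a n c) *
      (if gx P (stt P n (H5CG.shC a n c)) v (H5CG.shA a B) (y + a) s then
        kern0 P (stt P n (H5CG.shC a n c)) (H5CG.shA a B) * ep0 P (y + a) s *
          nrm P (stt P n (H5CG.shC a n c)) v else 0) := rfl
    have l2 : wtc P (kern0 P) (ep0 P) (n + 1) ((c, v, B, y, s) : Ch d (n + 1)) =
      wtc P (kern0 P) (ep0 P) n c * (if gx P (stt P n c) v B y s then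
        kern0 P (stt P n c) B * ep0 P y s * nrm P (stt P n c) v else 0) := rfl
    rw [l1, l2, e3]
    by_cases hg : gx P (stt P n c) v B y s
    · rw [if_pos hg, if_pos (e1.2 hg), e2, e4]
      rfl
    · rw [if_neg hg, if_neg (fun h => hg (e1.1 h))]

/-- (R1) the density of the free mass is at most one -/
theorem MasF_x {P : Par d} (h0 : 0 ≤ P.p) (h1 : P.p ≤ 1) (hs0 : 0 ≤ P.s) (hs1 : P.s ≤ 1)
    (i : ℕ) (f : V d → ℝ≥0∞) : MasF P i (fun st => f st.x) ≤ ∑' x : V d, f x := by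
  have _ := hs0
  have _ := hs1
  unfold MasF
  rw [H5CG.tsum_sh]
  have h : (fun c : Ch d i => ∑' a : V d, wtc P (kern0 P) (ep0 P) i (H5CG.shC a i c) *
      f (stt P i (H5CG.shC a i c)).x) =
      fun c : Ch d i => (∑' x : V d, f x) * wtc P (kern0 P) (ep0 P) i c := by
    funext c
    have h2 : ∀ a : V d, wtc P (kern0 P) (ep0 P) i (H5CG.shC a i c) *
        f (stt P i (H5CG.shC a i c)).x =
        wtc P (kern0 P) (ep0 P) i c * f ((stt P i c).x + a) := by
      intro a
      rw [MasD_sh h0 h1, H5CG.stt_sh]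
      rfl
    rw [tsum_congr h2, ENNReal.tsum_mul_left, mul_comm]
    congr 1
    exact (Equiv.addLeft (stt P i c).x).tsum_eq f
  rw [h]
  have h3 : H5CG.sumS i 0 (fun c : Ch d i => (∑' x : V d, f x) * wtc P (kern0 P) (ep0 P) i c) =
      (∑' x : V d, f x) * H5CG.sumS i 0 (wtc P (kern0 P) (ep0 P) i) := by
    unfold H5CG.sumS
    rw [← ENNReal.tsum_mul_left]
    refine tsum_congr fun c => ?_
    rw [mul_ite, mul_zero]
  rw [h3]
  calc (∑' x : V d, f x) * H5CG.sumS i 0 (wtc P (kern0 P) (ep0 P) i)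
      ≤ (∑' x : V d, f x) * 1 := mul_le_mul' le_rfl (MasD_tot P i 0)
    _ = _ := mul_one _

lemma MasF_mono {P : Par d} {i : ℕ} {f f' : St d → ℝ≥0∞}
    (h : ∀ st, good P st → f st ≤ f' st) : MasF P i f ≤ MasF P i f' := by
  unfold MasF
  refine ENNReal.tsum_le_tsum fun c => ?_
  by_cases hc : wtc P (kern0 P) (ep0 P) i c = 0
  · rw [hc, zero_mul, zero_mul]
  · exact mul_le_mul' le_rfl (h _ (wtc_good hc))

lemma MasF_add (P : Par d) (i : ℕ) (f f' : St d → ℝ≥0∞) :
    MasF P i (fun st => f st + f' st) = MasF P i f + MasF P i f' := by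
  unfold MasF
  rw [← ENNReal.tsum_add]
  exact tsum_congr fun c => mul_add _ _ _

lemma MasF_mul (P : Par d) (i : ℕ) (c : ℝ≥0∞) (f : St d → ℝ≥0∞) :
    MasF P i (fun st => c * f st) = c * MasF P i f := by
  unfold MasF
  rw [← ENNReal.tsum_mul_left]
  exact tsum_congr fun c' => mul_left_comm _ _ _

lemma MasF_sum (P : Par d) (i : ℕ) {ι : Type*} (S : Finset ι) (f : ι → St d → ℝ≥0∞) :
    MasF P i (fun st => ∑ j ∈ S, f j st) = ∑ j ∈ S, MasF P i (f j) := by
  classical
  induction S using Finset.induction_on with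
  | empty =>
    simp only [Finset.sum_empty]
    unfold MasF
    simp
  | insert j S hj ih =>
    simp only [Finset.sum_insert hj]
    rw [MasF_add, ih]

lemma MasD_mono {P : Par d} {Γ : St d} {i : ℕ} {f f' : St d → ℝ≥0∞}
    (h : ∀ st, good P st → f st ≤ f' st) : MasD P Γ i f ≤ MasD P Γ i f' := by
  classical
  unfold MasD
  refine ENNReal.tsum_le_tsum fun c => ?_
  by_cases h2 : cln P Γ i c
  · rw [if_pos h2, if_pos h2]
  · rw [if_neg h2, if_neg h2]
    by_cases hc : wtc P (kernG P Γ) (epG P Γ) i c = 0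
    · rw [hc, zero_mul, zero_mul]
    · exact mul_le_mul' le_rfl (h _ (wtc_good hc))

lemma MasD_add (P : Par d) (Γ : St d) (i : ℕ) (f f' : St d → ℝ≥0∞) :
    MasD P Γ i (fun st => f st + f' st) = MasD P Γ i f + MasD P Γ i f' := by
  classical
  unfold MasD
  rw [← ENNReal.tsum_add]
  refine tsum_congr fun c => ?_
  by_cases h2 : cln P Γ i c
  · rw [if_pos h2, if_pos h2, if_pos h2, add_zero]
  · rw [if_neg h2, if_neg h2, if_neg h2, mul_add]

lemma MasD_mul (P : Par d) (Γ : St d) (i : ℕ) (c : ℝ≥0∞) (f : St d → ℝ≥0∞) :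
    MasD P Γ i (fun st => c * f st) = c * MasD P Γ i f := by
  classical
  unfold MasD
  rw [← ENNReal.tsum_mul_left]
  refine tsum_congr fun c' => ?_
  by_cases h2 : cln P Γ i c'
  · rw [if_pos h2, if_pos h2, mul_zero]
  · rw [if_neg h2, if_neg h2, mul_left_comm]

lemma MasD_sum (P : Par d) (Γ : St d) (i : ℕ) {ι : Type*} (S : Finset ι) (f : ι → St d → ℝ≥0∞) :
    MasD P Γ i (fun st => ∑ j ∈ S, f j st) = ∑ j ∈ S, MasD P Γ i (f j) := by
  classical
  induction S using Finset.induction_on with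
  | empty =>
    simp only [Finset.sum_empty]
    unfold MasD
    simp
  | insert j S hj ih =>
    simp only [Finset.sum_insert hj]
    rw [MasD_add, ih]

/-- at time 0 the dirty chains start on the first chain -/
lemma MasD_zero (P : Par d) (Γ : St d) (f : St d → ℝ≥0∞) :
    MasD P Γ 0 f = ∑ x ∈ occ Γ.H, f ⟨x, x, []⟩ := by
  classical
  unfold MasD
  have h : ∀ x : V d, (if cln P Γ 0 x then 0 else
      wtc P (kernG P Γ) (epG P Γ) 0 x * f (stt P 0 x)) =
      if x ∈ occ Γ.H then f ⟨x, x, []⟩ else 0 := by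
    intro x
    by_cases hx : x ∈ occ Γ.H
    · rw [if_pos hx, if_neg]
      · exact one_mul _
      · exact fun h => h hx
    · rw [if_neg hx, if_pos]
      exact hx
  have h2 : ∑' x : V d, (if x ∈ occ Γ.H then f ⟨x, x, []⟩ else 0) =
      ∑ x ∈ occ Γ.H, (if x ∈ occ Γ.H then f ⟨x, x, []⟩ else 0) :=
    tsum_eq_sum fun x hx => if_neg hx
  refine (tsum_congr (β := V d) h).trans (h2.trans ?_)
  exact Finset.sum_congr rfl fun x hx => if_pos hx

/-- one clean step -/
lemma MasD_step {P : Par d} {Γ st : St d} (hΓ : good P Γ) (hst : good P st)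
    (hx : st.x ∉ occ Γ.H) {q : Stp d} (hadj : ¬ adj Γ st q.2.1)
    (hk : kk P (kernG P Γ) (epG P Γ) st q ≠ 0) :
    (nxt P st q).x ∉ occ Γ.H ∧
      kk P (kernG P Γ) (epG P Γ) st q = kk P (kern0 P) (ep0 P) st q := by
  classical
  obtain ⟨v, B, y, s⟩ := q
  unfold kk at hk ⊢
  dsimp only at hk hadj ⊢
  by_cases hgx : gx P st v B y s
  swap
  · rw [if_neg hgx] at hk
    exact absurd rfl hk
  rw [if_pos hgx] at hk
  rw [if_pos hgx, if_pos hgx]
  have hker : kernG P Γ st B = cl P.p (occ st.H ∪ occ Γ.H) st.x B := by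
    unfold kernG
    rw [if_neg hx]
  rw [hker] at hk ⊢
  have hc : cl P.p (occ st.H ∪ occ Γ.H) st.x B ≠ 0 := left_ne_zero_of_mul (left_ne_zero_of_mul hk)
  have hxS : st.x ∉ occ st.H ∪ occ Γ.H := by
    rw [Finset.mem_union]
    rintro (h | h)
    · exact good_notMem hst h
    · exact hx h
  obtain ⟨hBd, hxB⟩ := cl_disj hxS hc
  rw [Finset.disjoint_union_right] at hBd
  obtain ⟨hBS, hBA⟩ := hBd
  have hyB : y ∈ B := hgx.2.2.1
  have hyA : y ∉ occ Γ.H := fun h => Finset.disjoint_left.1 hBA hyB h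
  have hy' : y + step s ∉ occ Γ.H := by
    intro h
    apply hadj
    refine ⟨y + step s, Finset.mem_sdiff.2 ⟨h, ?_⟩, opp s, ?_⟩
    · obtain ⟨-, -, -, -, -, -, l, -, hl, -⟩ := hgx
      intro h2
      apply hl _ (geo_head_pvs _ _)
      rw [occ, Finset.mem_union]
      exact Or.inr h2
    · rw [step_opp, add_neg_cancel_right]
      exact hyB
  refine ⟨hy', ?_⟩
  have hj : ¬ junc Γ.x Γ.H y (y + step s) := by
    intro h
    rcases (junc_spec hΓ h).2.1 with h | h
    · exact hyA h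
    · exact hy' h
  have hep : epG P Γ y s = ep0 P y s := by
    unfold epG ep0
    rw [if_neg hj]
  have hcl : cl P.p (occ st.H ∪ occ Γ.H) st.x B = cl P.p (occ st.H) st.x B := by
    refine cl_eq P.p Finset.subset_union_left hxB ?_ ?_
    · rw [Finset.disjoint_union_right]
      exact ⟨hBS, hBA⟩
    · intro w hw s' hs'
      refine hadj ⟨w, ?_, s', hs'⟩
      rw [Finset.mem_sdiff, Finset.mem_union] at hw
      rw [Finset.mem_sdiff]
      exact ⟨hw.1.resolve_left hw.2, hw.2⟩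
  rw [hep, hcl]
  rfl

/-- (R0) clean chains -/
lemma MasD_clean {P : Par d} {Γ : St d} (hΓ : good P Γ) (n : ℕ) (c : Ch d n)
    (hc : cln P Γ n c) (hw : wtc P (kernG P Γ) (epG P Γ) n c ≠ 0) :
    (stt P n c).x ∉ occ Γ.H ∧
      wtc P (kernG P Γ) (epG P Γ) n c = wtc P (kern0 P) (ep0 P) n c := by
  induction n with
  | zero => exact ⟨hc, rfl⟩
  | succ n ih =>
    obtain ⟨c, q⟩ := c
    have hw' : wtc P (kernG P Γ) (epG P Γ) n c * kk P (kernG P Γ) (epG P Γ) (stt P n c) q ≠ 0 := hw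
    have h1 := left_ne_zero_of_mul hw'
    have h2 := right_ne_zero_of_mul hw'
    obtain ⟨h3, h4⟩ := ih c hc.1 h1
    obtain ⟨h5, h6⟩ := MasD_step hΓ (wtc_good h1) h3 hc.2 h2
    refine ⟨h5, ?_⟩
    show wtc P (kernG P Γ) (epG P Γ) n c * kk P (kernG P Γ) (epG P Γ) (stt P n c) q =
      wtc P (kern0 P) (ep0 P) n c * kk P (kern0 P) (ep0 P) (stt P n c) q
    rw [h4, h6]

open Classical in
lemma MasD_Opa (P : Par d) (Γ st : St d) (f : St d → ℝ≥0∞) :
    ∑' q : Stp d, (if adj Γ st q.2.1 then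
      kk P (kernG P Γ) (epG P Γ) st q * f (nxt P st q) else 0) =
      ∑ v ∈ steps P.i0, Opa P Γ v f st := by
  have h1 : ∑' q : Stp d, (if adj Γ st q.2.1 then
      kk P (kernG P Γ) (epG P Γ) st q * f (nxt P st q) else 0) = ∑' v : V d, Opa P Γ v f st :=
    ENNReal.tsum_prod' (f := fun q : Stp d => if adj Γ st q.2.1 then
      kk P (kernG P Γ) (epG P Γ) st q * f (nxt P st q) else 0)
  rw [h1]
  refine tsum_eq_sum fun v hv => ?_
  refine ENNReal.tsum_eq_zero.2 fun q => ?_
  have h2 : kk P (kernG P Γ) (epG P Γ) st (v, q) = 0 := by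
    unfold kk
    rw [if_neg]
    rintro ⟨h3, -⟩
    exact hv h3
  rw [h2, zero_mul, ite_self]

open Classical in
/-- (R2) a chain is dirty if it was dirty before or if its last step is adjacent to the first chain -/
theorem MasD_succ {P : Par d} (Γ : St d) (hΓ : good P Γ) (i : ℕ) (f : St d → ℝ≥0∞) :
    MasD P Γ (i + 1) f ≤ MasD P Γ i (Op P (kernG P Γ) (epG P Γ) f) +
      MasF P i (fun st => if st.x ∈ occ Γ.H then 0 else ∑ v ∈ steps P.i0, Opa P Γ v f st) := by
  have h0 : MasD P Γ (i + 1) f = ∑' c : Ch d i, ∑' q : Stp d,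
      (if cln P Γ i c ∧ ¬ adj Γ (stt P i c) q.2.1 then 0 else
        (wtc P (kernG P Γ) (epG P Γ) i c * kk P (kernG P Γ) (epG P Γ) (stt P i c) q) *
          f (nxt P (stt P i c) q)) := by
    refine (tsum_Ch_succ i (fun c => if cln P Γ (i + 1) c then 0 else
      wtc P (kernG P Γ) (epG P Γ) (i + 1) c * f (stt P (i + 1) c))).trans ?_
    exact tsum_congr fun c => tsum_congr fun q => if_congr Iff.rfl rfl rfl
  rw [h0]
  unfold MasD MasF
  rw [← ENNReal.tsum_add]
  refine ENNReal.tsum_le_tsum fun c => ?_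
  by_cases hc : cln P Γ i c
  · rw [if_pos hc, zero_add]
    by_cases hw : wtc P (kernG P Γ) (epG P Γ) i c = 0
    · rw [ENNReal.tsum_eq_zero.2]
      · exact zero_le
      · intro q
        rw [hw, zero_mul, zero_mul, ite_self]
    · obtain ⟨h1, h2⟩ := MasD_clean hΓ i c hc hw
      dsimp only
      rw [if_neg h1, ← MasD_Opa, ← h2, ← ENNReal.tsum_mul_left]
      refine ENNReal.tsum_le_tsum fun q => ?_
      by_cases ha : adj Γ (stt P i c) q.2.1
      · rw [if_neg (fun h => h.2 ha), if_pos ha, mul_assoc]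
      · rw [if_pos ⟨hc, ha⟩]
        exact zero_le
  · rw [if_neg hc]
    refine le_trans (le_of_eq ?_) le_self_add
    unfold Op
    rw [← ENNReal.tsum_mul_left]
    refine tsum_congr fun q => ?_
    rw [if_neg (fun h => hc h.1), mul_assoc]

open Classical in
/-- (R1) the mass is at most the free mass off `Γ` plus the dirty mass -/
theorem Mas_le {P : Par d} (Γ : St d) (hΓ : good P Γ) (i : ℕ) (f : St d → ℝ≥0∞) :
    Mas P Γ i f ≤ MasF P i (fun st => if st.x ∈ occ Γ.H then 0 else f st) + MasD P Γ i f := by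
  unfold Mas MasF MasD
  rw [← ENNReal.tsum_add]
  refine ENNReal.tsum_le_tsum fun c => ?_
  by_cases hc : cln P Γ i c
  · rw [if_pos hc, add_zero]
    by_cases hw : wtc P (kernG P Γ) (epG P Γ) i c = 0
    · rw [hw, zero_mul]
      exact zero_le
    · obtain ⟨h1, h2⟩ := MasD_clean hΓ i c hc hw
      dsimp only
      rw [if_neg h1, h2]
  · rw [if_neg hc]
    exact le_add_self

lemma NDE_eq (P : Par d) (Γ : St d) (i : ℕ) (A : Finset (V d)) :
    NDE P Γ i A = ∑ y ∈ A, ND P Γ i y := by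
  classical
  unfold NDE ND
  rw [← MasD_sum]
  congr 1
  funext st
  rw [Finset.sum_ite_eq]

lemma NE_le {P : Par d} {Γ : St d} (hΓ : good P Γ) (i : ℕ) {A : Finset (V d)}
    (hA : A ⊆ occ Γ.H) : NE P Γ i A ≤ NDE P Γ i A := by
  classical
  unfold NE NDE
  refine (Mas_le Γ hΓ i _).trans ?_
  have h : MasF P i (fun st => if st.x ∈ occ Γ.H then 0 else
      (if st.x ∈ A then (1 : ℝ≥0∞) else 0)) = 0 := by
    unfold MasF
    refine ENNReal.tsum_eq_zero.2 fun c => ?_
    dsimp only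
    by_cases h1 : (stt P i c).x ∈ occ Γ.H
    · rw [if_pos h1, mul_zero]
    · rw [if_neg h1, if_neg (fun h2 => h1 (hA h2)), mul_zero]
  rw [h, zero_add]

lemma ND_zero_le (P : Par d) (Γ : St d) (y : V d) : ND P Γ 0 y ≤ 1 := by
  classical
  unfold ND
  rw [MasD_zero]
  have h : ∑ x ∈ occ Γ.H, (if x = y then (1 : ℝ≥0∞) else 0) = if y ∈ occ Γ.H then 1 else 0 :=
    Finset.sum_ite_eq' (occ Γ.H) y (fun _ => (1 : ℝ≥0∞))
  refine (le_of_eq h).trans ?_
  split_ifs
  · exact le_rfl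
  · exact zero_le

lemma NDE_zero_le (P : Par d) (Γ : St d) (A : Finset (V d)) : NDE P Γ 0 A ≤ A.card := by
  rw [NDE_eq]
  refine (Finset.sum_le_sum fun y _ => ND_zero_le P Γ y).trans (le_of_eq ?_)
  rw [Finset.sum_const, nsmul_eq_mul, mul_one]

lemma BD_zero (P : Par d) (Γ : St d) (z0 : V d) :
    BD P Γ 0 z0 = ((occ Γ.H ∩ cell P.L z0).card : ℝ≥0∞) := by
  classical
  unfold BD
  rw [MasD_zero]
  have h : ∑ x ∈ occ Γ.H, (if x ∈ cell P.L z0 then (1 : ℝ≥0∞) else 0) =
      ((occ Γ.H ∩ cell P.L z0).card : ℝ≥0∞) := by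
    rw [← Finset.sum_filter, Finset.filter_mem_eq_inter, Finset.sum_const, nsmul_eq_mul, mul_one]
  refine Eq.trans ?_ h
  exact Finset.sum_congr rfl fun x _ => rfl

end CG
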