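import Pool.Agent.H5.CG.MasD
import Pool.Agent.H70.CG.Ss
import Pool.Agent.H70.CG.Rw

/-!
JOB CG-MassA (MP_0d9ad5_pr, note 2748, (B2), statement (1)): sums over the box `cell (2 L) z`. Adapt
`H70/CF/MassA.lean`. massA_V, massA_occ: `box_V`, `box_occ` (H70/CG/Ss.lean, job of others, black boxes) with
`S = cell (2 L) z` (points within `2 L ≤ 4 L` of `z`). massA_adj: `box_occ` with `S = cell (2 L) z` translated by `step s`
(`nm (y + step s - z) ≤ 2 L + 1 ≤ 4 L`), sum over `s`. massA_J: `Mass_junc` (a junction end is within distance one of a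
position), each position contributes at most `3^d` points, only if it is within `2 L + 1 ≤ 3 L` of `z`:
`1 ≤ 4^16 dmp (z - e.x)` (`one_le_dmp`). rho_move: `dmp_move` (H5/CG/KerA.lean).
-/

namespace CG

open H5DF H95LBD MeasureTheory
open scoped ENNReal

variable {d : ℕ}

lemma massA_box {P : Par d} (hL : 1 ≤ P.L) {st : St d} (h : good P st) {z : V d}
    (hz : st.z ∈ cell P.L z) : st.x ∈ cell (2 * P.L) z := by
  have h1 := good_cell hL h
  rw [mem_cell] at *
  intro i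
  have h2 := h1 i
  have h3 := hz i
  push_cast
  omega

lemma massA_nm {L : ℕ} {z x : V d} (hx : x ∈ cell (2 * L) z) : nm (z - x) ≤ 2 * L := by
  rw [mem_cell] at hx
  rw [nm_le]
  intro i
  have h := hx i
  rw [Pi.sub_apply]
  push_cast at h
  omega

/-- moving the argument of `rho` -/
lemma rho_move {P : Par d} (hL : 1 ≤ P.L) (Γ : St d) {x z : V d} {r : ℕ}
    (h : nm (z - x) ≤ r * P.L) :
    rho P Γ x ≤ ENNReal.ofReal ((1 + (r : ℝ)) ^ 16) * rho P Γ z := by
  have key : ∀ w : V d, dmp P.L (x - w) ≤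
      ENNReal.ofReal ((1 + (r : ℝ)) ^ 16) * dmp P.L (z - w) := by
    intro w
    refine dmp_move hL ?_
    rw [sub_sub_sub_cancel_right, nm_sub_comm]
    exact h
  unfold rho
  rw [mul_add]
  refine add_le_add ?_ (key _)
  induction Γ.H with
  | nil => simp
  | cons e H ih =>
    rw [List.map_cons, List.map_cons, List.sum_cons, List.sum_cons, mul_add]
    exact add_le_add (key _) ih

/-- a junction end is near a position -/
lemma massA_junc {P : Par d} : ∀ (H : List (Ent d)) (z x a b : V d), gh P z x H → junc x H a b →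
    nm (a - x) ≤ 1 ∨ ∃ e ∈ H, nm (a - e.x) ≤ 1
  | [], _, _, _, _, _, h => h.elim
  | e :: H, z, x, a, b, hg, h => by
    obtain ⟨hg1, v, s, _, hx, _⟩ := hg
    rcases h with h | h | h
    · left
      rw [h.1, hx, sub_add_cancel_left, nm_neg, nm_step]
    · left
      rw [h.1, sub_self, nm_zero]
      omega
    · right
      rcases massA_junc H e.z e.x a b hg1 h with h1 | ⟨e', he', h1⟩
      · exact ⟨e, List.mem_cons_self, h1⟩
      · exact ⟨e', List.mem_cons_of_mem _ he', h1⟩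

lemma massA_cnt {P : Par d} (hL : 1 ≤ P.L) (z p : V d)
    [DecidablePred fun x : V d => nm (x - p) ≤ 1] :
    ∑ x ∈ cell (2 * P.L) z, (if nm (x - p) ≤ 1 then (1 : ℝ≥0∞) else 0) ≤
      ENNReal.ofReal (3 ^ d * 4 ^ 16) * dmp P.L (z - p) := by
  rw [← Finset.sum_filter, Finset.sum_const, nsmul_eq_mul, mul_one]
  by_cases hne : ((cell (2 * P.L) z).filter fun x => nm (x - p) ≤ 1).Nonempty
  · obtain ⟨x, hx⟩ := hne
    rw [Finset.mem_filter] at hx
    have h1 : nm (z - p) ≤ 2 * P.L + 1 := by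
      have h2 := nm_tri z x p
      have h3 := massA_nm hx.1
      have := hx.2
      omega
    have h2 : nm (z - p) ≤ 3 * P.L := by omega
    have h3 := one_le_dmp hL h2
    have e3 : ((1 + ((3 : ℕ) : ℝ)) ^ 16 : ℝ) = 4 ^ 16 := by norm_num
    rw [e3] at h3
    have h4 : (((cell (2 * P.L) z).filter fun x => nm (x - p) ≤ 1).card : ℝ≥0∞) ≤
        ENNReal.ofReal (3 ^ d) := by
      have h5 : ((cell (2 * P.L) z).filter fun x => nm (x - p) ≤ 1).card ≤ (Box d 1).card := by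
        refine Finset.card_le_card_of_injOn (fun x => x - p) ?_ ?_
        · intro y hy
          rw [Finset.mem_coe, Finset.mem_filter] at hy
          exact mem_Box'.2 hy.2
        · intro a _ b _ hab
          exact sub_left_injective hab
      rw [card_Box] at h5
      rw [← ENNReal.ofReal_natCast]
      refine ENNReal.ofReal_le_ofReal ?_
      exact_mod_cast h5
    calc (((cell (2 * P.L) z).filter fun x => nm (x - p) ≤ 1).card : ℝ≥0∞)
        ≤ ENNReal.ofReal (3 ^ d) * 1 := by rw [mul_one]; exact h4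
      _ ≤ ENNReal.ofReal (3 ^ d) * (ENNReal.ofReal (4 ^ 16) * dmp P.L (z - p)) :=
          mul_le_mul' le_rfl h3
      _ = ENNReal.ofReal (3 ^ d * 4 ^ 16) * dmp P.L (z - p) := by
          rw [ENNReal.ofReal_mul (by positivity), mul_assoc]
  · rw [Finset.not_nonempty_iff_eq_empty] at hne
    rw [hne, Finset.card_empty, Nat.cast_zero]
    exact zero_le

open Classical in
theorem massA_J : ∃ C : ℝ, 0 < C ∧ ∀ P : Par d, 1 ≤ P.L → ∀ Γ : St d, good P Γ → ∀ z : V d,
    ∑ x ∈ cell (2 * P.L) z,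
      (if ∃ s : Dir d, junc Γ.x Γ.H x (x + step s) then (1 : ℝ≥0∞) else 0) ≤
      ENNReal.ofReal C * rho P Γ z := by
  refine ⟨3 ^ d * 4 ^ 16, by positivity, fun P hL Γ hΓ z => ?_⟩
  have h1 : ∀ x : V d, (if ∃ s : Dir d, junc Γ.x Γ.H x (x + step s) then (1 : ℝ≥0∞) else 0) ≤
      (Γ.H.map fun e => if nm (x - e.x) ≤ 1 then (1 : ℝ≥0∞) else 0).sum +
        if nm (x - Γ.x) ≤ 1 then 1 else 0 := by
    intro x
    by_cases h : ∃ s : Dir d, junc Γ.x Γ.H x (x + step s)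
    · rw [if_pos h]
      obtain ⟨s, hs⟩ := h
      rcases massA_junc Γ.H Γ.z Γ.x x _ hΓ hs with h2 | ⟨e, he, h2⟩
      · rw [if_pos h2]
        exact le_add_self
      · refine le_trans ?_ le_self_add
        refine le_trans (le_of_eq ?_) (List.single_le_sum
          (fun _ _ => zero_le) _ (List.mem_map_of_mem he))
        rw [if_pos h2]
    · rw [if_neg h]
      exact zero_le
  refine (Finset.sum_le_sum fun x _ => h1 x).trans ?_
  rw [Finset.sum_add_distrib]
  unfold rho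
  rw [mul_add]
  refine add_le_add ?_ (massA_cnt hL z Γ.x)
  induction Γ.H with
  | nil => simp
  | cons e H ih =>
    simp only [List.map_cons, List.sum_cons, Finset.sum_add_distrib, mul_add]
    exact add_le_add (massA_cnt hL z e.x) ih

open Classical in
theorem massA_adj : ∃ C : ℝ, 0 < C ∧ ∀ (pm pM a A Λ c3 : ℝ) (l : ℕ) (P : Par d),
    Reg d pm pM a A Λ c3 l P → ∀ Γ : St d, good P Γ → ∀ z : V d,
    ∑ x ∈ cell (2 * P.L) z, (if ∃ s : Dir d, x + step s ∈ occ Γ.H then (1 : ℝ≥0∞) else 0) ≤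
      ENNReal.ofReal (C * Λ * (P.L : ℝ) ^ 4) * rho P Γ z := by
  obtain ⟨C, hC, hb⟩ := box_occ (d := d)
  refine ⟨(2 * d + 1) * C, by positivity, fun pm pM a A Λ c3 l P hR Γ hΓ z => ?_⟩
  have hL : 1 ≤ P.L := by
    rw [hR.L_eq]
    exact Nat.one_le_pow _ _ hR.hl
  have hΛ := hR.hΛ
  have h1 : ∀ x : V d, (if ∃ s : Dir d, x + step s ∈ occ Γ.H then (1 : ℝ≥0∞) else 0) ≤
      ∑ s : Dir d, if x + step s ∈ occ Γ.H then 1 else 0 := by
    intro x
    by_cases h : ∃ s : Dir d, x + step s ∈ occ Γ.H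
    · rw [if_pos h]
      obtain ⟨s, hs⟩ := h
      refine le_trans (le_of_eq ?_) (Finset.single_le_sum
        (f := fun s : Dir d => if x + step s ∈ occ Γ.H then (1 : ℝ≥0∞) else 0)
        (fun _ _ => zero_le) (Finset.mem_univ s))
      simp only [if_pos hs]
    · rw [if_neg h]
      exact zero_le
  have h2 : ∀ s : Dir d, ∑ x ∈ cell (2 * P.L) z, (if x + step s ∈ occ Γ.H then (1 : ℝ≥0∞) else 0) ≤
      ENNReal.ofReal (C * Λ * (P.L : ℝ) ^ 4) * rho P Γ z := by
    intro s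
    have h3 : ∀ y ∈ (cell (2 * P.L) z).image (fun x => x + step s), nm (y - z) ≤ 4 * P.L := by
      intro y hy
      rw [Finset.mem_image] at hy
      obtain ⟨x, hx, rfl⟩ := hy
      have h3 := massA_nm hx
      have h4 : nm (z - (x + step s)) ≤ nm (z - x) + 1 := by
        have h5 := nm_tri z x (x + step s)
        rwa [sub_add_cancel_left, nm_neg, nm_step] at h5
      rw [nm_sub_comm]
      omega
    refine le_trans ?_ (hb pm pM a A Λ c3 l P hR Γ hΓ z _ h3)
    rw [← Finset.sum_filter, Finset.sum_const, nsmul_eq_mul, mul_one]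
    have h4 : ((cell (2 * P.L) z).filter fun x => x + step s ∈ occ Γ.H).card ≤
        (occ Γ.H ∩ (cell (2 * P.L) z).image (fun x => x + step s)).card := by
      refine Finset.card_le_card_of_injOn (fun x => x + step s) ?_ ?_
      · intro x hx
        rw [Finset.mem_coe, Finset.mem_filter] at hx
        rw [Finset.mem_coe, Finset.mem_inter, Finset.mem_image]
        exact ⟨hx.2, x, hx.1, rfl⟩
      · intro a _ b _ hab
        exact add_left_injective _ hab
    exact_mod_cast h4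
  calc ∑ x ∈ cell (2 * P.L) z, (if ∃ s : Dir d, x + step s ∈ occ Γ.H then (1 : ℝ≥0∞) else 0)
      ≤ ∑ x ∈ cell (2 * P.L) z, ∑ s : Dir d, (if x + step s ∈ occ Γ.H then (1 : ℝ≥0∞) else 0) :=
        Finset.sum_le_sum fun x _ => h1 x
    _ = ∑ s : Dir d, ∑ x ∈ cell (2 * P.L) z, (if x + step s ∈ occ Γ.H then (1 : ℝ≥0∞) else 0) :=
        Finset.sum_comm
    _ ≤ ∑ _s : Dir d, ENNReal.ofReal (C * Λ * (P.L : ℝ) ^ 4) * rho P Γ z :=
        Finset.sum_le_sum fun s _ => h2 s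
    _ = ENNReal.ofReal ((2 * d) * (C * Λ * (P.L : ℝ) ^ 4)) * rho P Γ z := by
        rw [Finset.sum_const, Finset.card_univ, Fintype.card_prod, Fintype.card_fin,
          Fintype.card_bool, nsmul_eq_mul, ← mul_assoc, ← ENNReal.ofReal_natCast,
          ← ENNReal.ofReal_mul (Nat.cast_nonneg _)]
        congr 2
        push_cast
        ring
    _ ≤ ENNReal.ofReal ((2 * d + 1) * C * Λ * (P.L : ℝ) ^ 4) * rho P Γ z := by
        refine mul_le_mul' (ENNReal.ofReal_le_ofReal ?_) le_rfl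
        have : 0 ≤ C * Λ * (P.L : ℝ) ^ 4 := by positivity
        nlinarith

open Classical in
theorem massA_occ : ∃ C : ℝ, 0 < C ∧ ∀ (pm pM a A Λ c3 : ℝ) (l : ℕ) (P : Par d),
    Reg d pm pM a A Λ c3 l P → ∀ Γ : St d, good P Γ → ∀ z : V d,
    ∑ x ∈ cell (2 * P.L) z, (if x ∈ occ Γ.H then (1 : ℝ≥0∞) else 0) ≤
      ENNReal.ofReal (C * Λ * (P.L : ℝ) ^ 4) * rho P Γ z := by
  obtain ⟨C, hC, hb⟩ := box_occ (d := d)
  refine ⟨C, hC, fun pm pM a A Λ c3 l P hR Γ hΓ z => ?_⟩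
  refine le_trans (le_of_eq ?_) (hb pm pM a A Λ c3 l P hR Γ hΓ z (cell (2 * P.L) z) ?_)
  · rw [← Finset.sum_filter, Finset.sum_const, nsmul_eq_mul, mul_one, Finset.filter_mem_eq_inter,
      Finset.inter_comm]
  · intro y hy
    have h3 := massA_nm hy
    rw [nm_sub_comm]
    omega

/-- the potential summed over the box -/
theorem massA_V (A : ℝ) (hA : 1 ≤ A) : ∃ C : ℝ, 0 < C ∧ ∀ (pm pM a Λ c3 : ℝ) (l : ℕ) (P : Par d),
    Reg d pm pM a A Λ c3 l P → ∀ Γ : St d, good P Γ → ∀ z : V d,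
    ∑ x ∈ cell (2 * P.L) z, Vp P.p (occ Γ.H) x ≤
      ENNReal.ofReal (C * Λ * (P.L : ℝ) ^ 8) * rho P Γ z := by
  obtain ⟨C, hC, hb⟩ := box_V (d := d) A hA
  refine ⟨C, hC, fun pm pM a Λ c3 l P hR Γ hΓ z => ?_⟩
  refine hb pm pM a Λ c3 l P hR Γ hΓ z _ ?_
  intro y hy
  have h3 := massA_nm hy
  rw [nm_sub_comm]
  omega

/-- the potential is at most `L ^ 2` everywhere (`occ_pot`, `rho_le`, `L = l ^ 4`, `l` large) -/
theorem massA_pot (hd : 9 ≤ d) (A Λ : ℝ) (hA : 1 ≤ A) (hΛ : 1 ≤ Λ) : ∃ l0 : ℕ,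
    ∀ (pm pM a c3 : ℝ) (l : ℕ) (P : Par d), l0 ≤ l → Reg d pm pM a A Λ c3 l P → ∀ Γ : St d,
      good P Γ → ∀ x : V d, Vp P.p (occ Γ.H) x ≤ ENNReal.ofReal ((P.L : ℝ) ^ 2) := by
  obtain ⟨C, hC, hb⟩ := occ_pot (d := d) A hA
  obtain ⟨C2, hC2, hr⟩ := rho_le (d := d) (by omega)
  obtain ⟨l0, hl0⟩ := exists_nat_ge (C + C * Λ * C2)
  refine ⟨l0, fun pm pM a c3 l P hl hR Γ hΓ x => ?_⟩
  have hl1 : (1 : ℝ) ≤ l := by exact_mod_cast hR.hl
  have hL : 1 ≤ P.L := by
    rw [hR.L_eq]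
    exact Nat.one_le_pow _ _ hR.hl
  have hll : C + C * Λ * C2 ≤ l := hl0.trans (by exact_mod_cast hl)
  refine (hb pm pM a Λ c3 l P hR Γ hΓ x).1.trans ?_
  have h1 : ENNReal.ofReal (C * Λ) * rho P Γ x ≤ ENNReal.ofReal (C * Λ * C2) := by
    rw [ENNReal.ofReal_mul (q := C2) (by positivity)]
    exact mul_le_mul' le_rfl (hr P hL Γ hΓ x)
  refine (add_le_add le_rfl h1).trans ?_
  rw [← ENNReal.ofReal_add (by positivity) (by positivity)]
  refine ENNReal.ofReal_le_ofReal ?_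
  rw [hR.L_eq]
  push_cast
  have e1 : ((l : ℝ) ^ 4) ^ 2 = l ^ 4 * l ^ 4 := by ring
  rw [e1]
  have h2 : (l : ℝ) ≤ l ^ 4 := by
    calc (l : ℝ) = l ^ 1 := (pow_one _).symm
      _ ≤ l ^ 4 := pow_le_pow_right₀ hl1 (by norm_num)
  have h3 : (1 : ℝ) ≤ (l : ℝ) ^ 4 := one_le_pow₀ hl1
  have h4 : 0 ≤ C * Λ * C2 := by positivity
  calc C * (l : ℝ) ^ 4 + C * Λ * C2 ≤ C * (l : ℝ) ^ 4 + C * Λ * C2 * (l : ℝ) ^ 4 := by
        nlinarith
    _ = (C + C * Λ * C2) * (l : ℝ) ^ 4 := by ring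
    _ ≤ l ^ 4 * l ^ 4 := by
        refine mul_le_mul_of_nonneg_right (hll.trans h2) (by positivity)

end CG
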