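import Pool.Agent.H5.CG.MasD
import Pool.Agent.H70.CG.Ss
import Pool.Agent.H70.CG.Step
import Pool.Agent.H70.CG.StepOn

/-!
JOB CG-MassB (MP_0d9ad5_pr, note 2748, (B2), statement (1)): the total mass of one step. Adapt `H70/CF/MassB.lean`.
massB_off: `step_off` with `Gf = 1`, `a = 0`, `cv = 1`, `F = 1`, `m0 = c3 s L^2`; `s2_le`, `s5_le`, `s6_le` (H70/CG/Ss.lean,
black boxes), `m0⁻¹ s = 1/(c3 L^2)`, `m0⁻¹ ≤ 1`. massB_on: `step_on` with `F = 1`, `good_card`, `ent_adj` (`3 b4 ≤ c3/8 L^2`).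
massB_ad (new): `Opa P Γ v 1 st`: for an adjacent cluster `B` (`adj`) the term is at most
`cl (occ st.H ∪ AA) B * nrm * epG`, `nrm ≤ n0⁻¹ m0⁻¹` (`Step_nrm_le`), `epG y s ≤ s + [y = Γ.x and y + step s = e.y ∈ K]`
(`junc_last`, as in `Step_pt`, `y ∈ B` is off `AA`), so by `Step_two`, `Step_shift`, `Step_comm4` (as hC in `step_off`)
and `Step_one` (as hE): `Opa ≤ n0⁻¹ m0⁻¹ (s S2 + S6)`; then `s2_le` and `Vp` monotone.
-/

namespace CG

open H5DF H95LBD MeasureTheory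
open scoped ENNReal

variable {d : ℕ}

lemma MassB_s {pm pM a A Λ c3 : ℝ} {l : ℕ} {P : Par d} (hR : Reg d pm pM a A Λ c3 l P) :
    0 < P.s := by
  have h1 := hR.K0
  have h2 : 0 < 16 / c3 := div_pos (by norm_num) hR.hc3
  rcases hR.s0.lt_or_eq with h | h
  · exact h
  · rw [← h, zero_mul] at h1
    linarith

lemma MassB_m {pm pM a A Λ c3 : ℝ} {l : ℕ} {P : Par d} (hR : Reg d pm pM a A Λ c3 l P) :
    16 ≤ c3 * P.s * (P.L : ℝ) ^ 2 := by
  have h1 := hR.K0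
  rw [div_le_iff₀ hR.hc3] at h1
  linarith

lemma MassB_inv_s {pm pM a A Λ c3 : ℝ} {l : ℕ} {P : Par d} (hR : Reg d pm pM a A Λ c3 l P) :
    (ENNReal.ofReal (c3 * P.s * (P.L : ℝ) ^ 2))⁻¹ * ENNReal.ofReal P.s =
      ENNReal.ofReal (1 / (c3 * (P.L : ℝ) ^ 2)) := by
  have hm := MassB_m hR
  have hs := MassB_s hR
  have hc := hR.hc3
  have hL : (0 : ℝ) < P.L := by exact_mod_cast hR.kin.L1
  rw [← ENNReal.ofReal_inv_of_pos (by linarith), ← ENNReal.ofReal_mul (by positivity)]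
  congr 1
  field_simp

lemma MassB_inv_le {pm pM a A Λ c3 : ℝ} {l : ℕ} {P : Par d} (hR : Reg d pm pM a A Λ c3 l P) :
    (ENNReal.ofReal (c3 * P.s * (P.L : ℝ) ^ 2))⁻¹ ≤ 1 := by
  rw [ENNReal.inv_le_one, ENNReal.one_le_ofReal]
  linarith [MassB_m hR]

/-- the part with `S2` -/
lemma MassB_t2 {pm A Λ c3 C2 : ℝ} (hC2 : 0 < C2) {pM a : ℝ} {l : ℕ} {P : Par d}
    (hR : Reg d pm pM a A Λ c3 l P) (Γ st : St d) (v : V d)
    (h2 : S2 P Γ st v ≤ ENNReal.ofReal (C2 * (P.L : ℝ) ^ 2) * Vp P.p (occ Γ.H \ occ st.H) st.x) :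
    ENNReal.ofReal (1 / (c3 * (P.L : ℝ) ^ 2)) * S2 P Γ st v ≤
      ENNReal.ofReal (C2 / c3) * Vp P.p (occ Γ.H) st.x := by
  have hL0 : (0 : ℝ) < P.L := by exact_mod_cast hR.kin.L1
  have hc3 := hR.hc3
  have hV : Vp P.p (occ Γ.H \ occ st.H) st.x ≤ Vp P.p (occ Γ.H) st.x :=
    Finset.sum_le_sum_of_subset Finset.sdiff_subset
  calc ENNReal.ofReal (1 / (c3 * (P.L : ℝ) ^ 2)) * S2 P Γ st v
      ≤ ENNReal.ofReal (1 / (c3 * (P.L : ℝ) ^ 2)) *
          (ENNReal.ofReal (C2 * (P.L : ℝ) ^ 2) * Vp P.p (occ Γ.H) st.x) :=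
        mul_le_mul' le_rfl (h2.trans (mul_le_mul' le_rfl hV))
    _ = ENNReal.ofReal (C2 / c3) * Vp P.p (occ Γ.H) st.x := by
        rw [← mul_assoc, ← ENNReal.ofReal_mul (by positivity)]
        congr 2
        field_simp

open Classical in
/-- the pointwise bound for the adjacent clusters -/
lemma MassB_pt (P : Par d) (m0 : ℝ≥0∞)
    (hm : ∀ st, good P st → ∀ v ∈ steps P.i0, m0 ≤ mm P st v) (Γ st : St d) (hΓ : good P Γ)
    (hst : good P st) (hx : st.x ∉ occ Γ.H) (v : V d) (hv : v ∈ steps P.i0)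
    (q : Finset (V d) × V d × Dir d) :
    (if adj Γ st q.1 then kk P (kernG P Γ) (epG P Γ) st (v, q) * 1 else 0) ≤
      cl P.p (occ st.H ∪ occ Γ.H) st.x q.1 *
          (if q.2.1 ∈ q.1 ∧ ∃ w ∈ occ Γ.H \ occ st.H, ∃ s' : Dir d, w + step s' ∈ q.1 then 1 else 0) *
          (if q.2.1 + step q.2.2 ∈ cell P.L (st.z + (P.L : ℤ) • v) then
            ((steps P.i0).card : ℝ≥0∞)⁻¹ * m0⁻¹ * ENNReal.ofReal P.s else 0) +
      cl P.p (occ st.H ∪ occ Γ.H) st.x q.1 * (if q.2.1 ∈ q.1 then 1 else 0) *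
          (if q.2.1 = Γ.x ∧ ∃ e ∈ Γ.H.head?, e.y = q.2.1 + step q.2.2 ∧
              e.y ∈ cell P.L (st.z + (P.L : ℤ) • v) then
            ((steps P.i0).card : ℝ≥0∞)⁻¹ * m0⁻¹ else 0) := by
  obtain ⟨B, y, s⟩ := q
  dsimp only
  set S := occ st.H with hS
  set AA := occ Γ.H with hAA
  set K := cell P.L (st.z + (P.L : ℤ) • v) with hK
  set N := ((steps P.i0).card : ℝ≥0∞)⁻¹ * m0⁻¹ with hN
  have hnrm : nrm P st v ≤ N := Step_nrm_le (hm st hst v hv)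
  by_cases had : adj Γ st B
  swap
  · rw [if_neg had]
    exact zero_le
  rw [if_pos had]
  have had' : ∃ w ∈ AA \ S, ∃ s' : Dir d, w + step s' ∈ B := had
  unfold kk
  dsimp only
  by_cases hgx : gx P st v B y s
  swap
  · rw [if_neg hgx, zero_mul]
    exact zero_le
  rw [if_pos hgx]
  have hker : kernG P Γ st B = cl P.p (S ∪ AA) st.x B := by
    unfold kernG
    rw [if_neg hx]
  rw [hker]
  by_cases hc : cl P.p (S ∪ AA) st.x B = 0
  · rw [hc]
    simp only [zero_mul]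
    exact zero_le
  have hxS : st.x ∉ S ∪ AA := by
    rw [Finset.mem_union]
    rintro (h | h)
    · exact good_notMem hst h
    · exact hx h
  obtain ⟨hBd, hxB⟩ := cl_disj hxS hc
  rw [Finset.disjoint_union_right] at hBd
  obtain ⟨hBS, hBA⟩ := hBd
  have hyB : y ∈ B := hgx.2.2.1
  have hyA : y ∉ AA := fun h => Finset.disjoint_left.1 hBA hyB h
  have hyK : y + step s ∈ K := hgx.2.2.2.2.2.1
  rw [if_pos hyB, if_pos hyK, if_pos ⟨hyB, had'⟩, mul_one, mul_one]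
  by_cases hj : junc Γ.x Γ.H y (y + step s)
  · have hj2 := junc_last hΓ (junc_symm hj) hyA
    have hep : epG P Γ y s = 1 := by
      unfold epG
      rw [if_pos hj]
    rw [hep]
    have hcond : y = Γ.x ∧ ∃ e ∈ Γ.H.head?, e.y = y + step s ∧ e.y ∈ K := by
      obtain ⟨h1, e, he, h2⟩ := hj2
      exact ⟨h1, e, he, h2.symm, by rw [← h2]; exact hyK⟩
    rw [if_pos hcond, mul_one]
    refine le_trans ?_ le_add_self
    exact mul_le_mul' le_rfl hnrm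
  · have hep : epG P Γ y s = ENNReal.ofReal P.s := by
      unfold epG
      rw [if_neg hj]
    rw [hep]
    refine le_trans ?_ le_self_add
    calc cl P.p (S ∪ AA) st.x B * ENNReal.ofReal P.s * nrm P st v
        ≤ cl P.p (S ∪ AA) st.x B * ENNReal.ofReal P.s * N := mul_le_mul' le_rfl hnrm
      _ = cl P.p (S ∪ AA) st.x B * (N * ENNReal.ofReal P.s) := by ring

/-- the sum over the adjacent clusters -/
lemma MassB_sum2 (P : Par d) (h0 : 0 ≤ P.p) (h1 : P.p ≤ 1) (Γ st : St d) (v : V d) (M : ℝ≥0∞) :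
    open Classical in
    (∑' q : Finset (V d) × V d × Dir d,
      cl P.p (occ st.H ∪ occ Γ.H) st.x q.1 *
          (if q.2.1 ∈ q.1 ∧ ∃ w ∈ occ Γ.H \ occ st.H, ∃ s' : Dir d, w + step s' ∈ q.1 then 1 else 0) *
          (if q.2.1 + step q.2.2 ∈ cell P.L (st.z + (P.L : ℤ) • v) then M else 0)) ≤
      M * S2 P Γ st v := by
  classical
  set K := cell P.L (st.z + (P.L : ℤ) • v) with hK
  refine (Step_two h0 h1 (occ st.H ∪ occ Γ.H) st.x (occ Γ.H \ occ st.H)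
    (fun r : V d × Dir d => if r.1 + step r.2 ∈ K then M else 0)).trans ?_
  have h2 := Step_shift K (fun (y : V d) (s : Dir d) =>
    (∑ w ∈ occ Γ.H \ occ st.H, ∑ s' : Dir d, Tr P.p st.x (y - step s) (w + step s')) * M)
  have h3 : (∑' r : V d × Dir d,
      (∑ w ∈ occ Γ.H \ occ st.H, ∑ s' : Dir d, Tr P.p st.x r.1 (w + step s')) *
      (if r.1 + step r.2 ∈ K then M else 0)) =
      ∑' q : V d × Dir d, (if q.1 + step q.2 ∈ K then
        (∑ w ∈ occ Γ.H \ occ st.H, ∑ s' : Dir d,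
          Tr P.p st.x (q.1 + step q.2 - step q.2) (w + step s')) * M else 0) := by
    refine tsum_congr fun r => ?_
    rw [add_sub_cancel_right]
    split_ifs
    · rfl
    · rw [mul_zero]
  rw [h3, h2]
  refine le_of_eq ?_
  have h4 : S2 P Γ st v = ∑ y ∈ K, ∑ s : Dir d, ∑ w ∈ occ Γ.H \ occ st.H, ∑ s' : Dir d,
      Tr P.p st.x (y - step s) (w + step s') := by
    unfold S2
    exact Step_comm4 _ _ _ _ _
  rw [h4, Finset.mul_sum]
  refine Finset.sum_congr rfl fun y _ => ?_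
  rw [Finset.mul_sum]
  refine Finset.sum_congr rfl fun s _ => ?_
  rw [mul_comm]

/-- the sum over the clusters with the linking edge -/
lemma MassB_sum6 (P : Par d) (h0 : 0 ≤ P.p) (h1 : P.p ≤ 1) (Γ st : St d) (v : V d) (M : ℝ≥0∞) :
    open Classical in
    (∑' q : Finset (V d) × V d × Dir d,
      cl P.p (occ st.H ∪ occ Γ.H) st.x q.1 * (if q.2.1 ∈ q.1 then 1 else 0) *
          (if q.2.1 = Γ.x ∧ ∃ e ∈ Γ.H.head?, e.y = q.2.1 + step q.2.2 ∧
              e.y ∈ cell P.L (st.z + (P.L : ℤ) • v) then M else 0)) ≤ M * S6 P Γ st v := by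
  classical
  set K := cell P.L (st.z + (P.L : ℤ) • v) with hK
  refine (Step_one h0 h1 (occ st.H ∪ occ Γ.H) st.x (fun r : V d × Dir d =>
    if r.1 = Γ.x ∧ ∃ e ∈ Γ.H.head?, e.y = r.1 + step r.2 ∧ e.y ∈ K then M else 0)).trans ?_
  by_cases hex : ∃ e ∈ Γ.H.head?, e.y ∈ K
  · obtain ⟨e, he, heK⟩ := hex
    have hS6 : S6 P Γ st v = tau d P.p (Γ.x - st.x) := by
      unfold S6
      rw [if_pos ⟨e, he, heK⟩]
    rw [hS6]
    rw [ENNReal.tsum_prod', tsum_eq_single Γ.x]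
    · rw [tsum_fintype]
      dsimp only
      rw [← Finset.mul_sum]
      have h5 : (∑ s : Dir d, (if Γ.x = Γ.x ∧ ∃ e ∈ Γ.H.head?, e.y = Γ.x + step s ∧ e.y ∈ K then
          M else 0)) ≤ M := by
        by_cases hs : ∃ s0 : Dir d, e.y = Γ.x + step s0
        · obtain ⟨s0, hs0⟩ := hs
          rw [Finset.sum_eq_single s0]
          · split_ifs
            · exact le_rfl
            · exact zero_le
          · intro s _ hne
            rw [if_neg]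
            rintro ⟨_, e', he', h6, _⟩
            have : e' = e := by
              rw [Option.mem_def] at he he'
              rw [he] at he'
              exact (Option.some.inj he').symm
            rw [this, hs0] at h6
            exact hne (Step_inj (add_left_cancel h6)).symm
          · intro h
            exact absurd (Finset.mem_univ _) h
        · rw [Finset.sum_eq_zero]
          · exact zero_le
          · intro s _
            rw [if_neg]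
            rintro ⟨_, e', he', h6, _⟩
            have : e' = e := by
              rw [Option.mem_def] at he he'
              rw [he] at he'
              exact (Option.some.inj he').symm
            rw [this] at h6
            exact hs ⟨s, h6⟩
      rw [mul_comm]
      exact mul_le_mul' h5 le_rfl
    · intro y hy
      rw [tsum_fintype]
      refine Finset.sum_eq_zero fun s _ => ?_
      rw [if_neg (fun h => hy h.1), mul_zero]
  · refine le_of_eq_of_le ?_ (zero_le)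
    rw [ENNReal.tsum_eq_zero]
    intro r
    rw [if_neg, mul_zero]
    rintro ⟨_, e, he, _, hK'⟩
    exact hex ⟨e, he, hK'⟩

theorem massB_off (pm A Λ c3 : ℝ) (hpm : 0 < pm) (hA : 1 ≤ A) (hΛ : 1 ≤ Λ)
    (hc3 : 0 < c3) : ∃ α β : ℝ, 0 < α ∧ 0 < β ∧ ∀ (pM a : ℝ) (l : ℕ) (P : Par d),
      Reg d pm pM a A Λ c3 l P → ∀ Γ st : St d, good P Γ → good P st → st.x ∉ occ Γ.H →
      ∀ v ∈ steps P.i0, Opv P (kernG P Γ) (epG P Γ) v (fun _ => 1) st ≤
        ((steps P.i0).card : ℝ≥0∞)⁻¹ * (1 + (ENNReal.ofReal α * Vp P.p (occ Γ.H) st.x +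
          ENNReal.ofReal (β / (P.L : ℝ) ^ 12) * rho P Γ st.z)) := by
  obtain ⟨C2, hC2, hs2⟩ := s2_le (d := d) pm A hpm hA
  obtain ⟨C5, hC5, hs5⟩ := s5_le (d := d) A hA
  obtain ⟨C6, hC6, hs6⟩ := s6_le (d := d) A hA
  have hΛ0 : 0 < Λ := by linarith
  refine ⟨2 * C2 / c3, C5 * Λ / c3 + C6, by positivity, by positivity,
    fun pM a l P hR Γ st hΓ hst hx v hv => ?_⟩
  have hL1 := hR.kin.L1
  have hL0 : (0 : ℝ) < P.L := by exact_mod_cast hL1
  have hLr : (1 : ℝ) ≤ P.L := by exact_mod_cast hL1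
  set m0 : ℝ≥0∞ := ENNReal.ofReal (c3 * P.s * (P.L : ℝ) ^ 2) with hm0
  have h := step_off P hL1 hR.kin.h0 hR.kin.h1 m0 hR.mm_ge Γ st hΓ hst hx 0 1
    (fun _ => 1) (fun _ => by norm_num) (fun _ => 1) (fun _ _ _ => by simp) (fun _ _ _ => le_rfl)
    v hv
  refine h.trans (mul_le_mul' le_rfl (add_le_add le_rfl ?_))
  rw [zero_mul, zero_add, one_mul, one_mul, mul_add, ← mul_assoc, MassB_inv_s hR]
  have h2 := hs2 pM a Λ c3 l P hR Γ st hΓ hst v hv
  have h5 := hs5 pm pM a Λ c3 l P hR Γ st hΓ hst v hv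
  have h6 := hs6 pm pM a Λ c3 l P hR Γ st hΓ hst v hv
  have t2 : ENNReal.ofReal (1 / (c3 * (P.L : ℝ) ^ 2)) * (2 * S2 P Γ st v) ≤
      ENNReal.ofReal (2 * C2 / c3) * Vp P.p (occ Γ.H) st.x := by
    have h3 := MassB_t2 hC2 hR Γ st v h2
    calc ENNReal.ofReal (1 / (c3 * (P.L : ℝ) ^ 2)) * (2 * S2 P Γ st v)
        = ENNReal.ofReal 2 * (ENNReal.ofReal (1 / (c3 * (P.L : ℝ) ^ 2)) * S2 P Γ st v) := by
          rw [ENNReal.ofReal_ofNat]
          ring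
      _ ≤ ENNReal.ofReal 2 * (ENNReal.ofReal (C2 / c3) * Vp P.p (occ Γ.H) st.x) :=
          mul_le_mul' le_rfl h3
      _ = ENNReal.ofReal (2 * C2 / c3) * Vp P.p (occ Γ.H) st.x := by
          rw [← mul_assoc, ← ENNReal.ofReal_mul (by positivity), mul_div_assoc]
  have t5 : ENNReal.ofReal (1 / (c3 * (P.L : ℝ) ^ 2)) * S5 P Γ st v ≤
      ENNReal.ofReal (C5 * Λ / c3 / (P.L : ℝ) ^ 12) * rho P Γ st.z := by
    calc ENNReal.ofReal (1 / (c3 * (P.L : ℝ) ^ 2)) * S5 P Γ st v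
        ≤ ENNReal.ofReal (1 / (c3 * (P.L : ℝ) ^ 2)) * (ENNReal.ofReal (C5 * Λ / (P.L : ℝ) ^ 12) *
            rho P Γ st.z) := mul_le_mul' le_rfl h5
      _ = ENNReal.ofReal (1 / (c3 * (P.L : ℝ) ^ 2) * (C5 * Λ / (P.L : ℝ) ^ 12)) *
            rho P Γ st.z := by
          rw [← mul_assoc, ← ENNReal.ofReal_mul (by positivity)]
      _ ≤ ENNReal.ofReal (C5 * Λ / c3 / (P.L : ℝ) ^ 12) * rho P Γ st.z := by
          refine mul_le_mul' (ENNReal.ofReal_le_ofReal ?_) le_rfl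
          have e : 1 / (c3 * (P.L : ℝ) ^ 2) * (C5 * Λ / (P.L : ℝ) ^ 12) =
              C5 * Λ / c3 / (P.L : ℝ) ^ 12 * (1 / (P.L : ℝ) ^ 2) := by
            field_simp
          rw [e]
          refine mul_le_of_le_one_right (by positivity) ?_
          rw [div_le_one (by positivity)]
          exact one_le_pow₀ hLr
  have t6 : m0⁻¹ * S6 P Γ st v ≤ ENNReal.ofReal (C6 / (P.L : ℝ) ^ 12) * rho P Γ st.z := by
    calc m0⁻¹ * S6 P Γ st v ≤ 1 * (ENNReal.ofReal (C6 / (P.L : ℝ) ^ 16) * rho P Γ st.z) :=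
          mul_le_mul' (MassB_inv_le hR) h6
      _ ≤ ENNReal.ofReal (C6 / (P.L : ℝ) ^ 12) * rho P Γ st.z := by
          rw [one_mul]
          refine mul_le_mul' (ENNReal.ofReal_le_ofReal ?_) le_rfl
          exact div_le_div_of_nonneg_left hC6.le (by positivity)
            (pow_le_pow_right₀ hLr (by norm_num))
  rw [mul_add]
  calc ENNReal.ofReal (1 / (c3 * (P.L : ℝ) ^ 2)) * (2 * S2 P Γ st v) +
        ENNReal.ofReal (1 / (c3 * (P.L : ℝ) ^ 2)) * S5 P Γ st v + m0⁻¹ * S6 P Γ st v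
      ≤ ENNReal.ofReal (2 * C2 / c3) * Vp P.p (occ Γ.H) st.x +
          ENNReal.ofReal (C5 * Λ / c3 / (P.L : ℝ) ^ 12) * rho P Γ st.z +
          ENNReal.ofReal (C6 / (P.L : ℝ) ^ 12) * rho P Γ st.z :=
        add_le_add (add_le_add t2 t5) t6
    _ = ENNReal.ofReal (2 * C2 / c3) * Vp P.p (occ Γ.H) st.x +
          ENNReal.ofReal ((C5 * Λ / c3 + C6) / (P.L : ℝ) ^ 12) * rho P Γ st.z := by
        rw [add_assoc, ← add_mul, ← ENNReal.ofReal_add (by positivity) (by positivity), add_div]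

theorem massB_on (Λ c3 : ℝ) (hΛ : 1 ≤ Λ) (hc3 : 0 < c3) :
    ∃ γ : ℝ, 0 < γ ∧ ∀ (pm pM a A : ℝ) (l : ℕ) (P : Par d),
      Reg d pm pM a A Λ c3 l P → ∀ Γ st : St d, good P Γ → good P st → st.x ∈ occ Γ.H →
      ∀ v ∈ steps P.i0, Opv P (kernG P Γ) (epG P Γ) v (fun _ => 1) st ≤
        ((steps P.i0).card : ℝ≥0∞)⁻¹ * ENNReal.ofReal (γ * (P.L : ℝ) ^ 2) := by
  have hΛ0 : 0 < Λ := by linarith
  refine ⟨4 * d * Λ / c3 + 5, by positivity, fun pm pM a A l P hR Γ st hΓ hst hx v hv => ?_⟩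
  have hL1 := hR.kin.L1
  have hL0 : (0 : ℝ) < P.L := by exact_mod_cast hL1
  have hLr : (1 : ℝ) ≤ P.L := by exact_mod_cast hL1
  have hL2 : (1 : ℝ) ≤ (P.L : ℝ) ^ 2 := one_le_pow₀ hLr
  obtain ⟨e, he, hxe⟩ := mem_occ.1 hx
  set m0 : ℝ≥0∞ := ENNReal.ofReal (c3 * P.s * (P.L : ℝ) ^ 2) with hm0
  have h := step_on P hL1 hR.kin.h0 hR.kin.h1 m0 hR.mm_ge Γ st hΓ hst e he hxe 0 1
    (fun _ => 1) (fun _ _ _ => by norm_num) (fun _ _ _ => le_rfl) v hv
  refine h.trans (mul_le_mul' le_rfl ?_)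
  have hcard : (e.A.card : ℝ≥0∞) ≤ ENNReal.ofReal (Λ * (P.L : ℝ) ^ 4) := by
    rw [← hR.b1_eq]
    exact good_card hΓ he
  have hadj := ent_adj P Γ hΓ e he
  have hadj2 : 3 * P.b4 ≤ ENNReal.ofReal (c3 / 8 * (P.L : ℝ) ^ 2) := by
    refine (mul_le_mul' (le_refl (3 : ℝ≥0∞)) hR.b4_le).trans (le_of_eq ?_)
    rw [← ENNReal.ofReal_ofNat 3, ← ENNReal.ofReal_mul (by positivity)]
    congr 1
    ring
  have e1 : ∑ y ∈ e.A, ∑ s : Dir d, ((2 : ℝ≥0∞) + 0 * Vp P.p (occ Γ.H \ e.A) (y + step s)) =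
      ENNReal.ofReal (4 * d) * e.A.card := by
    simp only [zero_mul, add_zero, Finset.sum_const, Finset.card_univ, Fintype.card_prod,
      Fintype.card_fin, Fintype.card_bool, nsmul_eq_mul]
    rw [mul_comm]
    congr 1
    rw [ENNReal.ofReal_mul (by norm_num), ENNReal.ofReal_natCast, ENNReal.ofReal_ofNat]
    push_cast
    ring
  have key : ENNReal.ofReal P.s * (ENNReal.ofReal (4 * d) * e.A.card) +
      ENNReal.ofReal P.s * 1 * ∑ y ∈ e.A, ∑ s : Dir d,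
        (if y + step s ∈ occ Γ.H \ e.A then (1 : ℝ≥0∞) else 0) ≤
      ENNReal.ofReal P.s * ENNReal.ofReal (4 * d * Λ * (P.L : ℝ) ^ 4 + c3 / 8 * (P.L : ℝ) ^ 2) := by
    rw [mul_one, ← mul_add, ENNReal.ofReal_add (by positivity) (by positivity)]
    refine mul_le_mul' le_rfl (add_le_add ?_ (hadj.trans hadj2))
    calc ENNReal.ofReal (4 * d) * (e.A.card : ℝ≥0∞)
        ≤ ENNReal.ofReal (4 * d) * ENNReal.ofReal (Λ * (P.L : ℝ) ^ 4) := mul_le_mul' le_rfl hcard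
      _ = ENNReal.ofReal (4 * d * Λ * (P.L : ℝ) ^ 4) := by
          rw [← ENNReal.ofReal_mul (by positivity)]
          congr 1
          ring
  rw [e1, zero_mul, add_zero]
  calc m0⁻¹ * (ENNReal.ofReal P.s * (ENNReal.ofReal (4 * d) * e.A.card) +
        ENNReal.ofReal P.s * 1 * ∑ y ∈ e.A, ∑ s : Dir d,
          (if y + step s ∈ occ Γ.H \ e.A then (1 : ℝ≥0∞) else 0) + 2 * 1 + 2)
      ≤ m0⁻¹ * (ENNReal.ofReal P.s * ENNReal.ofReal (4 * d * Λ * (P.L : ℝ) ^ 4 +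
          c3 / 8 * (P.L : ℝ) ^ 2) + ENNReal.ofReal 4) := by
        refine mul_le_mul' le_rfl ?_
        rw [add_assoc]
        refine add_le_add key (le_of_eq ?_)
        rw [ENNReal.ofReal_ofNat, mul_one]
        norm_num
    _ = (m0⁻¹ * ENNReal.ofReal P.s) * ENNReal.ofReal (4 * d * Λ * (P.L : ℝ) ^ 4 +
          c3 / 8 * (P.L : ℝ) ^ 2) + m0⁻¹ * ENNReal.ofReal 4 := by
        rw [mul_add, ← mul_assoc m0⁻¹]
    _ ≤ ENNReal.ofReal (1 / (c3 * (P.L : ℝ) ^ 2)) * ENNReal.ofReal (4 * d * Λ * (P.L : ℝ) ^ 4 +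
          c3 / 8 * (P.L : ℝ) ^ 2) + 1 * ENNReal.ofReal 4 := by
        rw [MassB_inv_s hR]
        exact add_le_add le_rfl (mul_le_mul' (MassB_inv_le hR) le_rfl)
    _ = ENNReal.ofReal (4 * d * Λ / c3 * (P.L : ℝ) ^ 2 + 1 / 8 + 4) := by
        rw [one_mul, ← ENNReal.ofReal_mul (by positivity),
          ← ENNReal.ofReal_add (by positivity) (by positivity)]
        congr 2
        field_simp
    _ ≤ ENNReal.ofReal ((4 * d * Λ / c3 + 5) * (P.L : ℝ) ^ 2) := by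
        refine ENNReal.ofReal_le_ofReal ?_
        linarith

theorem massB_ad (pm A Λ c3 : ℝ) (hpm : 0 < pm) (hA : 1 ≤ A) (hΛ : 1 ≤ Λ)
    (hc3 : 0 < c3) : ∃ α : ℝ, 0 < α ∧ ∀ (pM a : ℝ) (l : ℕ) (P : Par d),
      Reg d pm pM a A Λ c3 l P → ∀ Γ st : St d, good P Γ → good P st → st.x ∉ occ Γ.H →
      ∀ v ∈ steps P.i0, Opa P Γ v (fun _ => 1) st ≤
        ((steps P.i0).card : ℝ≥0∞)⁻¹ * (ENNReal.ofReal α * Vp P.p (occ Γ.H) st.x +
          S6 P Γ st v) := by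
  obtain ⟨C2, hC2, hs2⟩ := s2_le (d := d) pm A hpm hA
  refine ⟨C2 / c3, by positivity, fun pM a l P hR Γ st hΓ hst hx v hv => ?_⟩
  classical
  set m0 : ℝ≥0∞ := ENNReal.ofReal (c3 * P.s * (P.L : ℝ) ^ 2) with hm0
  set n0 := ((steps P.i0).card : ℝ≥0∞)⁻¹ with hn0
  have h1 : Opa P Γ v (fun _ => 1) st ≤
      n0 * m0⁻¹ * ENNReal.ofReal P.s * S2 P Γ st v + n0 * m0⁻¹ * S6 P Γ st v := by
    unfold Opa
    refine (ENNReal.tsum_le_tsum fun q => MassB_pt P m0 hR.mm_ge Γ st hΓ hst hx v hv q).trans ?_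
    rw [ENNReal.tsum_add]
    exact add_le_add
      (MassB_sum2 P hR.kin.h0 hR.kin.h1 Γ st v (n0 * m0⁻¹ * ENNReal.ofReal P.s))
      (MassB_sum6 P hR.kin.h0 hR.kin.h1 Γ st v (n0 * m0⁻¹))
  refine h1.trans ?_
  have h2 := MassB_t2 hC2 hR Γ st v (hs2 pM a Λ c3 l P hR Γ st hΓ hst v hv)
  calc n0 * m0⁻¹ * ENNReal.ofReal P.s * S2 P Γ st v + n0 * m0⁻¹ * S6 P Γ st v
      = n0 * ((m0⁻¹ * ENNReal.ofReal P.s) * S2 P Γ st v + m0⁻¹ * S6 P Γ st v) := by ring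
    _ ≤ n0 * (ENNReal.ofReal (C2 / c3) * Vp P.p (occ Γ.H) st.x + 1 * S6 P Γ st v) := by
        refine mul_le_mul' le_rfl (add_le_add ?_ (mul_le_mul' (MassB_inv_le hR) le_rfl))
        rw [MassB_inv_s hR]
        exact h2
    _ = n0 * (ENNReal.ofReal (C2 / c3) * Vp P.p (occ Γ.H) st.x + S6 P Γ st v) := by
        rw [one_mul]

end CG
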