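import Pool.Agent.H5.CG.MassA
import Pool.Agent.H5.CG.MassB
import Pool.Agent.H5.CG.KerT

/-!
JOB CG-MassS (MP_0d9ad5_pr, note 2748, (B2), statement (1)): the recursion of the dirty box masses. Adapt
`H70/CF/Mass.lean`; `MasD`, `MassA`, `MassB` are black boxes. `MasD_succ` with `f = [z ∈ cell z0]`; for one coarse step
`v`: `z + L v ∈ cell z0` iff `z ∈ cell z'`, `z' = z0 - L v` (`Mass_Opv` of CF; the same for `Opa`).
MasD part (as in CF/Mass): `≤ Mo (BD i) + C L^8 Mo rho` by `massB_off`, `massB_on`, `massA_*` and the density bound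
(`Mass_comb` of CF); `β L^(-12) rho * BD ≤ C L^8 rho` since `BD ≤ L^9`.
MasF part: `massB_ad`: `≤ ∑_v n0⁻¹ MasF i ([z ∈ cell z'] (α V(x) + S6))`. `MasF i ([z ∈ cell z'] V(x)) ≤ ∑_{x ∈ cell (2L) z'} V(x)`
(`massA_box`, `MasF_x`), `massA_V`. S6: it is `tau (Γ.x - st.x)` if `e.y ∈ cell (st.z + L v)` for the newest entry `e`, and
`Γ.x = e.y + step s` (`good`), so `nm (Γ.x - z') ≤ 5 L`, so `1 ≤ 6^16 rho z'` (`one_le_dmp`, last term of `rho`):
`[z ∈ cell z'] S6 ≤ 6^16 rho z' tau (Γ.x - x)`, `MasF_x`, `∑' x, tau (Γ.x - x) ≤ A L^2` (`R.kin.tot`, `Equiv.subLeft`).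
-/

namespace CG

open H5DF H95LBD MeasureTheory
open scoped ENNReal

variable {d : ℕ}

lemma MassS_comb (S : Finset (V d)) (Vf Nf ad J oc : V d → ℝ≥0∞) (X : ℝ≥0∞)
    {Cd a1 a2 a3 a4 L : ℝ} (hCd : 0 ≤ Cd) (h1 : 0 ≤ a1) (h2 : 0 ≤ a2) (h3 : 0 ≤ a3) (h4 : 0 ≤ a4)
    (hL : 1 ≤ L)
    (hN : ∀ x, Nf x ≤ ENNReal.ofReal Cd + ENNReal.ofReal (Cd * L ^ 2) * ad x +
      ENNReal.ofReal (Cd * L ^ 4) * J x)
    (hV : ∀ x, Vf x ≤ ENNReal.ofReal (L ^ 2)) (hoc : ∀ x, oc x ≤ 1) (had : ∀ x, ad x ≤ 1)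
    (F1 : ∑ x ∈ S, Vf x ≤ ENNReal.ofReal (a1 * L ^ 8) * X)
    (F2 : ∑ x ∈ S, ad x ≤ ENNReal.ofReal (a2 * L ^ 4) * X)
    (F3 : ∑ x ∈ S, J x ≤ ENNReal.ofReal a3 * X)
    (F4 : ∑ x ∈ S, oc x ≤ ENNReal.ofReal (a4 * L ^ 4) * X) :
    ∑ x ∈ S, Vf x * Nf x ≤ ENNReal.ofReal (Cd * (a1 + a2 + a3) * L ^ 8) * X ∧
    ∑ x ∈ S, oc x * Nf x ≤ ENNReal.ofReal (Cd * (2 * a4 + a3) * L ^ 6) * X := by
  have hL0 : 0 < L := by linarith
  constructor
  · calc ∑ x ∈ S, Vf x * Nf x
        ≤ ∑ x ∈ S, (ENNReal.ofReal Cd * Vf x +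
            ENNReal.ofReal (Cd * L ^ 2) * ENNReal.ofReal (L ^ 2) * ad x +
            ENNReal.ofReal (Cd * L ^ 4) * ENNReal.ofReal (L ^ 2) * J x) := by
          refine Finset.sum_le_sum fun x _ => ?_
          calc Vf x * Nf x ≤ Vf x * (ENNReal.ofReal Cd + ENNReal.ofReal (Cd * L ^ 2) * ad x +
                ENNReal.ofReal (Cd * L ^ 4) * J x) := mul_le_mul' le_rfl (hN x)
            _ = ENNReal.ofReal Cd * Vf x + ENNReal.ofReal (Cd * L ^ 2) * Vf x * ad x +
                ENNReal.ofReal (Cd * L ^ 4) * Vf x * J x := by ring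
            _ ≤ _ := by
                refine add_le_add (add_le_add le_rfl ?_) ?_
                · exact mul_le_mul' (mul_le_mul' le_rfl (hV x)) le_rfl
                · exact mul_le_mul' (mul_le_mul' le_rfl (hV x)) le_rfl
      _ = ENNReal.ofReal Cd * ∑ x ∈ S, Vf x +
            ENNReal.ofReal (Cd * L ^ 2) * ENNReal.ofReal (L ^ 2) * ∑ x ∈ S, ad x +
            ENNReal.ofReal (Cd * L ^ 4) * ENNReal.ofReal (L ^ 2) * ∑ x ∈ S, J x := by
          rw [Finset.sum_add_distrib, Finset.sum_add_distrib, Finset.mul_sum, Finset.mul_sum,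
            Finset.mul_sum]
      _ ≤ ENNReal.ofReal Cd * (ENNReal.ofReal (a1 * L ^ 8) * X) +
            ENNReal.ofReal (Cd * L ^ 2) * ENNReal.ofReal (L ^ 2) *
              (ENNReal.ofReal (a2 * L ^ 4) * X) +
            ENNReal.ofReal (Cd * L ^ 4) * ENNReal.ofReal (L ^ 2) * (ENNReal.ofReal a3 * X) :=
          add_le_add (add_le_add (mul_le_mul' le_rfl F1) (mul_le_mul' le_rfl F2))
            (mul_le_mul' le_rfl F3)
      _ = ENNReal.ofReal (Cd * a1 * L ^ 8 + Cd * a2 * L ^ 8 + Cd * a3 * L ^ 6) * X := by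
          rw [← mul_assoc, ← mul_assoc, ← mul_assoc, ← ENNReal.ofReal_mul (by positivity),
            ← ENNReal.ofReal_mul (by positivity), ← ENNReal.ofReal_mul (by positivity),
            ← ENNReal.ofReal_mul (by positivity), ← ENNReal.ofReal_mul (by positivity),
            ← add_mul, ← add_mul, ← ENNReal.ofReal_add (by positivity) (by positivity),
            ← ENNReal.ofReal_add (by positivity) (by positivity)]
          congr 2
          ring
      _ ≤ ENNReal.ofReal (Cd * (a1 + a2 + a3) * L ^ 8) * X := by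
          refine mul_le_mul' (ENNReal.ofReal_le_ofReal ?_) le_rfl
          have e : L ^ 6 ≤ L ^ 8 := pow_le_pow_right₀ hL (by norm_num)
          have e2 : 0 ≤ Cd * a3 := by positivity
          nlinarith [mul_le_mul_of_nonneg_left e e2]
  · calc ∑ x ∈ S, oc x * Nf x
        ≤ ∑ x ∈ S, (ENNReal.ofReal Cd * oc x + ENNReal.ofReal (Cd * L ^ 2) * oc x +
            ENNReal.ofReal (Cd * L ^ 4) * J x) := by
          refine Finset.sum_le_sum fun x _ => ?_
          calc oc x * Nf x ≤ oc x * (ENNReal.ofReal Cd + ENNReal.ofReal (Cd * L ^ 2) * ad x +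
                ENNReal.ofReal (Cd * L ^ 4) * J x) := mul_le_mul' le_rfl (hN x)
            _ = ENNReal.ofReal Cd * oc x + ENNReal.ofReal (Cd * L ^ 2) * oc x * ad x +
                ENNReal.ofReal (Cd * L ^ 4) * (oc x * J x) := by ring
            _ ≤ ENNReal.ofReal Cd * oc x + ENNReal.ofReal (Cd * L ^ 2) * oc x * 1 +
                ENNReal.ofReal (Cd * L ^ 4) * (1 * J x) := by
                refine add_le_add (add_le_add le_rfl (mul_le_mul' le_rfl (had x))) ?_
                exact mul_le_mul' le_rfl (mul_le_mul' (hoc x) le_rfl)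
            _ = _ := by rw [mul_one, one_mul]
      _ = ENNReal.ofReal Cd * ∑ x ∈ S, oc x + ENNReal.ofReal (Cd * L ^ 2) * ∑ x ∈ S, oc x +
            ENNReal.ofReal (Cd * L ^ 4) * ∑ x ∈ S, J x := by
          rw [Finset.sum_add_distrib, Finset.sum_add_distrib, Finset.mul_sum, Finset.mul_sum,
            Finset.mul_sum]
      _ ≤ ENNReal.ofReal Cd * (ENNReal.ofReal (a4 * L ^ 4) * X) +
            ENNReal.ofReal (Cd * L ^ 2) * (ENNReal.ofReal (a4 * L ^ 4) * X) +
            ENNReal.ofReal (Cd * L ^ 4) * (ENNReal.ofReal a3 * X) :=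
          add_le_add (add_le_add (mul_le_mul' le_rfl F4) (mul_le_mul' le_rfl F4))
            (mul_le_mul' le_rfl F3)
      _ = ENNReal.ofReal (Cd * a4 * L ^ 4 + Cd * a4 * L ^ 6 + Cd * a3 * L ^ 4) * X := by
          rw [← mul_assoc, ← mul_assoc, ← mul_assoc, ← ENNReal.ofReal_mul (by positivity),
            ← ENNReal.ofReal_mul (by positivity), ← ENNReal.ofReal_mul (by positivity),
            ← add_mul, ← add_mul, ← ENNReal.ofReal_add (by positivity) (by positivity),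
            ← ENNReal.ofReal_add (by positivity) (by positivity)]
          congr 2
          ring
      _ ≤ ENNReal.ofReal (Cd * (2 * a4 + a3) * L ^ 6) * X := by
          refine mul_le_mul' (ENNReal.ofReal_le_ofReal ?_) le_rfl
          have e : L ^ 4 ≤ L ^ 6 := pow_le_pow_right₀ hL (by norm_num)
          have e2 : 0 ≤ Cd * a3 := by positivity
          have e3 : 0 ≤ Cd * a4 := by positivity
          nlinarith [mul_le_mul_of_nonneg_left e e2, mul_le_mul_of_nonneg_left e e3]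

open Classical in
lemma MassS_cell {P : Par d} (v z0 z : V d) :
    (z + (P.L : ℤ) • v ∈ cell P.L z0) ↔ z ∈ cell P.L (z0 - (P.L : ℤ) • v) := by
  rw [mem_cell, mem_cell]
  refine forall_congr' fun i => ?_
  simp only [Pi.add_apply, Pi.sub_apply, Pi.smul_apply, smul_eq_mul]
  constructor
  · rintro ⟨h1, h2⟩
    constructor <;> linarith
  · rintro ⟨h1, h2⟩
    constructor <;> linarith

open Classical in
lemma MassS_Opv (P : Par d) (kern : St d → Finset (V d) → ℝ≥0∞) (ep : V d → Dir d → ℝ≥0∞)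
    (v z0 : V d) (st : St d) :
    Opv P kern ep v (fun st' => if st'.z ∈ cell P.L z0 then 1 else 0) st =
      (if st.z ∈ cell P.L (z0 - (P.L : ℤ) • v) then 1 else 0) *
        Opv P kern ep v (fun _ => 1) st := by
  have h := MassS_cell (P := P) v z0 st.z
  unfold Opv
  rw [← ENNReal.tsum_mul_left]
  refine tsum_congr fun q => ?_
  have e : (nxt P st (v, q)).z = st.z + (P.L : ℤ) • v := rfl
  simp only [e, h]
  rw [mul_one, mul_comm]

open Classical in
lemma MassS_Opa (P : Par d) (Γ : St d) (v z0 : V d) (st : St d) :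
    Opa P Γ v (fun st' => if st'.z ∈ cell P.L z0 then 1 else 0) st =
      (if st.z ∈ cell P.L (z0 - (P.L : ℤ) • v) then 1 else 0) *
        Opa P Γ v (fun _ => 1) st := by
  have h := MassS_cell (P := P) v z0 st.z
  unfold Opa
  rw [← ENNReal.tsum_mul_left]
  refine tsum_congr fun q => ?_
  have e : (nxt P st (v, q)).z = st.z + (P.L : ℤ) • v := rfl
  simp only [e, h]
  by_cases ha : adj Γ st q.1
  · rw [if_pos ha, if_pos ha, mul_one, mul_comm]
  · rw [if_neg ha, if_neg ha, mul_zero]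

open Classical in
/-- the last sum: the newest exit vertex is in the next cell -/
lemma MassS_S6 {P : Par d} (hL : 1 ≤ P.L) {Γ st : St d} (hΓ : good P Γ) {v z : V d}
    (hv : v ∈ steps P.i0) :
    (if st.z ∈ cell P.L z then (1 : ℝ≥0∞) else 0) * S6 P Γ st v ≤
      ENNReal.ofReal (6 ^ 16) * rho P Γ z * tau d P.p (Γ.x - st.x) := by
  by_cases hz : st.z ∈ cell P.L z
  swap
  · rw [if_neg hz, zero_mul]
    exact zero_le
  rw [if_pos hz, one_mul]
  unfold S6
  split_ifs with hh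
  swap
  · exact zero_le
  obtain ⟨e, he, hy⟩ := hh
  obtain ⟨z', x', H'⟩ := Γ
  cases H' with
  | nil => simp at he
  | cons e0 H0 =>
    have he' : e0 = e := by simpa using he
    subst he'
    obtain ⟨-, v', s, -, hx, -⟩ : gh P z' x' (e0 :: H0) := hΓ
    have h1 := Ss_cell hv hy
    have h2 := nm_add_step (e0.y - z) s
    have e3 : e0.y - z + step s = x' - z := by rw [hx]; abel
    rw [e3] at h2
    have h3 : nm (st.z - z) ≤ P.L := by
      rw [mem_cell] at hz
      rw [nm_le]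
      intro j
      have h := hz j
      rw [Pi.sub_apply]
      omega
    have h4 : nm (e0.y - z) ≤ 4 * P.L := by
      have e4 : e0.y - z = (e0.y - st.z) + (st.z - z) := by abel
      have h5 := nm_add (e0.y - st.z) (st.z - z)
      rw [← e4] at h5
      omega
    have h6 : nm (z - x') ≤ 5 * P.L := by
      rw [← nm_neg, neg_sub]
      omega
    have h9 := one_le_dmp hL h6
    have h10 : dmp P.L (z - x') ≤ rho P ⟨z', x', e0 :: H0⟩ z :=
      Ss_rho_x P ⟨z', x', e0 :: H0⟩ z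
    calc tau d P.p (x' - st.x) = 1 * tau d P.p (x' - st.x) := (one_mul _).symm
      _ ≤ ENNReal.ofReal ((1 + ((5 : ℕ) : ℝ)) ^ 16) * dmp P.L (z - x') *
          tau d P.p (x' - st.x) := mul_le_mul' h9 le_rfl
      _ ≤ ENNReal.ofReal (6 ^ 16) * rho P ⟨z', x', e0 :: H0⟩ z * tau d P.p (x' - st.x) := by
          refine mul_le_mul' (mul_le_mul' (ENNReal.ofReal_le_ofReal ?_) h10) le_rfl
          norm_num

open Classical in
/-- the free mass of the box -/
lemma MassS_F {P : Par d} (h0 : 0 ≤ P.p) (h1 : P.p ≤ 1) (hs0 : 0 ≤ P.s) (hs1 : P.s ≤ 1)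
    (hL : 1 ≤ P.L) (i : ℕ) (f : V d → ℝ≥0∞) (z : V d) :
    MasF P i (fun st => (if st.z ∈ cell P.L z then 1 else 0) * f st.x) ≤
      ∑ x ∈ cell (2 * P.L) z, f x := by
  calc MasF P i (fun st => (if st.z ∈ cell P.L z then 1 else 0) * f st.x)
      ≤ MasF P i (fun st => (fun x => if x ∈ cell (2 * P.L) z then f x else 0) st.x) := by
        refine MasF_mono fun st hst => ?_
        by_cases hz : st.z ∈ cell P.L z
        · simp only [if_pos hz, if_pos (massA_box hL hst hz), one_mul]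
          exact le_rfl
        · rw [if_neg hz, zero_mul]
          exact zero_le
    _ ≤ ∑' x : V d, (if x ∈ cell (2 * P.L) z then f x else 0) := MasF_x h0 h1 hs0 hs1 i _
    _ = ∑ x ∈ cell (2 * P.L) z, (if x ∈ cell (2 * P.L) z then f x else 0) :=
        tsum_eq_sum fun x hx => if_neg hx
    _ = ∑ x ∈ cell (2 * P.L) z, f x := Finset.sum_congr rfl fun x hx => if_pos hx

open Classical in
theorem massS_step (hd : 9 ≤ d) (pm pM a A Λ c3 Cd : ℝ) (hpm : 0 < pm) (hA : 1 ≤ A)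
    (hΛ : 1 ≤ Λ) (hc3 : 0 < c3) (hCd : 0 < Cd) : ∃ (Cm : ℝ) (l0 : ℕ), 0 < Cm ∧
    ∀ (l : ℕ) (P : Par d), l0 ≤ l → Reg d pm pM a A Λ c3 l P → P.s ≤ 1 → ∀ Γ : St d, good P Γ →
      ∀ i : ℕ, (∀ z0, BD P Γ i z0 ≤ ENNReal.ofReal ((P.L : ℝ) ^ 9)) →
      (∀ y, ND P Γ i y ≤ ENNReal.ofReal Cd +
        ENNReal.ofReal (Cd * (P.L : ℝ) ^ 2) * (if ∃ s : Dir d, y + step s ∈ occ Γ.H then 1 else 0) +
        ENNReal.ofReal (Cd * (P.L : ℝ) ^ 4) *
          (if ∃ s : Dir d, junc Γ.x Γ.H y (y + step s) then 1 else 0)) →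
      ∀ z0, BD P Γ (i + 1) z0 ≤ Mo P false (BD P Γ i) z0 +
        ENNReal.ofReal (Cm * (P.L : ℝ) ^ 8) * Mo P false (rho P Γ) z0 := by
  obtain ⟨α, β, hα, hβ, hoff⟩ := massB_off (d := d) pm A Λ c3 hpm hA hΛ hc3
  obtain ⟨γ, hγ, hon⟩ := massB_on (d := d) Λ c3 hΛ hc3
  obtain ⟨α', hα', had⟩ := massB_ad (d := d) pm A Λ c3 hpm hA hΛ hc3
  obtain ⟨CV, hCV, hVp⟩ := massA_V (d := d) A hA
  obtain ⟨CA, hCA, hadj⟩ := massA_adj (d := d)
  obtain ⟨CJ, hCJ, hJ⟩ := massA_J (d := d)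
  obtain ⟨CO, hCO, hO⟩ := massA_occ (d := d)
  obtain ⟨l0, hpot⟩ := massA_pot hd A Λ hA hΛ
  have hΛ0 : 0 < Λ := by linarith
  have hA0 : 0 < A := by linarith
  set a1 : ℝ := CV * Λ with ha1
  set a2 : ℝ := CA * Λ with ha2
  set a4 : ℝ := CO * Λ with ha4
  refine ⟨2 ^ 16 * β + α * (Cd * (a1 + a2 + CJ)) + γ * (Cd * (2 * a4 + CJ)) +
    (α' * a1 + 6 ^ 16 * A), l0, by positivity, fun l P hl hR hs1 Γ hΓ i hB hN z0 => ?_⟩
  have hL1 := hR.kin.L1
  have hL0 : (0 : ℝ) < P.L := by exact_mod_cast hL1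
  have hLr : (1 : ℝ) ≤ P.L := by exact_mod_cast hL1
  set n0 : ℝ≥0∞ := ((steps P.i0).card : ℝ≥0∞)⁻¹ with hn0
  set β' : ℝ≥0∞ := ENNReal.ofReal (β / (P.L : ℝ) ^ 12) with hβ'
  set W : V d → ℝ≥0∞ := fun x => ENNReal.ofReal α * Vp P.p (occ Γ.H) x +
    ENNReal.ofReal (γ * (P.L : ℝ) ^ 2) * (if x ∈ occ Γ.H then 1 else 0) with hW
  -- one step
  have hstep : ∀ st, good P st → ∀ v ∈ steps P.i0,
      Opv P (kernG P Γ) (epG P Γ) v (fun _ => 1) st ≤
        n0 * (1 + (W st.x + β' * rho P Γ st.z)) := by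
    intro st hst v hv
    by_cases hx : st.x ∈ occ Γ.H
    · refine (hon pm pM a A l P hR Γ st hΓ hst hx v hv).trans (mul_le_mul' le_rfl ?_)
      simp only [hW, if_pos hx, mul_one]
      exact (le_add_self.trans le_self_add).trans le_add_self
    · refine (hoff pM a l P hR Γ st hΓ hst hx v hv).trans (mul_le_mul' le_rfl ?_)
      simp only [hW, if_neg hx, mul_zero, add_zero]
      exact le_rfl
  have F1 : ∀ z' : V d, ∑ x ∈ cell (2 * P.L) z', Vp P.p (occ Γ.H) x ≤
      ENNReal.ofReal (a1 * (P.L : ℝ) ^ 8) * rho P Γ z' :=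
    fun z' => hVp pm pM a Λ c3 l P hR Γ hΓ z'
  -- the box, dirty chains
  have hbox : ∀ z' : V d, MasD P Γ i (fun st => (if st.z ∈ cell P.L z' then 1 else 0) *
      (1 + (W st.x + β' * rho P Γ st.z))) ≤ BD P Γ i z' +
      ENNReal.ofReal ((2 ^ 16 * β + α * (Cd * (a1 + a2 + CJ)) +
        γ * (Cd * (2 * a4 + CJ))) * (P.L : ℝ) ^ 8) * rho P Γ z' := by
    intro z'
    set X := rho P Γ z' with hX
    set E : ℝ≥0∞ := β' * (ENNReal.ofReal (2 ^ 16) * X) with hE
    have hpt : ∀ st, good P st → (if st.z ∈ cell P.L z' then (1 : ℝ≥0∞) else 0) *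
        (1 + (W st.x + β' * rho P Γ st.z)) ≤
        (1 + E) * (if st.z ∈ cell P.L z' then 1 else 0) +
          ∑ x ∈ cell (2 * P.L) z', W x * (if st.x = x then 1 else 0) := by
      intro st hst
      by_cases hz : st.z ∈ cell P.L z'
      · rw [if_pos hz, one_mul, mul_one]
        have h1 : rho P Γ st.z ≤ ENNReal.ofReal (2 ^ 16) * X := by
          have h2 : nm (z' - st.z) ≤ 1 * P.L := by
            rw [mem_cell] at hz
            rw [nm_le]
            intro j
            have h := hz j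
            rw [Pi.sub_apply]
            omega
          have h3 := rho_move hL1 Γ h2
          refine h3.trans (mul_le_mul' (ENNReal.ofReal_le_ofReal ?_) le_rfl)
          norm_num
        have h2 : W st.x ≤ ∑ x ∈ cell (2 * P.L) z', W x * (if st.x = x then 1 else 0) := by
          refine le_trans (le_of_eq ?_) (Finset.single_le_sum
            (f := fun x => W x * (if st.x = x then (1 : ℝ≥0∞) else 0))
            (fun _ _ => zero_le) (massA_box hL1 hst hz))
          simp only [if_true, mul_one]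
        calc 1 + (W st.x + β' * rho P Γ st.z)
            ≤ 1 + ((∑ x ∈ cell (2 * P.L) z', W x * (if st.x = x then 1 else 0)) + E) :=
              add_le_add le_rfl (add_le_add h2 (mul_le_mul' le_rfl h1))
          _ = _ := by ring
      · rw [if_neg hz, zero_mul]
        exact zero_le
    refine (MasD_mono hpt).trans ?_
    rw [MasD_add, MasD_mul, MasD_sum]
    have e1 : MasD P Γ i (fun st => if st.z ∈ cell P.L z' then 1 else 0) = BD P Γ i z' := rfl
    have e2 : ∀ x, MasD P Γ i (fun st => W x * (if st.x = x then 1 else 0)) =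
        W x * ND P Γ i x := fun x => MasD_mul P Γ i (W x) _
    rw [e1, Finset.sum_congr rfl fun x _ => e2 x]
    -- first part
    have hE2 : E * BD P Γ i z' ≤
        ENNReal.ofReal (2 ^ 16 * β * (P.L : ℝ) ^ 8) * X := by
      calc E * BD P Γ i z' ≤ E * ENNReal.ofReal ((P.L : ℝ) ^ 9) := mul_le_mul' le_rfl (hB z')
        _ = ENNReal.ofReal (β / (P.L : ℝ) ^ 12) * ENNReal.ofReal (2 ^ 16) *
              ENNReal.ofReal ((P.L : ℝ) ^ 9) * X := by
            rw [hE, hβ']
            ring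
        _ = ENNReal.ofReal (2 ^ 16 * β / (P.L : ℝ) ^ 3) * X := by
            rw [← ENNReal.ofReal_mul (by positivity), ← ENNReal.ofReal_mul (by positivity)]
            congr 2
            field_simp
        _ ≤ ENNReal.ofReal (2 ^ 16 * β * (P.L : ℝ) ^ 8) * X := by
            refine mul_le_mul' (ENNReal.ofReal_le_ofReal ?_) le_rfl
            have h1 : 2 ^ 16 * β / (P.L : ℝ) ^ 3 ≤ 2 ^ 16 * β :=
              div_le_self (by positivity) (one_le_pow₀ hLr)
            have h2 : 2 ^ 16 * β * 1 ≤ 2 ^ 16 * β * (P.L : ℝ) ^ 8 :=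
              mul_le_mul_of_nonneg_left (one_le_pow₀ hLr) (by positivity)
            linarith
    -- second part
    have F2 := hadj pm pM a A Λ c3 l P hR Γ hΓ z'
    have F3 := hJ P hL1 Γ hΓ z'
    have F4 := hO pm pM a A Λ c3 l P hR Γ hΓ z'
    have hV : ∀ x, Vp P.p (occ Γ.H) x ≤ ENNReal.ofReal ((P.L : ℝ) ^ 2) :=
      fun x => hpot pm pM a c3 l P hl hR Γ hΓ x
    obtain ⟨hVN, hON⟩ := MassS_comb (cell (2 * P.L) z') (Vp P.p (occ Γ.H)) (ND P Γ i)
      (fun x => if ∃ s : Dir d, x + step s ∈ occ Γ.H then 1 else 0)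
      (fun x => if ∃ s : Dir d, junc Γ.x Γ.H x (x + step s) then 1 else 0)
      (fun x => if x ∈ occ Γ.H then 1 else 0) X
      (Cd := Cd) (a1 := a1) (a2 := a2) (a3 := CJ) (a4 := a4) (L := (P.L : ℝ))
      hCd.le (by positivity) (by positivity) (by positivity) (by positivity) hLr hN hV
      (fun x => by split_ifs <;> simp) (fun x => by split_ifs <;> simp) (F1 z') F2 F3 F4
    have hWN : ∑ x ∈ cell (2 * P.L) z', W x * ND P Γ i x ≤
        ENNReal.ofReal ((α * (Cd * (a1 + a2 + CJ)) + γ * (Cd * (2 * a4 + CJ))) *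
          (P.L : ℝ) ^ 8) * X := by
      calc ∑ x ∈ cell (2 * P.L) z', W x * ND P Γ i x
          = ENNReal.ofReal α * ∑ x ∈ cell (2 * P.L) z', Vp P.p (occ Γ.H) x * ND P Γ i x +
            ENNReal.ofReal (γ * (P.L : ℝ) ^ 2) * ∑ x ∈ cell (2 * P.L) z',
              (if x ∈ occ Γ.H then 1 else 0) * ND P Γ i x := by
            rw [Finset.mul_sum, Finset.mul_sum, ← Finset.sum_add_distrib]
            refine Finset.sum_congr rfl fun x _ => ?_
            simp only [hW]
            ring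
        _ ≤ ENNReal.ofReal α * (ENNReal.ofReal (Cd * (a1 + a2 + CJ) * (P.L : ℝ) ^ 8) * X) +
            ENNReal.ofReal (γ * (P.L : ℝ) ^ 2) *
              (ENNReal.ofReal (Cd * (2 * a4 + CJ) * (P.L : ℝ) ^ 6) * X) :=
            add_le_add (mul_le_mul' le_rfl hVN) (mul_le_mul' le_rfl hON)
        _ = _ := by
            rw [← mul_assoc, ← mul_assoc, ← ENNReal.ofReal_mul (by positivity),
              ← ENNReal.ofReal_mul (by positivity), ← add_mul,
              ← ENNReal.ofReal_add (by positivity) (by positivity)]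
            congr 2
            ring
    calc (1 + E) * BD P Γ i z' + ∑ x ∈ cell (2 * P.L) z', W x * ND P Γ i x
        = BD P Γ i z' + (E * BD P Γ i z' + ∑ x ∈ cell (2 * P.L) z', W x * ND P Γ i x) := by ring
      _ ≤ BD P Γ i z' + (ENNReal.ofReal (2 ^ 16 * β * (P.L : ℝ) ^ 8) * X +
            ENNReal.ofReal ((α * (Cd * (a1 + a2 + CJ)) + γ * (Cd * (2 * a4 + CJ))) *
              (P.L : ℝ) ^ 8) * X) := add_le_add le_rfl (add_le_add hE2 hWN)
      _ = _ := by
          rw [← add_mul, ← ENNReal.ofReal_add (by positivity) (by positivity)]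
          congr 3
          ring
  -- the box, free chains
  have hfree : ∀ v ∈ steps P.i0, ∀ z' : V d,
      MasF P i (fun st => (if st.z ∈ cell P.L z' then 1 else 0) *
        (ENNReal.ofReal α' * Vp P.p (occ Γ.H) st.x + S6 P Γ st v)) ≤
      ENNReal.ofReal ((α' * a1 + 6 ^ 16 * A) * (P.L : ℝ) ^ 8) * rho P Γ z' := by
    intro v hv z'
    have h1 : MasF P i (fun st => (if st.z ∈ cell P.L z' then 1 else 0) *
        Vp P.p (occ Γ.H) st.x) ≤ ENNReal.ofReal (a1 * (P.L : ℝ) ^ 8) * rho P Γ z' :=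
      (MassS_F hR.kin.h0 hR.kin.h1 hR.s0 hs1 hL1 i (Vp P.p (occ Γ.H)) z').trans (F1 z')
    have h2 : MasF P i (fun st => tau d P.p (Γ.x - st.x)) ≤
        ENNReal.ofReal (A * (P.L : ℝ) ^ 2) := by
      refine (MasF_x hR.kin.h0 hR.kin.h1 hR.s0 hs1 i fun x => tau d P.p (Γ.x - x)).trans ?_
      have h3 : ∑' x : V d, tau d P.p (Γ.x - x) = ∑' x : V d, tau d P.p x :=
        (Equiv.subLeft Γ.x).tsum_eq (tau d P.p)
      rw [h3]
      exact hR.kin.tot
    have hpt : ∀ st, good P st → (if st.z ∈ cell P.L z' then (1 : ℝ≥0∞) else 0) *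
        (ENNReal.ofReal α' * Vp P.p (occ Γ.H) st.x + S6 P Γ st v) ≤
        ENNReal.ofReal α' * ((if st.z ∈ cell P.L z' then 1 else 0) * Vp P.p (occ Γ.H) st.x) +
          ENNReal.ofReal (6 ^ 16) * rho P Γ z' * tau d P.p (Γ.x - st.x) := by
      intro st _
      rw [mul_add, mul_left_comm]
      exact add_le_add le_rfl (MassS_S6 hL1 hΓ hv)
    refine (MasF_mono hpt).trans ?_
    rw [MasF_add, MasF_mul, MasF_mul]
    calc ENNReal.ofReal α' * MasF P i (fun st => (if st.z ∈ cell P.L z' then 1 else 0) *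
          Vp P.p (occ Γ.H) st.x) +
          ENNReal.ofReal (6 ^ 16) * rho P Γ z' * MasF P i (fun st => tau d P.p (Γ.x - st.x))
        ≤ ENNReal.ofReal α' * (ENNReal.ofReal (a1 * (P.L : ℝ) ^ 8) * rho P Γ z') +
          ENNReal.ofReal (6 ^ 16) * rho P Γ z' * ENNReal.ofReal (A * (P.L : ℝ) ^ 2) :=
          add_le_add (mul_le_mul' le_rfl h1) (mul_le_mul' le_rfl h2)
      _ = ENNReal.ofReal (α' * (a1 * (P.L : ℝ) ^ 8) + 6 ^ 16 * (A * (P.L : ℝ) ^ 2)) *
          rho P Γ z' := by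
          rw [ENNReal.ofReal_add (by positivity) (by positivity),
            ENNReal.ofReal_mul (q := a1 * (P.L : ℝ) ^ 8) hα'.le,
            ENNReal.ofReal_mul (q := A * (P.L : ℝ) ^ 2) (by norm_num : (0 : ℝ) ≤ 6 ^ 16)]
          ring
      _ ≤ _ := by
          refine mul_le_mul' (ENNReal.ofReal_le_ofReal ?_) le_rfl
          have h3 : A * (P.L : ℝ) ^ 2 ≤ A * (P.L : ℝ) ^ 8 :=
            mul_le_mul_of_nonneg_left (pow_le_pow_right₀ hLr (by norm_num)) hA0.le
          linarith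
  -- assembly
  have e0 : BD P Γ (i + 1) z0 ≤ MasD P Γ i (Op P (kernG P Γ) (epG P Γ)
      (fun st => if st.z ∈ cell P.L z0 then 1 else 0)) +
      MasF P i (fun st => if st.x ∈ occ Γ.H then 0 else ∑ v ∈ steps P.i0,
        Opa P Γ v (fun st => if st.z ∈ cell P.L z0 then 1 else 0) st) := MasD_succ Γ hΓ i _
  have hptD : ∀ st, good P st → Op P (kernG P Γ) (epG P Γ)
      (fun st => if st.z ∈ cell P.L z0 then 1 else 0) st ≤
      ∑ v ∈ steps P.i0, n0 * ((if st.z ∈ cell P.L (z0 - (P.L : ℤ) • v) then 1 else 0) *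
        (1 + (W st.x + β' * rho P Γ st.z))) := by
    intro st hst
    rw [Op_eq]
    refine Finset.sum_le_sum fun v hv => ?_
    rw [MassS_Opv, mul_left_comm]
    exact mul_le_mul' le_rfl (hstep st hst v hv)
  have hptF : ∀ st, good P st → (if st.x ∈ occ Γ.H then (0 : ℝ≥0∞) else ∑ v ∈ steps P.i0,
        Opa P Γ v (fun st => if st.z ∈ cell P.L z0 then 1 else 0) st) ≤
      ∑ v ∈ steps P.i0, n0 * ((if st.z ∈ cell P.L (z0 - (P.L : ℤ) • v) then 1 else 0) *
        (ENNReal.ofReal α' * Vp P.p (occ Γ.H) st.x + S6 P Γ st v)) := by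
    intro st hst
    by_cases hx : st.x ∈ occ Γ.H
    · rw [if_pos hx]
      exact zero_le
    · rw [if_neg hx]
      refine Finset.sum_le_sum fun v hv => ?_
      rw [MassS_Opa, mul_left_comm]
      exact mul_le_mul' le_rfl (had pM a l P hR Γ st hΓ hst hx v hv)
  have hD : MasD P Γ i (Op P (kernG P Γ) (epG P Γ)
      (fun st => if st.z ∈ cell P.L z0 then 1 else 0)) ≤ ∑ v ∈ steps P.i0,
      n0 * (BD P Γ i (z0 - (P.L : ℤ) • v) + ENNReal.ofReal ((2 ^ 16 * β +
        α * (Cd * (a1 + a2 + CJ)) + γ * (Cd * (2 * a4 + CJ))) * (P.L : ℝ) ^ 8) *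
          rho P Γ (z0 - (P.L : ℤ) • v)) := by
    refine (MasD_mono hptD).trans ?_
    rw [MasD_sum]
    refine Finset.sum_le_sum fun v _ => ?_
    rw [MasD_mul]
    exact mul_le_mul' le_rfl (hbox _)
  have hF : MasF P i (fun st => if st.x ∈ occ Γ.H then 0 else ∑ v ∈ steps P.i0,
        Opa P Γ v (fun st => if st.z ∈ cell P.L z0 then 1 else 0) st) ≤ ∑ v ∈ steps P.i0,
      n0 * (ENNReal.ofReal ((α' * a1 + 6 ^ 16 * A) * (P.L : ℝ) ^ 8) *
        rho P Γ (z0 - (P.L : ℤ) • v)) := by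
    refine (MasF_mono hptF).trans ?_
    rw [MasF_sum]
    refine Finset.sum_le_sum fun v hv => ?_
    rw [MasF_mul]
    exact mul_le_mul' le_rfl (hfree v hv _)
  refine (e0.trans (add_le_add hD hF)).trans ?_
  unfold Mo
  simp only [Bool.false_eq_true, if_false]
  rw [← Finset.sum_add_distrib, mul_left_comm (ENNReal.ofReal _)
    (((steps P.i0).card : ℝ≥0∞)⁻¹), ← mul_add, Finset.mul_sum,
    ← Finset.sum_add_distrib, Finset.mul_sum]
  refine Finset.sum_le_sum fun v _ => ?_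
  rw [← mul_add, ← sub_eq_add_neg, add_assoc, ← add_mul,
    ← ENNReal.ofReal_add (by positivity) (by positivity), ← add_mul]

end CG
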