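import Pool.Agent.H5.CG.FDef

/-!
JOB CG-Sft1 (MP_0d9ad5_pr, note 2718, flow part, owner helper5). Translation invariance of the weights.
PROOF. `∑ w ∈ shA a A, f w = ∑ w ∈ A, f (w + a)` (`Finset.sum_map`), so `FK`, `F4`, `gc`, `gs`, `gx` are invariant
(`pvs (x + a) l = (pvs x l).map (· + a)`, `pend (x + a) l = pend x l + a`, `ker` only sees differences). `cl_sh`:
`perc_shift` (H5/DF: `shift a` preserves `perc`), `cut_shift`, the cluster of a shifted configuration. `mm_sh`: the
bijection `shA a` of `Finset (V d)` (`Equiv.tsum_eq`).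
-/

namespace H5CG

open CG H5DF H95LBD MeasureTheory
open scoped ENNReal

variable {d : ℕ}

lemma mem_shA {a w : V d} {A : Finset (V d)} : w ∈ shA a A ↔ w - a ∈ A := by
  unfold shA
  rw [Finset.mem_map_equiv, Equiv.addRight_symm]
  simp [sub_eq_add_neg]

lemma coe_shA (a : V d) (A : Finset (V d)) : (shA a A : Set (V d)) = {w | w - a ∈ A} := by
  ext w
  rw [Finset.mem_coe, mem_shA]
  rfl

/-- Translations of finite sets are bijective. -/
def shAE (a : V d) : Finset (V d) ≃ Finset (V d) where
  toFun := shA a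
  invFun := shA (-a)
  left_inv := by
    intro A
    ext w
    rw [mem_shA, mem_shA]
    have : w - -a - a = w := by abel
    rw [this]
  right_inv := by
    intro A
    ext w
    rw [mem_shA, mem_shA]
    have : w - a - -a = w := by abel
    rw [this]

lemma sft1_sum (a : V d) (A : Finset (V d)) (f : V d → ℝ≥0∞) :
    ∑ w ∈ shA a A, f w = ∑ w ∈ A, f (w + a) := by
  unfold shA
  rw [Finset.sum_map]
  rfl

lemma occ_sh (a : V d) (H : List (Ent d)) : occ (H.map (shEn a)) = shA a (occ H) := by
  induction H with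
  | nil => rfl
  | cons e H ih =>
    rw [List.map_cons]
    show shA a e.A ∪ occ (H.map (shEn a)) = shA a (e.A ∪ occ H)
    rw [ih]
    ext w
    simp only [Finset.mem_union, mem_shA]

lemma sft1_FK (P : Par d) (k : ℕ) (a : V d) (H : List (Ent d)) (w : V d) :
    FK P k (H.map (shEn a)) (w + a) = FK P k H w := by
  induction H generalizing k with
  | nil => rfl
  | cons e H ih =>
    rw [List.map_cons]
    show ((k : ℝ≥0∞) + 1) ^ 2 * (∑ w' ∈ shA a e.A, t2 d P.p (w + a - w')) +
      FK P (k + 1) (H.map (shEn a)) (w + a) =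
      ((k : ℝ≥0∞) + 1) ^ 2 * (∑ w' ∈ e.A, t2 d P.p (w - w')) + FK P (k + 1) H w
    rw [ih, sft1_sum]
    simp only [add_sub_add_right_eq_sub]

lemma sft1_F4 (k : ℕ) (a : V d) (H : List (Ent d)) (w : V d) :
    F4 k (H.map (shEn a)) (w + a) = F4 k H w := by
  induction H generalizing k with
  | nil => rfl
  | cons e H ih =>
    rw [List.map_cons]
    show ((k : ℝ≥0∞) + 1) ^ 2 * (∑ s : Dir d, if w + a + step s ∈ shA a e.A then 1 else 0) +
      F4 (k + 1) (H.map (shEn a)) (w + a) =
      ((k : ℝ≥0∞) + 1) ^ 2 * (∑ s : Dir d, if w + step s ∈ e.A then 1 else 0) + F4 (k + 1) H w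
    rw [ih]
    congr 2
    refine Finset.sum_congr rfl fun s _ => ?_
    have h : w + a + step s ∈ shA a e.A ↔ w + step s ∈ e.A := by
      rw [mem_shA]
      have : w + a + step s - a = w + step s := by abel
      rw [this]
    by_cases h1 : w + step s ∈ e.A
    · rw [if_pos (h.2 h1), if_pos h1]
    · rw [if_neg (fun h2 => h1 (h.1 h2)), if_neg h1]

lemma sft1_gc (P : Par d) (a : V d) (H : List (Ent d)) (x : V d) (B : Finset (V d)) :
    gc P (H.map (shEn a)) (x + a) (shA a B) ↔ gc P H x B := by
  unfold gc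
  rw [sft1_sum, sft1_sum, sft1_sum]
  simp only [add_sub_add_right_eq_sub, sft1_FK, sft1_F4]

lemma sft1_pend (a x : V d) (l : List (Dir d)) : pend (x + a) l = pend x l + a := by
  induction l generalizing x with
  | nil => rfl
  | cons t l ih =>
    show pend (x + a + step t) l = pend (x + step t) l + a
    rw [← ih]
    congr 1
    abel

lemma sft1_pvs (a x : V d) (l : List (Dir d)) : pvs (x + a) l = (pvs x l).map (· + a) := by
  induction l generalizing x with
  | nil => rfl
  | cons t l ih =>
    show (x + a) :: pvs (x + a + step t) l = (x :: pvs (x + step t) l).map (· + a)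
    rw [List.map_cons, ← ih]
    congr 2
    abel

lemma sft1_gs (P : Par d) (a : V d) (H : List (Ent d)) (x : V d) :
    gs P (H.map (shEn a)) (x + a) ↔ gs P H x := by
  unfold gs
  refine exists_congr fun l => and_congr Iff.rfl (and_congr ?_ ?_)
  · rw [sft1_pvs, occ_sh]
    constructor
    · intro h u hu hu2
      refine h (u + a) (List.mem_map.2 ⟨u, hu, rfl⟩) (mem_shA.2 ?_)
      rw [add_sub_cancel_right]
      exact hu2
    · intro h u hu hu2
      obtain ⟨v, hv, rfl⟩ := List.mem_map.1 hu
      have h3 := mem_shA.1 hu2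
      rw [add_sub_cancel_right] at h3
      exact h v hv h3
  · rw [occ_sh, sft1_sum, sft1_pend]
    simp only [add_sub_add_right_eq_sub]

lemma gx_sh (P : Par d) (st : St d) (v : V d) (B : Finset (V d)) (y : V d) (s : Dir d) (a : V d) :
    gx P (shS a st) v (shA a B) (y + a) s ↔ gx P st v B y s := by
  unfold gx
  refine and_congr Iff.rfl (and_congr ?_ (and_congr ?_ (and_congr ?_ (and_congr ?_
    (and_congr ?_ ?_)))))
  · show st.x + a ∈ shA a B ↔ _
    rw [mem_shA, add_sub_cancel_right]
  · rw [mem_shA, add_sub_cancel_right]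
  · show Disjoint (shA a B) (occ (st.H.map (shEn a))) ↔ _
    rw [occ_sh]
    exact Finset.disjoint_map _
  · exact sft1_gc P a st.H st.x B
  · show y + a + step s ∈ cell P.L (st.z + a + (P.L : ℤ) • v) ↔ _
    rw [mem_cell, mem_cell]
    refine forall_congr' fun i => ?_
    simp only [Pi.add_apply]
    constructor
    · rintro ⟨h1, h2⟩
      constructor <;> linarith
    · rintro ⟨h1, h2⟩
      constructor <;> linarith
  · have h := sft1_gs P a (⟨st.z, st.x, B, y⟩ :: st.H) (y + step s)
    have h2 : y + step s + a = y + a + step s := by abel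
    rw [h2] at h
    exact h

lemma cl_sh {p : ℝ} (h0 : 0 ≤ p) (h1 : p ≤ 1) (S : Finset (V d)) (x : V d) (B : Finset (V d))
    (a : V d) : cl p (shA a S) (x + a) (shA a B) = cl p S x B := by
  unfold cl
  have hm : MeasurableSet {ζ : Cfg d | cluster (cut ((S : Set (V d))ᶜ) ζ) x = (B : Set (V d))} :=
    meas_cl _ _ _
  have h := Measure.map_apply (μ := perc d p) (measurable_shift a) hm
  rw [perc_shift p h0 h1 a] at h
  rw [h]
  congr 1
  ext ζ
  rw [Set.mem_setOf_eq, Set.mem_preimage, Set.mem_setOf_eq, cut_shift, cluster_shift]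
  have hS : ((shA a S : Finset (V d)) : Set (V d))ᶜ = {w | w - a ∈ ((S : Set (V d))ᶜ)} := by
    rw [coe_shA]
    rfl
  rw [hS, coe_shA]
  constructor
  · intro h2
    rw [h2]
    ext w
    simp only [Set.mem_setOf_eq, add_sub_cancel_right, Finset.mem_coe]
  · intro h2
    ext w
    have h3 := Set.ext_iff.1 h2 (w - a)
    rw [Set.mem_setOf_eq, sub_add_cancel] at h3
    exact h3

lemma mm_sh {P : Par d} (h0 : 0 ≤ P.p) (h1 : P.p ≤ 1) (st : St d) (v a : V d) :
    mm P (shS a st) v = mm P st v := by
  unfold mm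
  congr 1
  rw [← (shAE a).tsum_eq]
  refine tsum_congr fun B => ?_
  show cl P.p (occ (st.H.map (shEn a))) (st.x + a) (shA a B) * cnt P (shS a st) v (shA a B) = _
  rw [occ_sh, cl_sh h0 h1]
  congr 1
  unfold cnt
  rw [sft1_sum]
  refine Finset.sum_congr rfl fun y _ => Finset.sum_congr rfl fun s _ => ?_
  by_cases hg : gx P st v B y s
  · rw [if_pos hg, if_pos ((gx_sh P st v B y s a).2 hg)]
  · rw [if_neg hg, if_neg (fun h => hg ((gx_sh P st v B y s a).1 h))]

lemma nrm_sh {P : Par d} (h0 : 0 ≤ P.p) (h1 : P.p ≤ 1) (st : St d) (v a : V d) :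
    nrm P (shS a st) v = nrm P st v := by
  unfold nrm
  rw [mm_sh h0 h1]

end H5CG
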