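import Pool.Agent.H5.CG.B2c
import Pool.Agent.H5.CG.MassS
import Pool.Agent.H70.CG.B1n

/-!
JOB CG-B2n (MP_0d9ad5_pr, note 2748, (B2)). Induction on `i` of the three statements
(1) `BD i z0 ≤ Cb Λ L^4 Mo^i rho z0 + Cm L^8 ∑_{k<i} Mo^(k+1) rho z0` (so `≤ (Cb Λ + Cm) C L^8 ≤ L^9` by `rw_rho`, `L` large),
(2) `NDE i e.A ≤ CN L^4` for `e ∈ Γ.H`, (3) the density bound of `massS_step` at `i`. Adapted from `H70/CF/B2n.lean`
(the numbers are the same with `A1 := A`, because `X = τs Mb + χ ≤ A L^(-16) L^9 + A L^2 ≤ 2 A L^2`; `τs = A / L^16` by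
`tau_far`, `χ ≤ A L^2` by `R.kin.tot`, `ad = 3 b4 ≤ c3/8 L^2` by `ent_adj`).
Start: `BD_zero` with `box_occ`, `NDE_zero_le` with `good_card`, `ND_zero_le`. (2): `nde_succ`. (3): `nd_succ`.
(1): `massS_step`. Conclusion: `NE_le` (`e.A ⊆ occ Γ.H`).
-/

namespace CG

open H5DF H95LBD MeasureTheory
open scoped ENNReal

variable {d : ℕ}

lemma B2n_inv {K x y : ℝ} (hK : 0 < K) (h : x ≤ y * K) :
    (ENNReal.ofReal K)⁻¹ * ENNReal.ofReal x ≤ ENNReal.ofReal y := by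
  rw [← ENNReal.ofReal_inv_of_pos hK, ← ENNReal.ofReal_mul (inv_nonneg.2 hK.le)]
  refine ENNReal.ofReal_le_ofReal ?_
  rw [inv_mul_le_iff₀ hK]
  linarith

lemma B2n_2d : (2 * (d : ℝ≥0∞)) = ENNReal.ofReal (2 * (d : ℝ)) := by
  rw [ENNReal.ofReal_mul (by norm_num), ENNReal.ofReal_natCast, ENNReal.ofReal_ofNat]

lemma B2n_sub {H : List (Ent d)} {e : Ent d} (he : e ∈ H) : e.A ⊆ occ H := by
  induction H with
  | nil => simp at he
  | cons e0 H ih =>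
    rw [occ]
    rcases List.mem_cons.1 he with rfl | h
    · exact Finset.subset_union_left
    · exact (ih h).trans Finset.subset_union_right

lemma B2n_cell {L : ℕ} {z y : V d} (h : y ∈ cell L z) : nm (y - z) ≤ 4 * L := by
  rw [nm_le]
  intro i
  have h1 := Fintype.mem_piFinset.1 h i
  rw [Finset.mem_Ico] at h1
  rw [Pi.sub_apply]
  omega

section

variable {pm pM a A Λ c3 : ℝ} {l : ℕ} {P : Par d}

lemma B2n_Lr (R : Reg d pm pM a A Λ c3 l P) : (1 : ℝ) ≤ (P.L : ℝ) := by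
  exact_mod_cast R.kin.L1

lemma B2n_K (R : Reg d pm pM a A Λ c3 l P) : 16 ≤ c3 * P.s * (P.L : ℝ) ^ 2 := by
  have h := R.K0
  rw [div_le_iff₀ R.hc3] at h
  linarith

/-- The bound of `X = τs * Mb + χ`. -/
lemma B2n_X (R : Reg d pm pM a A Λ c3 l P) :
    ENNReal.ofReal (A / (P.L : ℝ) ^ 16) * ENNReal.ofReal ((P.L : ℝ) ^ 9) +
      ∑' x : V d, tau d P.p x ≤ ENNReal.ofReal (2 * A * (P.L : ℝ) ^ 2) := by
  have hLr := B2n_Lr R
  have hA := R.kin.hA
  have e : 2 * A * (P.L : ℝ) ^ 2 = A * (P.L : ℝ) ^ 2 + A * (P.L : ℝ) ^ 2 := by ring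
  rw [e, ENNReal.ofReal_add (by positivity) (by positivity)]
  refine add_le_add ?_ R.kin.tot
  rw [← ENNReal.ofReal_mul (by positivity)]
  refine ENNReal.ofReal_le_ofReal ?_
  have h1 : (P.L : ℝ) ^ 16 = (P.L : ℝ) ^ 7 * (P.L : ℝ) ^ 9 := by rw [← pow_add]
  have h2 : A / (P.L : ℝ) ^ 16 * (P.L : ℝ) ^ 9 = A / (P.L : ℝ) ^ 7 := by
    rw [h1]
    field_simp
  rw [h2]
  have h3 : (1 : ℝ) ≤ (P.L : ℝ) ^ 7 := one_le_pow₀ hLr
  have h4 : (1 : ℝ) ≤ (P.L : ℝ) ^ 2 := one_le_pow₀ hLr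
  calc A / (P.L : ℝ) ^ 7 ≤ A / 1 := div_le_div_of_nonneg_left (by linarith) one_pos h3
    _ = A * 1 := by ring
    _ ≤ A * (P.L : ℝ) ^ 2 := mul_le_mul_of_nonneg_left h4 (by linarith)

/-- The step for the mass in a cluster. -/
lemma B2n_ne (R : Reg d pm pM a A Λ c3 l P) (hs1 : P.s ≤ 1) {CN : ℝ} (hCN : 0 < CN)
    (h1 : 4 * d * A * Λ / c3 + A / 8 ≤ 3 / 4 * CN) {Γ : St d} (hΓ : good P Γ) (i : ℕ)
    (hB : ∀ z0, BD P Γ i z0 ≤ ENNReal.ofReal ((P.L : ℝ) ^ 9))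
    (hN : ∀ e ∈ Γ.H, NDE P Γ i e.A ≤ ENNReal.ofReal (CN * (P.L : ℝ) ^ 4)) (e : Ent d)
    (he : e ∈ Γ.H) : NDE P Γ (i + 1) e.A ≤ ENNReal.ofReal (CN * (P.L : ℝ) ^ 4) := by
  classical
  have hLr := B2n_Lr R
  have hK := B2n_K R
  have hs := R.s0
  have hc3 := R.hc3
  have hA := R.kin.hA
  have hΛ := R.hΛ
  have hstep := nde_succ P R.kin.L1 R.kin.h0 R.kin.h1 hs hs1
    (ENNReal.ofReal (c3 * P.s * (P.L : ℝ) ^ 2)) (ENNReal.ofReal (A / (P.L : ℝ) ^ 16))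
    R.mm_ge (fun z hz => tau_far R.kin hz) Γ hΓ i (ENNReal.ofReal ((P.L : ℝ) ^ 9))
    (ENNReal.ofReal (CN * (P.L : ℝ) ^ 4)) (3 * P.b4) hB hN
    (fun e he => ent_adj P Γ hΓ e he) e he
  refine hstep.trans ?_
  have hcard : (e.A.card : ℝ≥0∞) ≤ ENNReal.ofReal (Λ * (P.L : ℝ) ^ 4) := by
    rw [← R.b1_eq]
    exact good_card hΓ he
  have hb4 : 3 * P.b4 ≤ ENNReal.ofReal (c3 * (P.L : ℝ) ^ 2 / 8) := by
    refine (mul_le_mul' le_rfl R.b4_le).trans ?_
    rw [← ENNReal.ofReal_ofNat 3, ← ENNReal.ofReal_mul (by norm_num)]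
    refine ENNReal.ofReal_le_ofReal (le_of_eq ?_)
    ring
  have hX := B2n_X R
  have h2 : (ENNReal.ofReal P.s * (2 * d) * e.A.card + 1) *
        (ENNReal.ofReal (A / (P.L : ℝ) ^ 16) * ENNReal.ofReal ((P.L : ℝ) ^ 9) +
          ∑' x : V d, tau d P.p x) +
      ENNReal.ofReal (CN * (P.L : ℝ) ^ 4) *
        (ENNReal.ofReal P.s * (3 * P.b4) + 2) ≤
      ENNReal.ofReal ((P.s * (2 * d) * (Λ * (P.L : ℝ) ^ 4) + 1) * (2 * A * (P.L : ℝ) ^ 2) +
        CN * (P.L : ℝ) ^ 4 * (P.s * (c3 * (P.L : ℝ) ^ 2 / 8) + 2)) := by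
    rw [B2n_2d]
    rw [ENNReal.ofReal_add (by positivity) (by positivity)]
    refine add_le_add ?_ ?_
    · rw [ENNReal.ofReal_mul (q := 2 * A * (P.L : ℝ) ^ 2) (by positivity)]
      refine mul_le_mul' ?_ hX
      rw [ENNReal.ofReal_add (by positivity) (by positivity), ENNReal.ofReal_one]
      refine add_le_add ?_ le_rfl
      rw [ENNReal.ofReal_mul (q := Λ * (P.L : ℝ) ^ 4) (by positivity),
        ENNReal.ofReal_mul (q := 2 * (d : ℝ)) (by positivity)]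
      exact mul_le_mul' le_rfl hcard
    · rw [ENNReal.ofReal_mul (q := P.s * (c3 * (P.L : ℝ) ^ 2 / 8) + 2) (by positivity)]
      refine mul_le_mul' le_rfl ?_
      rw [ENNReal.ofReal_add (by positivity) (by norm_num), ENNReal.ofReal_ofNat]
      refine add_le_add ?_ le_rfl
      rw [ENNReal.ofReal_mul hs]
      exact mul_le_mul' le_rfl hb4
  refine (mul_le_mul' le_rfl h2).trans ?_
  refine B2n_inv (by linarith) ?_
  set L : ℝ := (P.L : ℝ) with hLdef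
  have hL4 : 0 < L ^ 4 := by positivity
  have hL24 : L ^ 2 ≤ L ^ 4 := pow_le_pow_right₀ hLr (by norm_num)
  -- the four parts
  have p1 : P.s * (2 * d) * (Λ * L ^ 4) * (2 * A * L ^ 2) =
      4 * d * A * Λ / c3 * (c3 * P.s * L ^ 2) * L ^ 4 := by
    field_simp
    ring
  have p2 : 2 * A * L ^ 2 ≤ A / 8 * (c3 * P.s * L ^ 2) * L ^ 4 := by
    calc 2 * A * L ^ 2 ≤ 2 * A * L ^ 4 := mul_le_mul_of_nonneg_left hL24 (by positivity)
      _ = A / 8 * 16 * L ^ 4 := by ring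
      _ ≤ A / 8 * (c3 * P.s * L ^ 2) * L ^ 4 := by gcongr
  have p3 : CN * L ^ 4 * 2 ≤ 1 / 8 * CN * (c3 * P.s * L ^ 2) * L ^ 4 := by
    calc CN * L ^ 4 * 2 = 1 / 8 * CN * 16 * L ^ 4 := by ring
      _ ≤ 1 / 8 * CN * (c3 * P.s * L ^ 2) * L ^ 4 := by gcongr
  have p4 : (4 * d * A * Λ / c3 + A / 8) * ((c3 * P.s * L ^ 2) * L ^ 4) ≤
      3 / 4 * CN * ((c3 * P.s * L ^ 2) * L ^ 4) :=
    mul_le_mul_of_nonneg_right h1 (by positivity)
  calc (P.s * (2 * d) * (Λ * L ^ 4) + 1) * (2 * A * L ^ 2) +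
      CN * L ^ 4 * (P.s * (c3 * L ^ 2 / 8) + 2)
      = P.s * (2 * d) * (Λ * L ^ 4) * (2 * A * L ^ 2) + 2 * A * L ^ 2 + CN * L ^ 4 * 2 +
        1 / 8 * CN * ((c3 * P.s * L ^ 2) * L ^ 4) := by ring
    _ ≤ 4 * d * A * Λ / c3 * (c3 * P.s * L ^ 2) * L ^ 4 + A / 8 * (c3 * P.s * L ^ 2) * L ^ 4 +
        1 / 8 * CN * (c3 * P.s * L ^ 2) * L ^ 4 + 1 / 8 * CN * ((c3 * P.s * L ^ 2) * L ^ 4) := by
        rw [p1]
        gcongr
    _ = (4 * d * A * Λ / c3 + A / 8) * ((c3 * P.s * L ^ 2) * L ^ 4) +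
        1 / 4 * CN * ((c3 * P.s * L ^ 2) * L ^ 4) := by ring
    _ ≤ 3 / 4 * CN * ((c3 * P.s * L ^ 2) * L ^ 4) +
        1 / 4 * CN * ((c3 * P.s * L ^ 2) * L ^ 4) := by gcongr
    _ = CN * L ^ 4 * (c3 * P.s * L ^ 2) := by ring

open Classical in
/-- The step for the density. -/
lemma B2n_nn (R : Reg d pm pM a A Λ c3 l P) (hs1 : P.s ≤ 1) {CN Cd : ℝ} (hCN : 0 < CN)
    (hCd : 0 < Cd) (h1 : 4 * d * A / c3 ≤ Cd) (h2 : 2 * d * CN / c3 ≤ Cd)
    (h3 : A / 8 + d * CN / 8 ≤ Cd) {Γ : St d} (hΓ : good P Γ) (i : ℕ)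
    (hB : ∀ z0, BD P Γ i z0 ≤ ENNReal.ofReal ((P.L : ℝ) ^ 9))
    (hN : ∀ e ∈ Γ.H, NDE P Γ i e.A ≤ ENNReal.ofReal (CN * (P.L : ℝ) ^ 4)) (y : V d) :
    ND P Γ (i + 1) y ≤ ENNReal.ofReal Cd +
        ENNReal.ofReal (Cd * (P.L : ℝ) ^ 2) * (if ∃ s : Dir d, y + step s ∈ occ Γ.H then 1 else 0) +
        ENNReal.ofReal (Cd * (P.L : ℝ) ^ 4) *
          (if ∃ s : Dir d, junc Γ.x Γ.H y (y + step s) then 1 else 0) := by
  have hLr := B2n_Lr R
  have hK := B2n_K R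
  have hs := R.s0
  have hc3 := R.hc3
  have hA := R.kin.hA
  have hstep := nd_succ P R.kin.L1 R.kin.h0 R.kin.h1 hs hs1
    (ENNReal.ofReal (c3 * P.s * (P.L : ℝ) ^ 2)) (ENNReal.ofReal (A / (P.L : ℝ) ^ 16))
    R.mm_ge (fun z hz => tau_far R.kin hz) Γ hΓ i (ENNReal.ofReal ((P.L : ℝ) ^ 9))
    (ENNReal.ofReal (CN * (P.L : ℝ) ^ 4)) hB hN y
  refine hstep.trans ?_
  set a' : ℝ≥0∞ := (if ∃ s : Dir d, y + step s ∈ occ Γ.H then 1 else 0) with ha
  set b : ℝ≥0∞ := (if ∃ s : Dir d, junc Γ.x Γ.H y (y + step s) then 1 else 0) with hb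
  have hneg : ∀ s : Dir d, y - step s = y + step (opp s) := by
    intro s
    rw [step_opp]
    abel
  -- the head part
  have hhead : (if ∃ e ∈ Γ.H.head?, y = e.y then (1 : ℝ≥0∞) else 0) ≤ b := by
    split_ifs with h
    · obtain ⟨e, he, hy⟩ := h
      have hbb : b = 1 := by
        rw [hb, if_pos]
        obtain ⟨z, x, H⟩ := Γ
        replace he : e ∈ H.head? := he
        cases H with
        | nil => simp at he
        | cons e0 H =>
          rw [List.head?_cons, Option.mem_some_iff] at he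
          subst he
          obtain ⟨-, v, s, -, hx, -⟩ := hΓ
          have hx' : x = e0.y + step s := hx
          refine ⟨s, ?_⟩
          show junc x (e0 :: H) y (y + step s)
          left
          exact ⟨hy, by rw [hy, hx']⟩
      rw [hbb]
    · exact zero_le
  -- the cluster part
  have hsum : ∑ s : Dir d, (if y - step s ∈ occ Γ.H then
      ENNReal.ofReal P.s + (if junc Γ.x Γ.H (y - step s) y then 1 else 0) else 0) ≤
      (2 * d) * (ENNReal.ofReal P.s * a' + b) := by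
    have hterm : ∀ s ∈ (Finset.univ : Finset (Dir d)), (if y - step s ∈ occ Γ.H then
      ENNReal.ofReal P.s + (if junc Γ.x Γ.H (y - step s) y then 1 else 0) else 0) ≤
      (ENNReal.ofReal P.s * a' + b) := by
      intro s _
      split_ifs with h4 h5
      · have haa : a' = 1 := by
          rw [ha, if_pos]
          exact ⟨opp s, by rw [← hneg]; exact h4⟩
        have hbb : b = 1 := by
          rw [hb, if_pos]
          exact ⟨opp s, by rw [← hneg]; exact junc_symm h5⟩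
        rw [haa, hbb, mul_one]
      · have haa : a' = 1 := by
          rw [ha, if_pos]
          exact ⟨opp s, by rw [← hneg]; exact h4⟩
        rw [haa, mul_one, add_zero]
        exact le_self_add
      · exact zero_le
    refine (Finset.sum_le_sum hterm).trans (le_of_eq ?_)
    rw [Finset.sum_const, nsmul_eq_mul, Finset.card_univ]
    congr 1
    simp [Dir, mul_comm]
  have hX := B2n_X R
  calc (ENNReal.ofReal (c3 * P.s * (P.L : ℝ) ^ 2))⁻¹ *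
        ((ENNReal.ofReal P.s * (2 * d) + (if ∃ e ∈ Γ.H.head?, y = e.y then 1 else 0)) *
          (ENNReal.ofReal (A / (P.L : ℝ) ^ 16) * ENNReal.ofReal ((P.L : ℝ) ^ 9) +
            ∑' x : V d, tau d P.p x) +
        ENNReal.ofReal (CN * (P.L : ℝ) ^ 4) * ∑ s : Dir d, (if y - step s ∈ occ Γ.H then
          ENNReal.ofReal P.s + (if junc Γ.x Γ.H (y - step s) y then 1 else 0) else 0))
      ≤ (ENNReal.ofReal (c3 * P.s * (P.L : ℝ) ^ 2))⁻¹ *
        ((ENNReal.ofReal P.s * (2 * d) + b) * ENNReal.ofReal (2 * A * (P.L : ℝ) ^ 2) +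
        ENNReal.ofReal (CN * (P.L : ℝ) ^ 4) * ((2 * d) * (ENNReal.ofReal P.s * a' + b))) := by
        refine mul_le_mul' le_rfl (add_le_add (mul_le_mul' (add_le_add le_rfl hhead) hX)
          (mul_le_mul' le_rfl hsum))
    _ = (ENNReal.ofReal (c3 * P.s * (P.L : ℝ) ^ 2))⁻¹ *
          (ENNReal.ofReal P.s * (2 * d) * ENNReal.ofReal (2 * A * (P.L : ℝ) ^ 2)) +
        (ENNReal.ofReal (c3 * P.s * (P.L : ℝ) ^ 2))⁻¹ *
          (ENNReal.ofReal (CN * (P.L : ℝ) ^ 4) * (2 * d) * ENNReal.ofReal P.s) * a' +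
        (ENNReal.ofReal (c3 * P.s * (P.L : ℝ) ^ 2))⁻¹ *
          (ENNReal.ofReal (2 * A * (P.L : ℝ) ^ 2) +
            ENNReal.ofReal (CN * (P.L : ℝ) ^ 4) * (2 * d)) * b := by ring
    _ ≤ ENNReal.ofReal Cd + ENNReal.ofReal (Cd * (P.L : ℝ) ^ 2) * a' +
        ENNReal.ofReal (Cd * (P.L : ℝ) ^ 4) * b := by
        rw [B2n_2d]
        refine add_le_add (add_le_add ?_ (mul_le_mul' ?_ le_rfl)) (mul_le_mul' ?_ le_rfl)
        · rw [← ENNReal.ofReal_mul hs, ← ENNReal.ofReal_mul (by positivity)]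
          refine B2n_inv (by linarith) ?_
          rw [div_le_iff₀ hc3] at h1
          calc P.s * (2 * d) * (2 * A * (P.L : ℝ) ^ 2) = (4 * d * A) * (P.s * (P.L : ℝ) ^ 2) := by
                ring
            _ ≤ (Cd * c3) * (P.s * (P.L : ℝ) ^ 2) := mul_le_mul_of_nonneg_right h1 (by positivity)
            _ = Cd * (c3 * P.s * (P.L : ℝ) ^ 2) := by ring
        · rw [← ENNReal.ofReal_mul (by positivity), ← ENNReal.ofReal_mul (by positivity)]
          refine B2n_inv (by linarith) ?_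
          rw [div_le_iff₀ hc3] at h2
          calc CN * (P.L : ℝ) ^ 4 * (2 * d) * P.s = (2 * d * CN) * (P.s * (P.L : ℝ) ^ 4) := by ring
            _ ≤ (Cd * c3) * (P.s * (P.L : ℝ) ^ 4) := mul_le_mul_of_nonneg_right h2 (by positivity)
            _ = Cd * (P.L : ℝ) ^ 2 * (c3 * P.s * (P.L : ℝ) ^ 2) := by ring
        · rw [← ENNReal.ofReal_mul (by positivity),
            ← ENNReal.ofReal_add (by positivity) (by positivity)]
          refine B2n_inv (by linarith) ?_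
          have hL24 : (P.L : ℝ) ^ 2 ≤ (P.L : ℝ) ^ 4 := pow_le_pow_right₀ hLr (by norm_num)
          calc 2 * A * (P.L : ℝ) ^ 2 + CN * (P.L : ℝ) ^ 4 * (2 * d)
              ≤ 2 * A * (P.L : ℝ) ^ 4 + CN * (P.L : ℝ) ^ 4 * (2 * d) := by gcongr
            _ = (A / 8 + d * CN / 8) * 16 * (P.L : ℝ) ^ 4 := by ring
            _ ≤ Cd * 16 * (P.L : ℝ) ^ 4 := by gcongr
            _ ≤ Cd * (c3 * P.s * (P.L : ℝ) ^ 2) * (P.L : ℝ) ^ 4 := by gcongr
            _ = Cd * (P.L : ℝ) ^ 4 * (c3 * P.s * (P.L : ℝ) ^ 2) := by ring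

end

theorem prefix_bound (hd : 9 ≤ d) (pm pM a A Λ c3 : ℝ) (hpm : 0 < pm) (hA : 1 ≤ A) (hΛ : 1 ≤ Λ)
    (hc3 : 0 < c3) : ∃ (CN : ℝ) (l0 : ℕ), 0 < CN ∧ ∀ (l : ℕ) (P : Par d), l0 ≤ l →
      Reg d pm pM a A Λ c3 l P → P.s ≤ 1 → ∀ Γ : St d, good P Γ → ∀ i : ℕ, ∀ e ∈ Γ.H,
        NE P Γ i e.A ≤ ENNReal.ofReal (CN * (P.L : ℝ) ^ 4) := by
  classical
  set CN : ℝ := Λ + 2 * (4 * d * A * Λ / c3 + A / 8) with hCNdef
  have hE : 0 ≤ 4 * d * A * Λ / c3 + A / 8 := by positivity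
  have hCN : 0 < CN := by positivity
  set Cd : ℝ := 1 + 4 * d * A / c3 + 2 * d * CN / c3 + (A / 8 + d * CN / 8) with hCddef
  have q1 : 0 ≤ 4 * d * A / c3 := by positivity
  have q2 : 0 ≤ 2 * d * CN / c3 := by positivity
  have q3 : 0 ≤ A / 8 + d * CN / 8 := by positivity
  have hCd : 0 < Cd := by positivity
  obtain ⟨Cm, l1, hCm, hmass⟩ := massS_step hd pm pM a A Λ c3 Cd hpm hA hΛ hc3 hCd
  obtain ⟨Cb, hCb, hbox⟩ := box_occ (d := d)
  obtain ⟨C, hC, hrw⟩ := rw_rho (d := d) (by omega)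
  obtain ⟨l2, hl2⟩ := exists_nat_ge ((Cb * Λ + Cm) * C)
  refine ⟨CN, l1 + l2 + 1, hCN, fun l P hl R hs1 Γ hΓ => ?_⟩
  have hL1 := R.kin.L1
  have hLr := B2n_Lr R
  -- the bound `L^9`
  have htwo : ∀ (i : ℕ), (∀ z0, BD P Γ i z0 ≤
      ENNReal.ofReal (Cb * Λ * (P.L : ℝ) ^ 4) * (Mo P false)^[i] (rho P Γ) z0 +
      ENNReal.ofReal (Cm * (P.L : ℝ) ^ 8) *
        ∑ k ∈ Finset.range i, (Mo P false)^[k + 1] (rho P Γ) z0) →
      ∀ z0, BD P Γ i z0 ≤ ENNReal.ofReal ((P.L : ℝ) ^ 9) := by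
    intro i h z0
    refine (h z0).trans ?_
    have h1 : ∑ k ∈ Finset.range i, (Mo P false)^[k + 1] (rho P Γ) z0 ≤ ENNReal.ofReal C := by
      refine le_trans ?_ (hrw P hL1 Γ hΓ false (i + 1) z0)
      rw [Finset.sum_range_succ']
      exact le_self_add
    have h0 : (Mo P false)^[i] (rho P Γ) z0 ≤ ENNReal.ofReal C := by
      refine le_trans ?_ (hrw P hL1 Γ hΓ false (i + 1) z0)
      exact Finset.single_le_sum (f := fun k => (Mo P false)^[k] (rho P Γ) z0)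
        (fun _ _ => zero_le) (Finset.self_mem_range_succ i)
    refine (add_le_add (mul_le_mul' le_rfl h0) (mul_le_mul' le_rfl h1)).trans ?_
    rw [← ENNReal.ofReal_mul (by positivity), ← ENNReal.ofReal_mul (by positivity),
      ← ENNReal.ofReal_add (by positivity) (by positivity)]
    refine ENNReal.ofReal_le_ofReal ?_
    have h2 : (l : ℝ) ≤ (P.L : ℝ) := by
      rw [R.L_eq]
      exact_mod_cast Nat.le_self_pow (by norm_num) l
    have h3 : (Cb * Λ + Cm) * C ≤ (P.L : ℝ) := by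
      refine hl2.trans (le_trans ?_ h2)
      exact_mod_cast (by omega : l2 ≤ l)
    have h4 : (P.L : ℝ) ^ 4 ≤ (P.L : ℝ) ^ 8 := pow_le_pow_right₀ hLr (by norm_num)
    calc Cb * Λ * (P.L : ℝ) ^ 4 * C + Cm * (P.L : ℝ) ^ 8 * C
        ≤ Cb * Λ * (P.L : ℝ) ^ 8 * C + Cm * (P.L : ℝ) ^ 8 * C := by gcongr
      _ = ((Cb * Λ + Cm) * C) * (P.L : ℝ) ^ 8 := by ring
      _ ≤ (P.L : ℝ) * (P.L : ℝ) ^ 8 := mul_le_mul_of_nonneg_right h3 (by positivity)
      _ = (P.L : ℝ) ^ 9 := by ring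
  have key : ∀ i : ℕ, (∀ z0, BD P Γ i z0 ≤
      ENNReal.ofReal (Cb * Λ * (P.L : ℝ) ^ 4) * (Mo P false)^[i] (rho P Γ) z0 +
      ENNReal.ofReal (Cm * (P.L : ℝ) ^ 8) *
        ∑ k ∈ Finset.range i, (Mo P false)^[k + 1] (rho P Γ) z0) ∧
      (∀ e ∈ Γ.H, NDE P Γ i e.A ≤ ENNReal.ofReal (CN * (P.L : ℝ) ^ 4)) ∧
      (∀ y, ND P Γ i y ≤ ENNReal.ofReal Cd +
        ENNReal.ofReal (Cd * (P.L : ℝ) ^ 2) * (if ∃ s : Dir d, y + step s ∈ occ Γ.H then 1 else 0) +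
        ENNReal.ofReal (Cd * (P.L : ℝ) ^ 4) *
          (if ∃ s : Dir d, junc Γ.x Γ.H y (y + step s) then 1 else 0)) := by
    intro i
    induction i with
    | zero =>
      refine ⟨fun z0 => ?_, fun e he => ?_, fun y => ?_⟩
      · rw [BD_zero]
        refine le_trans (hbox pm pM a A Λ c3 l P R Γ hΓ z0 (cell P.L z0)
          fun y hy => B2n_cell hy) ?_
        exact le_self_add
      · refine (NDE_zero_le P Γ e.A).trans ((good_card hΓ he).trans ?_)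
        rw [R.b1_eq]
        refine ENNReal.ofReal_le_ofReal ?_
        refine mul_le_mul_of_nonneg_right ?_ (by positivity)
        rw [hCNdef]
        linarith
      · refine (ND_zero_le P Γ y).trans ?_
        rw [add_assoc]
        refine le_trans ?_ le_self_add
        rw [← ENNReal.ofReal_one]
        refine ENNReal.ofReal_le_ofReal ?_
        rw [hCddef]
        linarith
    | succ i ih =>
      obtain ⟨ih1, ih2, ih3⟩ := ih
      have hB := htwo i ih1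
      refine ⟨fun z0 => ?_, fun e he => ?_, fun y => ?_⟩
      · refine (hmass l P (by omega) R hs1 Γ hΓ i hB ih3 z0).trans ?_
        have h1 : Mo P false (BD P Γ i) z0 ≤
            ENNReal.ofReal (Cb * Λ * (P.L : ℝ) ^ 4) * (Mo P false)^[i + 1] (rho P Γ) z0 +
            ENNReal.ofReal (Cm * (P.L : ℝ) ^ 8) *
              ∑ k ∈ Finset.range i, (Mo P false)^[k + 1 + 1] (rho P Γ) z0 := by
          refine (Mo_mono P false ih1 z0).trans (le_of_eq ?_)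
          rw [Mo_add P false (fun w => ENNReal.ofReal (Cb * Λ * (P.L : ℝ) ^ 4) *
            (Mo P false)^[i] (rho P Γ) w), Mo_mul, Mo_mul,
            Mo_sum P false (Finset.range i) (fun k => (Mo P false)^[k + 1] (rho P Γ)),
            Function.iterate_succ_apply' (Mo P false) i]
          congr 2
          refine Finset.sum_congr rfl fun k _ => ?_
          rw [Function.iterate_succ_apply' (Mo P false) (k + 1)]
        refine (add_le_add h1 le_rfl).trans (le_of_eq ?_)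
        rw [Finset.sum_range_succ' _ i, mul_add, add_assoc]
        rfl
      · exact B2n_ne R hs1 hCN (by rw [hCNdef]; linarith) hΓ i hB ih2 e he
      · exact B2n_nn R hs1 hCN hCd (by rw [hCddef]; linarith) (by rw [hCddef]; linarith)
          (by rw [hCddef]; linarith) hΓ i hB ih2 y
  intro i e he
  exact (NE_le hΓ i (B2n_sub he)).trans ((key i).2.1 e he)

end CG

/-!
PROJECT CG (MP_0d9ad5_pr, notes 2718, 2748, (B3)). `hit_sum` with `suffix_bound` (`e.A ⊆ occ Γ.H`) and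
`prefix_bound`.
-/

namespace CG

open H5DF H95LBD MeasureTheory
open scoped ENNReal

variable {d : ℕ}

lemma Two_sub_occ {e : Ent d} : ∀ {H : List (Ent d)}, e ∈ H → e.A ⊆ occ H := by
  intro H
  induction H with
  | nil => intro h; simp at h
  | cons e' H ih =>
    intro h
    rcases List.mem_cons.mp h with rfl | h
    · exact Finset.subset_union_left
    · exact (ih h).trans Finset.subset_union_right

theorem two_chain (hd : 9 ≤ d) (pm pM a A Λ c3 : ℝ) (hpm : 0 < pm) (hA : 1 ≤ A) (hΛ : 1 ≤ Λ)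
    (hc3 : 0 < c3) : ∃ (C : ℝ) (l0 : ℕ), 0 < C ∧ ∀ (l : ℕ) (P : Par d), l0 ≤ l →
      Reg d pm pM a A Λ c3 l P → P.s ≤ 1 → ∀ Γ : St d, good P Γ → ∀ n : ℕ, ∀ e ∈ Γ.H,
        ∑' c : Ch d n, wtc P (kernG P Γ) (epG P Γ) n c * hit P e.A n c ≤
          ENNReal.ofReal (C * (n + 1) * (P.L : ℝ) ^ 6) := by
  obtain ⟨Cv, l1, hCv, h1⟩ := suffix_bound hd pm pM a A Λ c3 hpm hA hΛ hc3
  obtain ⟨CN, l2, hCN, h2⟩ := prefix_bound hd pm pM a A Λ c3 hpm hA hΛ hc3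
  refine ⟨CN * Cv, max l1 l2, mul_pos hCN hCv, ?_⟩
  intro l P hl hR hs1 Γ hΓ n e he
  have hs := h1 l P ((le_max_left _ _).trans hl) hR Γ hΓ
  have hp := h2 l P ((le_max_right _ _).trans hl) hR hs1 Γ hΓ
  refine (hit_sum P Γ e.A (ENNReal.ofReal (Cv * (P.L : ℝ) ^ 2))
    (fun r st hst hx => hs r st hst (Two_sub_occ he hx)) n).trans ?_
  have h3 : ∑ i ∈ Finset.range (n + 1), NE P Γ i e.A * ENNReal.ofReal (Cv * (P.L : ℝ) ^ 2) ≤
      ∑ i ∈ Finset.range (n + 1),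
        ENNReal.ofReal (CN * (P.L : ℝ) ^ 4) * ENNReal.ofReal (Cv * (P.L : ℝ) ^ 2) :=
    Finset.sum_le_sum fun i _ => mul_le_mul_left (hp i e he) _
  refine h3.trans (le_of_eq ?_)
  rw [Finset.sum_const, Finset.card_range, nsmul_eq_mul, ← ENNReal.ofReal_mul (by positivity),
    show ((n + 1 : ℕ) : ℝ≥0∞) = ENNReal.ofReal ((n : ℝ) + 1) by
      rw [← ENNReal.ofReal_natCast]; push_cast; rfl,
    ← ENNReal.ofReal_mul (by positivity)]
  congr 1
  ring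

end CG
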